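import Pool.Agent.Q32.DP.Stm
import Pool.Agent.Helper926.RK.RELib

set_option autoImplicit false

/-!
# Direct products and the isomorphism problem: the algorithm (helper65)
-/

namespace Pool.Agent.Q32.DP.ALG

open Pool.Agent.Q223.IS Pool.Agent.Q32.DP

/-- Isomorphism of codes. -/
structure IsoP (p : Pres × Pres) : Prop where
  h : Nonempty (PG p.1 ≃* PG p.2)

theorem re_iso : REPred IsoP := iso_re.of_eq fun _ => ⟨fun h => ⟨h⟩, fun h => h.h⟩

/-- `false` is a value: recursively enumerable. -/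
theorem re_false {f : Pres × Pres →. Bool} (hf : Partrec f) :
    REPred fun z => false ∈ f z := by
  have h1 : Partrec₂ fun (_ : Pres × Pres) (b : Bool) =>
      (bif b then Part.none else Part.some () : Part Unit) := by
    have h2 : Partrec fun x : (Pres × Pres) × Bool =>
        (bif x.2 then Part.none else Part.some () : Part Unit) :=
      Partrec.cond (c := fun x : (Pres × Pres) × Bool => x.2) Computable.snd Partrec.none
        (Computable.const ()).partrec
    exact h2
  refine (Partrec.bind hf h1).dom_re.of_eq fun z => ?_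
  constructor
  · intro h
    obtain ⟨h3, h4⟩ := Part.bind_dom.1 h
    cases hb : (f z).get h3 with
    | true => rw [hb] at h4; exact h4.elim
    | false =>
      rw [← hb]
      exact Part.get_mem h3
  · intro h
    refine Part.bind_dom.2 ⟨Part.dom_iff_mem.2 ⟨_, h⟩, ?_⟩
    rw [Part.get_eq_of_mem h]
    trivial

/-- Reindexed products. -/
theorem pl_congr {L L' : List Pres} (σ : Fin L.length ≃ Fin L'.length)
    (h : ∀ i, Nonempty (PG (L.get i) ≃* PG (L'.get (σ i)))) : Nonempty (PL L ≃* PL L') := by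
  classical
  let e := fun i => (h i).some
  let F : PL L' →* PL L :=
    { toFun := fun g i => (e i).symm (g (σ i))
      map_one' := by funext i; simp
      map_mul' := by intro x y; funext i; simp }
  have hF : Function.Bijective F := by
    constructor
    · intro x y hxy
      funext j
      have h1 := congrFun hxy (σ.symm j)
      have h2 : x (σ (σ.symm j)) = y (σ (σ.symm j)) := (e (σ.symm j)).symm.injective h1
      rwa [Equiv.apply_symm_apply] at h2
    · intro g
      refine ⟨fun j => (Equiv.apply_symm_apply σ j) ▸ e (σ.symm j) (g (σ.symm j)), ?_⟩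
      funext i
      have h3 : ∀ (k : Fin L.length) (hk : σ k = σ i),
          (hk ▸ e k (g k) : PG (L'.get (σ i))) = e i (g i) := by
        intro k hk
        have hki : k = i := σ.injective hk
        subst hki
        rfl
      have h4 : (e i).symm ((Equiv.apply_symm_apply σ (σ i)) ▸ e (σ.symm (σ i)) (g (σ.symm (σ i)))) = g i := by
        rw [h3 (σ.symm (σ i)) (Equiv.apply_symm_apply σ (σ i))]
        exact (e i).symm_apply_apply (g i)
      exact h4
  exact ⟨(MulEquiv.ofBijective F hF).symm⟩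

/-- The relation of non-isomorphism. -/
def NR (CA CK : Pres → Prop) (P : Pres × List Pres → Pres) (fA : Pres × Pres →. Bool)
    (Q : List Pres × List Pres → Prop) (p : Pres × Pres)
    (x : (Pres × List Pres) × (Pres × List Pres)) : Prop :=
  ((CA x.1.1 ∧ CA x.2.1) ∧ ((∀ k ∈ x.1.2, CK k) ∧ ∀ k ∈ x.2.2, CK k)) ∧
    ((IsoP (p.1, P x.1) ∧ IsoP (p.2, P x.2)) ∧ (false ∈ fA (x.1.1, x.2.1) ∨ Q (x.1.2, x.2.2)))

/-- The type of a pair with a certificate. -/
abbrev Cert : Type := (Pres × Pres) × ((Pres × List Pres) × (Pres × List Pres))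

theorem c1 : Computable fun z : Cert => z.2.1 := Computable.fst.comp Computable.snd

theorem c2 : Computable fun z : Cert => z.2.2 := Computable.snd.comp Computable.snd

theorem c11 : Computable fun z : Cert => z.2.1.1 := Computable.fst.comp c1

theorem c12 : Computable fun z : Cert => z.2.1.2 := Computable.snd.comp c1

theorem c21 : Computable fun z : Cert => z.2.2.1 := Computable.fst.comp c2

theorem c22 : Computable fun z : Cert => z.2.2.2 := Computable.snd.comp c2

theorem d1 : Computable fun z : Cert => z.1.1 := Computable.fst.comp Computable.fst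

theorem d2 : Computable fun z : Cert => z.1.2 := Computable.snd.comp Computable.fst

open Pool.Agent.Helper926 in
theorem re1 {CA : Pres → Prop} (hA : REPred CA) : REPred fun z : Cert => CA z.2.1.1 ∧ CA z.2.2.1 :=
  RE.and (RE.comp (p := CA) hA (f := fun z : Cert => z.2.1.1) c11)
    (RE.comp (p := CA) hA (f := fun z : Cert => z.2.2.1) c21)

open Pool.Agent.Helper926 in
theorem re2 {CK : Pres → Prop} (hK : REPred CK) :
    REPred fun z : Cert => (∀ k ∈ z.2.1.2, CK k) ∧ ∀ k ∈ z.2.2.2, CK k := by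
  have h : REPred fun x : Cert × Pres => CK x.2 :=
    RE.comp (p := CK) hK (f := fun x : Cert × Pres => x.2) Computable.snd
  exact RE.and (RE.all_mem (p := fun (_ : Cert) k => CK k) h (l := fun z : Cert => z.2.1.2) c12)
    (RE.all_mem (p := fun (_ : Cert) k => CK k) h (l := fun z : Cert => z.2.2.2) c22)

open Pool.Agent.Helper926 in
theorem re3 {P : Pres × List Pres → Pres} (hP : Computable P) :
    REPred fun z : Cert => IsoP (z.1.1, P z.2.1) ∧ IsoP (z.1.2, P z.2.2) := by
  have h1 : Computable fun z : Cert => (z.1.1, P z.2.1) := d1.pair (hP.comp c1)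
  have h2 : Computable fun z : Cert => (z.1.2, P z.2.2) := d2.pair (hP.comp c2)
  exact RE.and (RE.comp (p := IsoP) re_iso h1) (RE.comp (p := IsoP) re_iso h2)

open Pool.Agent.Helper926 in
theorem re4 {fA : Pres × Pres →. Bool} {Q : List Pres × List Pres → Prop} (hf : Partrec fA)
    (hQ : REPred Q) :
    REPred fun z : Cert => false ∈ fA (z.2.1.1, z.2.2.1) ∨ Q (z.2.1.2, z.2.2.2) := by
  have h1 : Computable fun z : Cert => (z.2.1.1, z.2.2.1) := c11.pair c21
  have h2 : Computable fun z : Cert => (z.2.1.2, z.2.2.2) := c12.pair c22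
  exact RE.or (RE.comp (p := fun q : Pres × Pres => false ∈ fA q) (re_false hf) h1)
    (RE.comp (p := Q) hQ h2)

open Pool.Agent.Helper926 in
theorem re_NR {CA CK : Pres → Prop} {P : Pres × List Pres → Pres} {fA : Pres × Pres →. Bool}
    {Q : List Pres × List Pres → Prop} (hA : REPred CA) (hK : REPred CK) (hP : Primrec P)
    (hf : Partrec fA) (hQ : REPred Q) :
    REPred fun p : Pres × Pres => ∃ x, NR CA CK P fA Q p x := by
  have h : REPred fun z : Cert => NR CA CK P fA Q z.1 z.2 := by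
    have h5 := RE.and (RE.and (re1 hA) (re2 hK)) (RE.and (re3 hP.to_comp) (re4 hf hQ))
    exact h5.of_eq fun z => Iff.rfl
  exact RE.ex (p := fun p x => NR CA CK P fA Q p x) h

open Pool.Agent.Helper926 in
theorem t (h1 : S_PRODL) (h2 : S_KS) (h3 : S_NONMATCH) : S_ALG := by
  intro CA CK hA hK hab hcl ⟨fA, hfA, hfA2⟩ ⟨fK, hfK, hfK2⟩
  obtain ⟨P, hP, hP2⟩ := h1
  obtain ⟨Q, hQ, hQ2⟩ := h3 CK fK hfK hfK2
  have hN := re_NR hA hK hP hfA hQ
  -- the two relations exclude each other
  have hexcl : ∀ p : Pres × Pres, IsoP p → (∃ x, NR CA CK P fA Q p x) → False := by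
    rintro p ⟨hp⟩ ⟨⟨⟨a, L⟩, ⟨a', L'⟩⟩, ⟨⟨ha, ha'⟩, hL, hL'⟩, ⟨⟨hi⟩, ⟨hi'⟩⟩, hor⟩
    have e1 : Nonempty (PG a × PL L ≃* PG a' × PL L') := by
      obtain ⟨u⟩ := hp
      obtain ⟨v⟩ := hi
      obtain ⟨v'⟩ := hi'
      obtain ⟨w⟩ := hP2 a L
      obtain ⟨w'⟩ := hP2 a' L'
      exact ⟨w.symm.trans (v.symm.trans (u.trans (v'.trans w')))⟩
    have e2 := h2 (PG a) (PG a') L.length L'.length (fun i => PG (L.get i)) (fun j => PG (L'.get j))
      (hab a ha) (hab a' ha') (fun i => (hcl _ (hL _ (List.get_mem _ _))).1)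
      (fun i => (hcl _ (hL _ (List.get_mem _ _))).2) (fun j => (hcl _ (hL' _ (List.get_mem _ _))).1)
      (fun j => (hcl _ (hL' _ (List.get_mem _ _))).2) e1
    rcases hor with hor | hor
    · have := (hfA2 a a' ha ha').1 e2.1
      have := Part.mem_unique this hor
      exact absurd this (by simp)
    · exact (hQ2 L L' hL hL').1 hor e2.2
  -- the promise gives a certificate
  have hcert : ∀ p p' : Pres, Prods CA CK p → Prods CA CK p' → ¬ Nonempty (PG p ≃* PG p') →
      ∃ x, NR CA CK P fA Q (p, p') x := by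
    rintro p p' ⟨a, L, ha, hL, hi⟩ ⟨a', L', ha', hL', hi'⟩ hno
    refine ⟨((a, L), (a', L')), ⟨⟨ha, ha'⟩, hL, hL'⟩, ⟨⟨?_⟩, ⟨?_⟩⟩, ?_⟩
    · obtain ⟨u⟩ := hi
      obtain ⟨w⟩ := hP2 a L
      exact ⟨u.trans w.symm⟩
    · obtain ⟨u⟩ := hi'
      obtain ⟨w⟩ := hP2 a' L'
      exact ⟨u.trans w.symm⟩
    · by_cases hia : Nonempty (PG a ≃* PG a')
      · right
        refine (hQ2 L L' hL hL').2 ?_
        rintro ⟨σ, hσ⟩
        apply hno
        obtain ⟨u⟩ := hi
        obtain ⟨u'⟩ := hi'
        obtain ⟨v⟩ := hia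
        obtain ⟨w⟩ := pl_congr σ hσ
        exact ⟨u.trans ((MulEquiv.prodCongr v w).trans u'.symm)⟩
      · left
        exact (hfA2 a a' ha ha').2 hia
  -- search
  have hr : REPred fun x : (Pres × Pres) × Bool =>
      (x.2 = true ∧ IsoP x.1) ∨ (x.2 = false ∧ ∃ y, NR CA CK P fA Q x.1 y) := by
    have e1 : REPred fun x : (Pres × Pres) × Bool => x.2 = true :=
      RE.eq Computable.snd (Computable.const true)
    have e2 : REPred fun x : (Pres × Pres) × Bool => x.2 = false :=
      RE.eq Computable.snd (Computable.const false)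
    have e3 : REPred fun x : (Pres × Pres) × Bool => IsoP x.1 :=
      RE.comp (p := IsoP) re_iso Computable.fst
    have e4 : REPred fun x : (Pres × Pres) × Bool => ∃ y, NR CA CK P fA Q x.1 y :=
      RE.comp (p := fun q : Pres × Pres => ∃ y, NR CA CK P fA Q q y) hN Computable.fst
    exact RE.or (RE.and e1 e3) (RE.and e2 e4)
  obtain ⟨f, hf, hd, hm⟩ := RE.uniformize (r := fun (a : Pres × Pres) (b : Bool) =>
    (b = true ∧ IsoP a) ∨ (b = false ∧ ∃ y, NR CA CK P fA Q a y)) hr
  refine ⟨f, hf, fun p p' hp hp' => ⟨fun hi => ?_, fun hi => ?_⟩⟩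
  · have hi2 : IsoP (p, p') := ⟨hi⟩
    have hdom : (f (p, p')).Dom := (hd (p, p')).2 ⟨true, Or.inl ⟨rfl, hi2⟩⟩
    have hg := Part.get_mem hdom
    rcases hm _ _ hg with ⟨hb, -⟩ | ⟨hb, hy⟩
    · rwa [hb] at hg
    · exact (hexcl (p, p') hi2 hy).elim
  · have hdom : (f (p, p')).Dom := (hd (p, p')).2 ⟨false, Or.inr ⟨rfl, hcert p p' hp hp' hi⟩⟩
    have hg := Part.get_mem hdom
    rcases hm _ _ hg with ⟨hb, hy⟩ | ⟨hb, -⟩
    · exact (hi hy.h).elim
    · rwa [hb] at hg

end Pool.Agent.Q32.DP.ALG
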