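import Pool.Agent.Q32.DP.Stm2
import Pool.Agent.Helper926.RK.RELib

set_option autoImplicit false

/-!
# ALGF (helper121): the isomorphism problem on free products
-/

namespace Pool.Agent.Q32.DP.ALGF

open Pool.Agent.Q223.IS Pool.Agent.Q32.DP

/-- Free products of isomorphic groups are isomorphic. -/
theorem coprodI_congr {m n : ℕ} (K : Fin m → Type) (L : Fin n → Type) [∀ i, Group (K i)]
    [∀ j, Group (L j)] (σ : Fin m ≃ Fin n) (h : ∀ i, Nonempty (K i ≃* L (σ i))) :
    Nonempty (Monoid.CoprodI K ≃* Monoid.CoprodI L) := by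
  have e : ∀ i, K i ≃* L (σ i) := fun i => (h i).some
  let f : ∀ i, K i →* Monoid.CoprodI L := fun i =>
    (Monoid.CoprodI.of (i := σ i)).comp (e i).toMonoidHom
  let g : ∀ j, L j →* Monoid.CoprodI K :=
    Equiv.piCongrLeft (fun j => L j →* Monoid.CoprodI K) σ
      (fun i => (Monoid.CoprodI.of (i := i)).comp (e i).symm.toMonoidHom)
  have hg : ∀ i, g (σ i) = (Monoid.CoprodI.of (i := i)).comp (e i).symm.toMonoidHom := fun i =>
    Equiv.piCongrLeft_apply_apply (fun j => L j →* Monoid.CoprodI K) σ _ i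
  refine ⟨MonoidHom.toMulEquiv (Monoid.CoprodI.lift f) (Monoid.CoprodI.lift g) ?_ ?_⟩
  · apply Monoid.CoprodI.ext_hom
    intro i
    ext x
    simp only [MonoidHom.comp_apply, MonoidHom.id_apply, Monoid.CoprodI.lift_of]
    show (Monoid.CoprodI.lift g) (Monoid.CoprodI.of (i := σ i) (e i x)) = _
    rw [Monoid.CoprodI.lift_of, hg]
    simp
  · apply Monoid.CoprodI.ext_hom
    intro j
    obtain ⟨i, rfl⟩ := σ.surjective j
    ext x
    simp only [MonoidHom.comp_apply, MonoidHom.id_apply, Monoid.CoprodI.lift_of]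
    rw [hg]
    show (Monoid.CoprodI.lift f) (Monoid.CoprodI.of (i := i) ((e i).symm x)) = _
    rw [Monoid.CoprodI.lift_of]
    show Monoid.CoprodI.of (i := σ i) (e i ((e i).symm x)) = _
    simp

/-- the certificate of non-isomorphism -/
def N (C : Pres → Prop) (P : ℕ × List Pres → Pres) (Q : List Pres × List Pres → Prop)
    (a : Pres × Pres) (t : (ℕ × List Pres) × (ℕ × List Pres)) : Prop :=
  ((∀ k ∈ t.1.2, C k) ∧ (∀ k ∈ t.2.2, C k)) ∧
    (Nonempty (PG a.1 ≃* PG (P t.1)) ∧ Nonempty (PG a.2 ≃* PG (P t.2))) ∧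
    (t.1.1 ≠ t.2.1 ∨ Q (t.1.2, t.2.2))

/-- the relation which the algorithm solves -/
def R (C : Pres → Prop) (P : ℕ × List Pres → Pres) (Q : List Pres × List Pres → Prop)
    (a : Pres × Pres) (c : Bool) : Prop :=
  (c = true ∧ Nonempty (PG a.1 ≃* PG a.2)) ∨ (c = false ∧ ∃ t, N C P Q a t)

theorem R_re {C : Pres → Prop} {P : ℕ × List Pres → Pres} {Q : List Pres × List Pres → Prop}
    (hC : REPred C) (hP : Primrec P) (hQ : REPred Q) :
    REPred fun x : (Pres × Pres) × Bool => R C P Q x.1 x.2 := by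
  unfold R
  have hP' := hP.to_comp
  refine Helper926.RE.or (Helper926.RE.and (Helper926.RE.eq Computable.snd (Computable.const true))
    (Helper926.RE.comp iso_re (f := fun x : (Pres × Pres) × Bool => (x.1.1, x.1.2)) ?_)) ?_
  · exact (Computable.fst.comp Computable.fst).pair (Computable.snd.comp Computable.fst)
  refine Helper926.RE.and (Helper926.RE.eq Computable.snd (Computable.const false)) ?_
  refine Helper926.RE.ex (p := fun (x : (Pres × Pres) × Bool)
    (t : (ℕ × List Pres) × (ℕ × List Pres)) => N C P Q x.1 t) ?_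
  unfold N
  have hC' : REPred fun x : (((Pres × Pres) × Bool) × ((ℕ × List Pres) × (ℕ × List Pres))) × Pres
      => C x.2 := Helper926.RE.comp hC Computable.snd
  have c1 : Computable fun x : ((Pres × Pres) × Bool) × ((ℕ × List Pres) × (ℕ × List Pres)) =>
      x.2.1 := Computable.fst.comp Computable.snd
  have c2 : Computable fun x : ((Pres × Pres) × Bool) × ((ℕ × List Pres) × (ℕ × List Pres)) =>
      x.2.2 := Computable.snd.comp Computable.snd
  have d1 : Computable fun x : ((Pres × Pres) × Bool) × ((ℕ × List Pres) × (ℕ × List Pres)) =>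
      x.1.1.1 := Computable.fst.comp (Computable.fst.comp Computable.fst)
  have d2 : Computable fun x : ((Pres × Pres) × Bool) × ((ℕ × List Pres) × (ℕ × List Pres)) =>
      x.1.1.2 := Computable.snd.comp (Computable.fst.comp Computable.fst)
  refine Helper926.RE.and (Helper926.RE.and ?_ ?_) (Helper926.RE.and (Helper926.RE.and ?_ ?_) ?_)
  · exact Helper926.RE.all_mem (p := fun (_ : ((Pres × Pres) × Bool) × ((ℕ × List Pres) ×
      (ℕ × List Pres))) k => C k) hC' (Computable.snd.comp c1)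
  · exact Helper926.RE.all_mem (p := fun (_ : ((Pres × Pres) × Bool) × ((ℕ × List Pres) ×
      (ℕ × List Pres))) k => C k) hC' (Computable.snd.comp c2)
  · exact Helper926.RE.comp iso_re (f := fun x : ((Pres × Pres) × Bool) × ((ℕ × List Pres) ×
      (ℕ × List Pres)) => (x.1.1.1, P x.2.1)) (d1.pair (hP'.comp c1))
  · exact Helper926.RE.comp iso_re (f := fun x : ((Pres × Pres) × Bool) × ((ℕ × List Pres) ×
      (ℕ × List Pres)) => (x.1.1.2, P x.2.2)) (d2.pair (hP'.comp c2))
  · refine Helper926.RE.or ?_ ?_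
    · exact Helper926.RE.ne (Computable.fst.comp c1) (Computable.fst.comp c2)
    · exact Helper926.RE.comp hQ (f := fun x : ((Pres × Pres) × Bool) × ((ℕ × List Pres) ×
        (ℕ × List Pres)) => (x.2.1.2, x.2.2.2))
        ((Computable.snd.comp c1).pair (Computable.snd.comp c2))

/-- **ALGF** -/
theorem t (h1 : S_FPROD) (h2 : S_KSF) (h3 : S_NONMATCH) : S_ALGF := by
  intro C hC hC' hS
  obtain ⟨P, hP, hPi⟩ := h1
  obtain ⟨f, hf, hf'⟩ := hS
  obtain ⟨Q, hQ, hQ'⟩ := h3 C f hf hf'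
  obtain ⟨F, hF, hF1, hF2⟩ := Helper926.RE.uniformize (R_re hC hP hQ)
  refine ⟨F, hF, fun p q hp hq => ?_⟩
  -- a certificate excludes an isomorphism
  have key1 : ∀ t, N C P Q (p, q) t → ¬ Nonempty (PG p ≃* PG q) := by
    rintro ⟨⟨s, L⟩, ⟨s', L'⟩⟩ ⟨⟨hL, hL'⟩, ⟨⟨e1⟩, ⟨e2⟩⟩, hd⟩ ⟨e⟩
    simp only at hL hL' e1 e2 hd
    obtain ⟨i1⟩ := hPi s L
    obtain ⟨i2⟩ := hPi s' L'
    have hk := h2 s s' L.length L'.length (fun i => PG (L.get i)) (fun j => PG (L'.get j))
      (fun i => hC' _ (hL _ (List.get_mem L i))) (fun j => hC' _ (hL' _ (List.get_mem L' j)))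
      ⟨(i1.symm.trans e1.symm).trans (e.trans (e2.trans i2))⟩
    rcases hd with hd | hd
    · exact hd hk.1
    · exact (hQ' L L' hL hL').1 hd hk.2
  -- no isomorphism: a certificate exists
  have key2 : ¬ Nonempty (PG p ≃* PG q) → ∃ t, N C P Q (p, q) t := by
    intro hne
    obtain ⟨s, L, hL, ⟨e1⟩⟩ := hp
    obtain ⟨s', L', hL', ⟨e2⟩⟩ := hq
    obtain ⟨i1⟩ := hPi s L
    obtain ⟨i2⟩ := hPi s' L'
    refine ⟨((s, L), (s', L')), ⟨hL, hL'⟩, ⟨⟨e1.trans i1.symm⟩, ⟨e2.trans i2.symm⟩⟩, ?_⟩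
    by_cases hs : s = s'
    · right
      refine (hQ' L L' hL hL').2 ?_
      rintro ⟨σ, hσ⟩
      subst hs
      obtain ⟨j⟩ := coprodI_congr (fun i : Fin L.length => PG (L.get i))
        (fun j : Fin L'.length => PG (L'.get j)) σ hσ
      exact hne ⟨e1.trans ((MulEquiv.coprodCongr j (MulEquiv.refl _)).trans e2.symm)⟩
    · left
      exact hs
  have hdom : (F (p, q)).Dom := by
    rw [hF1]
    by_cases hi : Nonempty (PG p ≃* PG q)
    · exact ⟨true, Or.inl ⟨rfl, hi⟩⟩
    · exact ⟨false, Or.inr ⟨rfl, key2 hi⟩⟩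
  have hg : (F (p, q)).get hdom ∈ F (p, q) := Part.get_mem hdom
  have hR := hF2 (p, q) _ hg
  generalize (F (p, q)).get hdom = c at hg hR
  constructor
  · intro hi
    rcases hR with ⟨hc, -⟩ | ⟨-, t, ht⟩
    · rw [hc] at hg
      exact hg
    · exact absurd hi (key1 t ht)
  · intro hi
    rcases hR with ⟨-, hc⟩ | ⟨hc, -⟩
    · exact absurd hc hi
    · rw [hc] at hg
      exact hg

end Pool.Agent.Q32.DP.ALGF
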