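import Pool.Agent.Q32.DP.Struct

set_option autoImplicit false

/-!
# Assembly of the second part
-/

namespace Pool.Agent.Q32.DP.ASM

open Pool.Agent.Q223.IS Pool.Agent.Q32.DP Pool.Agent.Q32.DP.Struct Monoid

/-- Members of `DD`. -/
def PD (p : Pres) : Prop := TFree (PG p) ∧ FreelyIndec (PG p) ∧ ¬ Cyclic (PG p)

/-- Members of `FF`. -/
def PF (p : Pres) : Prop := TFree (PG p) ∧ Centerless (PG p) ∧ Indecomposable (PG p)

/-- The base class. -/
def PB (p : Pres) : Prop := TFree (PG p) ∧ Centerless (PG p) ∧ Indecomposable (PG p) ∧ FreelyIndec (PG p)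

theorem pd_of_pb {p : Pres} (h : PB p) : PD p :=
  ⟨h.1, h.2.2.2, ncyclic_of_centerless h.2.1 h.2.2.1.1⟩

theorem pf_of_pb {p : Pres} (h : PB p) : PF p := ⟨h.1, h.2.1, h.2.2.1⟩

theorem members (hF : S_FREE) (hD : S_DIR) (C : Pres → Prop) (hC : ∀ k, C k → PB k) (n : ℕ) :
    (∀ p, DD C n p → PD p) ∧ (∀ p, FF C n p → PF p) := by
  induction n with
  | zero => exact ⟨fun p hp => pd_of_pb (hC p hp), fun p hp => pf_of_pb (hC p hp)⟩
  | succ n ih =>
    constructor
    · rintro p (hp | ⟨m, L, hL, hm, ⟨e⟩⟩)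
      · exact pd_of_pb (hC p hp)
      · obtain ⟨A, B, iA, iB, hA, hB, ha, hb, ⟨f⟩⟩ := split_DL m L
          (fun k hk => ⟨(ih.2 k (hL k hk)).1, (ih.2 k (hL k hk)).2.2.1⟩) hm
        obtain ⟨h1, h2, h3⟩ := hD A B hA hB ha hb
        have g := (e.trans f).symm
        exact ⟨tfree_iso g h1, findec_iso g h2, ncyclic_iso g h3⟩
    · rintro p (hp | ⟨s, L, hL, hs, ⟨e⟩⟩)
      · exact pf_of_pb (hC p hp)
      · obtain ⟨A, B, iA, iB, hA, hB, ha, hb, ⟨f⟩⟩ := split_FLs hF s L
          (fun k hk => ⟨(ih.1 k (hL k hk)).1, (ih.1 k (hL k hk)).2.1.1⟩) hs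
        obtain ⟨h1, h2, h3, -⟩ := hF A B hA hB ha hb
        have g := (e.trans f).symm
        exact ⟨tfree_iso g h1, centerless_iso g h2, indec_iso g h3⟩

theorem zn_comm : ∀ a, ZN a → ∀ x y : PG a, x * y = y * x := by
  rintro a ⟨m, ⟨e⟩⟩ x y
  apply e.injective
  rw [map_mul, map_mul, mul_comm]

theorem solv (hALG : S_ALG) (hALGF : S_ALGF) (hF : S_FREE) (hD : S_DIR) (hZ : S_ZNS)
    (hR : S_REDD) (hP : ∀ m : ℕ, ∃ a : Pres, Nonempty (PG a ≃* FreeAb m))
    (C : Pres → Prop) (hCre : REPred C) (hC : ∀ k, C k → PB k) (hS : Solvable C) (n : ℕ) :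
    Solvable (Prods ZN (FF C n)) ∧ Solvable (FreeProds (DD C n)) := by
  have hm := members hF hD C hC
  have key : ∀ n, Solvable (DD C n) ∧ Solvable (FF C n) →
      Solvable (Prods ZN (FF C n)) ∧ Solvable (FreeProds (DD C n)) := by
    intro n h
    exact ⟨hALG ZN (FF C n) hZ.1 (hR C hCre n).2 zn_comm
      (fun k hk => ((hm n).2 k hk).2) hZ.2 h.2,
      hALGF (DD C n) (hR C hCre n).1 (fun k hk => (hm n).1 k hk) h.1⟩
  refine key n ?_
  induction n with
  | zero => exact ⟨hS, hS⟩
  | succ n ih =>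
    have hk := key n ih
    -- one factor from `C`
    have hCD : ∀ n p, C p → DD C n p := by
      intro n p hp
      cases n with
      | zero => exact hp
      | succ n => exact Or.inl hp
    have hCF : ∀ n p, C p → FF C n p := by
      intro n p hp
      cases n with
      | zero => exact hp
      | succ n => exact Or.inl hp
    constructor
    · refine Red.mono ?_ hk.1
      rintro p (hp | ⟨m, L, hL, -, ⟨e⟩⟩)
      · obtain ⟨a, ⟨ea⟩⟩ := hP 0
        have h0 : ∀ x : PG a, x = 1 := by
          intro x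
          apply ea.injective
          exact Subsingleton.elim _ _
        refine ⟨a, [p], ⟨0, ⟨ea⟩⟩, by simpa using hCF n p hp, ⟨?_⟩⟩
        have e1 : PG a × PG p ≃* PG p :=
          { toFun := fun x => x.2
            invFun := fun x => (1, x)
            left_inv := fun x => Prod.ext (h0 _).symm rfl
            right_inv := fun _ => rfl
            map_mul' := fun _ _ => rfl }
        have e2 : PG p × PL [] ≃* PG p :=
          { toFun := fun x => x.1
            invFun := fun x => (x, fun i => (Fin.elim0 i))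
            left_inv := fun x => Prod.ext rfl (funext fun i => (Fin.elim0 i))
            right_inv := fun _ => rfl
            map_mul' := fun _ _ => rfl }
        exact e1.symm.trans ((MulEquiv.refl _).prodCongr ((Red.consE p []).trans e2).symm)
      · obtain ⟨a, ⟨ea⟩⟩ := hP m
        exact ⟨a, L, ⟨m, ⟨ea⟩⟩, hL, ⟨e.trans (ea.symm.prodCongr (MulEquiv.refl _))⟩⟩
    · refine Red.mono ?_ hk.2
      rintro p (hp | ⟨s, L, hL, -, h⟩)
      · refine ⟨0, [p], by simpa using hCD n p hp, ?_⟩
        obtain ⟨e0⟩ := FLs_nil 0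
        have h0 : ∀ x : FLs 0 [], x = 1 := fun x => e0.injective (Subsingleton.elim _ _)
        refine ⟨MulEquiv.trans ?_ (consFLs 0 p []).symm⟩
        refine MonoidHom.toMulEquiv Coprod.inl (Coprod.lift (MonoidHom.id _) 1) ?_ ?_
        · refine MonoidHom.ext fun x => ?_
          simp
        · apply Coprod.hom_ext
          · refine MonoidHom.ext fun x => ?_
            simp
          · refine MonoidHom.ext fun x => ?_
            rw [h0 x]
            simp
      · exact ⟨s, L, hL, h⟩

end Pool.Agent.Q32.DP.ASM
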