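import Pool.Agent.Q32.DP.Stm

set_option autoImplicit false

/-!
# Cancellation of centreless directly indecomposable factors
-/

namespace Pool.Agent.Q32.DP.CANC

open Pool.Agent.Q32.DP

variable {G H K : Type} [Group G] [Group H] [Group K]

/-- Either the second factor goes into the first one, or its first coordinates are central. -/
theorem dich (hK : Centerless K) (hI : Indecomposable K) (e : G × K ≃* H × K) :
    (∀ k : K, (e (1, k)).2 = 1) ∨ ∀ (k : K) (h : H), (e (1, k)).1 * h = h * (e (1, k)).1 := by
  let p : K →* K := (MonoidHom.snd G K).comp (e.symm.toMonoidHom.comp ((MonoidHom.inl H K).comp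
    ((MonoidHom.fst H K).comp (e.toMonoidHom.comp (MonoidHom.inr G K)))))
  let q : K →* K := (MonoidHom.snd G K).comp (e.symm.toMonoidHom.comp ((MonoidHom.inr H K).comp
    ((MonoidHom.snd H K).comp (e.toMonoidHom.comp (MonoidHom.inr G K)))))
  have hp : ∀ k, p k = (e.symm ((e (1, k)).1, 1)).2 := fun k => rfl
  have hq : ∀ k, q k = (e.symm (1, (e (1, k)).2)).2 := fun k => rfl
  have hpq : ∀ k, p k * q k = k := by
    intro k
    rw [hp, hq, ← Prod.snd_mul, ← map_mul]
    have : (((e (1, k)).1, 1) * (1, (e (1, k)).2) : H × K) = e (1, k) := by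
      ext <;> simp
    rw [this]
    simp
  have hcomm : ∀ a b, p a * q b = q b * p a := by
    intro a b
    rw [hp, hq, ← Prod.snd_mul, ← Prod.snd_mul, ← map_mul, ← map_mul]
    congr 2
    ext <;> simp
  have hint : ∀ a b, p a = q b → p a = 1 := by
    intro a b hab
    apply hK
    intro g
    have h1 : p a * p g = p g * p a := by
      rw [hab]
      exact (hcomm g b).symm
    have h2 : p a * q g = q g * p a := hcomm a g
    calc p a * g = p a * (p g * q g) := by rw [hpq]
      _ = p g * (p a * q g) := by rw [← mul_assoc, h1, mul_assoc]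
      _ = p g * q g * p a := by rw [h2, mul_assoc]
      _ = g * p a := by rw [hpq]
  have hqp : ∀ x, q (p x) = 1 := by
    intro x
    have h1 := hpq (p x)
    have h2 : p ((p x)⁻¹ * x) = q (p x) := by
      rw [map_mul, map_inv, inv_mul_eq_iff_eq_mul]
      exact h1.symm
    rw [← h2]
    exact hint _ _ h2
  have hpp : ∀ x, p (p x) = p x := by
    intro x
    have := hpq (p x)
    rwa [hqp, mul_one] at this
  have hpq' : ∀ y, p (q y) = 1 := by
    intro y
    have h1 := hpq (q y)
    have h2 : p (q y) = q (y * (q y)⁻¹) := by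
      rw [map_mul, map_inv]
      exact eq_mul_inv_of_mul_eq h1
    exact hint _ _ h2
  have hqq : ∀ y, q (q y) = q y := by
    intro y
    have := hpq (q y)
    rwa [hpq', one_mul] at this
  have hF : Function.Bijective (p.rangeRestrict.prod q.rangeRestrict) := by
    constructor
    · rw [injective_iff_map_eq_one]
      intro k hk
      have h1 : p k = 1 := by
        have := congrArg (fun z => ((z.1 : p.range) : K)) hk
        simpa using this
      have h2 : q k = 1 := by
        have := congrArg (fun z => ((z.2 : q.range) : K)) hk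
        simpa using this
      rw [← hpq k, h1, h2, mul_one]
    · rintro ⟨⟨_, x, rfl⟩, ⟨_, y, rfl⟩⟩
      refine ⟨p x * q y, ?_⟩
      ext
      · simp [hpp, hpq']
      · simp [hqq, hqp]
  -- centrality of the inverse images
  have hc1 : ∀ (k : K) (g : G), (e (1, k)).1 * (e (g, 1)).1 = (e (g, 1)).1 * (e (1, k)).1 := by
    intro k g
    rw [← Prod.fst_mul, ← Prod.fst_mul, ← map_mul, ← map_mul]
    simp
  have hc2 : ∀ (k : K) (g : G), (e (1, k)).2 * (e (g, 1)).2 = (e (g, 1)).2 * (e (1, k)).2 := by
    intro k g
    rw [← Prod.snd_mul, ← Prod.snd_mul, ← map_mul, ← map_mul]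
    simp
  -- an element commuting with all `e (g, 1)` and with inverse image of trivial second coordinate
  have hcen : ∀ y : H × K, (∀ g : G, y * e (g, 1) = e (g, 1) * y) → (e.symm y).2 = 1 →
      ∀ x : H × K, y * x = x * y := by
    intro y h1 h2 x
    apply e.symm.injective
    rw [map_mul, map_mul]
    have h3 : ∀ g : G, e.symm y * (g, 1) = (g, 1) * e.symm y := by
      intro g
      have := congrArg e.symm (h1 g)
      rw [map_mul, map_mul, MulEquiv.symm_apply_apply] at this
      exact this
    have h4 : ∀ g : G, (e.symm y).1 * g = g * (e.symm y).1 := by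
      intro g
      have := congrArg Prod.fst (h3 g)
      simpa using this
    ext
    · simp [h4]
    · simp [h2]
  rcases hI.2 p.range q.range ⟨MulEquiv.ofBijective _ hF⟩ with h | h
  · right
    intro k x
    have h1 : p k = 1 := by
      have := h ⟨p k, k, rfl⟩
      simpa using congrArg Subtype.val this
    have h2 := hcen ((e (1, k)).1, 1) (by
      intro g
      ext
      · simpa using hc1 k g
      · simp) (by rw [← hp]; exact h1) (x, 1)
    simpa using congrArg Prod.fst h2
  · left
    intro k
    have h1 : q k = 1 := by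
      have := h ⟨q k, k, rfl⟩
      simpa using congrArg Subtype.val this
    have h2 := hcen (1, (e (1, k)).2) (by
      intro g
      ext
      · simp
      · simpa using hc2 k g) (by rw [← hq]; exact h1)
    apply hK
    intro g
    simpa using congrArg Prod.snd (h2 (1, g))

/-- The case in which the second factor goes into the first one. -/
theorem caseI (e : G × K ≃* H × K) (h1 : ∀ k : K, (e (1, k)).2 = 1) : Nonempty (G ≃* H) := by
  -- `D`: the elements of `H` whose inverse image has trivial second coordinate
  let D : Subgroup H := (((MonoidHom.snd G K).comp (e.symm.toMonoidHom.comp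
    (MonoidHom.inl H K)))).ker
  have hD : ∀ h, h ∈ D ↔ (e.symm (h, 1)).2 = 1 := fun h => Iff.rfl
  have he1 : ∀ k, e (1, k) = ((e (1, k)).1, 1) := by
    intro k
    ext
    · rfl
    · exact h1 k
  -- decomposition of an element of `H`
  have hdec : ∀ h : H, ∃ d ∈ D, ∃ k : K, h = d * (e (1, k)).1 ∧ k = (e.symm (h, 1)).2 := by
    intro h
    refine ⟨h * ((e (1, (e.symm (h, 1)).2)).1)⁻¹, ?_, (e.symm (h, 1)).2, by group, rfl⟩
    rw [hD]
    have : ((h * ((e (1, (e.symm (h, 1)).2)).1)⁻¹, 1) : H × K) =
        (h, 1) * (e (1, (e.symm (h, 1)).2))⁻¹ := by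
      ext
      · simp
      · simp [h1]
    rw [this, map_mul, map_inv, MulEquiv.symm_apply_apply]
    simp
  have hcom : ∀ d ∈ D, ∀ k : K, (e (1, k)).1 * d = d * (e (1, k)).1 := by
    intro d hd k
    have h2 : (d, (1 : K)) = e ((e.symm (d, 1)).1, 1) := by
      rw [← MulEquiv.symm_apply_eq]
      ext
      · rfl
      · exact (hD d).1 hd
    have h3 : e (1, k) * (d, 1) = (d, 1) * e (1, k) := by
      rw [h2, ← map_mul, ← map_mul]
      simp
    simpa using congrArg Prod.fst h3
  let ψ : D × K →* H :=
    { toFun := fun x => (x.1 : H) * (e (1, x.2)).1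
      map_one' := by
        have : e (1, 1) = 1 := map_one e
        simp [this]
      map_mul' := by
        intro x y
        have h2 : (e (1, x.2 * y.2)).1 = (e (1, x.2)).1 * (e (1, y.2)).1 := by
          rw [← Prod.fst_mul, ← map_mul]
          simp
        simp only [Prod.fst_mul, Prod.snd_mul, Subgroup.coe_mul, h2]
        rw [mul_assoc, mul_assoc, ← mul_assoc (y.1 : H), ← hcom _ y.1.2 x.2, ← mul_assoc (e (1, x.2)).1] }
  have hψ : Function.Bijective ψ := by
    constructor
    · rw [injective_iff_map_eq_one]
      rintro ⟨⟨d, hd⟩, k⟩ hx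
      have h2 : d * (e (1, k)).1 = 1 := hx
      have h3 : d = (e (1, k⁻¹)).1 := by
        have h9 : e (1, k⁻¹) = (e (1, k))⁻¹ := by
          rw [← map_inv]
          simp
        rw [h9, Prod.fst_inv]
        exact eq_inv_of_mul_eq_one_left h2
      have h4 := (hD d).1 hd
      rw [h3, ← he1, MulEquiv.symm_apply_apply] at h4
      have h5 : k = 1 := by simpa using h4
      subst h5
      have h6 : e (1, 1) = 1 := map_one e
      have h7 : d = 1 := by simpa [h6] using h2
      subst h7
      rfl
    · intro h
      obtain ⟨d, hd, k, hk, -⟩ := hdec h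
      exact ⟨(⟨d, hd⟩, k), hk.symm⟩
  let φ : D × K →* G := (MonoidHom.fst G K).comp (e.symm.toMonoidHom.comp
    (D.subtype.prodMap (MonoidHom.id K)))
  have hφ' : ∀ (d : D) (k : K), φ (d, k) = (e.symm ((d : H), k)).1 := fun d k => rfl
  have hφ : Function.Bijective φ := by
    constructor
    · rw [injective_iff_map_eq_one]
      rintro ⟨⟨d, hd⟩, k⟩ hx
      rw [hφ'] at hx
      have h2 : (d, k) = e (1, (e.symm (d, k)).2) := by
        rw [← MulEquiv.symm_apply_eq]
        ext
        · exact hx
        · rfl
      have h3 : k = 1 := by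
        have := congrArg Prod.snd h2
        simpa [h1] using this
      subst h3
      have h4 : (e.symm (d, 1)).2 = 1 := (hD d).1 hd
      rw [h4] at h2
      have h6 : e (1, 1) = 1 := map_one e
      rw [h6] at h2
      have h7 : d = 1 := congrArg Prod.fst h2
      subst h7
      rfl
    · intro g
      obtain ⟨d, hd, k, hk, -⟩ := hdec (e (g, 1)).1
      refine ⟨(⟨d, hd⟩, (e (g, 1)).2), ?_⟩
      rw [hφ']
      have h2 : (d, (e (g, 1)).2) = e (g, 1) * (e (1, k))⁻¹ := by
        ext
        · simp only [Prod.fst_mul, Prod.fst_inv]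
          rw [hk]
          group
        · simp [h1]
      simp only
      rw [h2, map_mul, map_inv, MulEquiv.symm_apply_apply, MulEquiv.symm_apply_apply]
      simp
  exact ⟨(MulEquiv.ofBijective φ hφ).symm.trans (MulEquiv.ofBijective ψ hψ)⟩

/-- CANC. -/
theorem t : S_CANC := by
  rintro G H K _ _ _ hK hI ⟨e⟩
  rcases dich hK hI e with h1 | h1
  · exact caseI e h1
  rcases dich hK hI e.symm with h2 | h2
  · obtain ⟨f⟩ := caseI e.symm h2
    exact ⟨f.symm⟩
  -- both are central
  have key : ∀ {G H : Type} [Group G] [Group H] (e : G × K ≃* H × K),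
      (∀ (k : K) (h : H), (e (1, k)).1 * h = h * (e (1, k)).1) →
      (∀ (k : K) (g : G), (e.symm (1, k)).1 * g = g * (e.symm (1, k)).1) →
      ∀ g : G, (e (g, 1)).2 = 1 := by
    intro G H _ _ e h1 h2 g
    apply hK
    intro k
    -- `k = β (β' k)`
    have h3 : (e ((e.symm (1, k)).1, 1)).2 = 1 := by
      apply hK
      intro x
      -- `e (z, 1)` is central
      have h4 : e ((e.symm (1, k)).1, 1) * (1, x) = (1, x) * e ((e.symm (1, k)).1, 1) := by
        apply e.symm.injective
        rw [map_mul, map_mul, MulEquiv.symm_apply_apply]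
        ext
        · simpa using h2 k _
        · simp
      simpa using congrArg Prod.snd h4
    have h5 : k = (e (1, (e.symm (1, k)).2)).2 := by
      have h6 : e ((e.symm (1, k)).1, 1) * e (1, (e.symm (1, k)).2) = (1, k) := by
        rw [← map_mul]
        simp
      have := congrArg Prod.snd h6
      rw [Prod.snd_mul, h3, one_mul] at this
      exact this.symm
    have h7 : e (g, 1) * e (1, (e.symm (1, k)).2) = e (1, (e.symm (1, k)).2) * e (g, 1) := by
      rw [← map_mul, ← map_mul]
      simp
    have h8 := congrArg Prod.snd h7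
    rw [Prod.snd_mul, Prod.snd_mul, ← h5] at h8
    exact h8
  have k1 := key e h1 h2
  have k2 := key e.symm h2 (by simpa using h1)
  refine ⟨{ toFun := fun g => (e (g, 1)).1, invFun := fun h => (e.symm (h, 1)).1, left_inv := ?_,
            right_inv := ?_, map_mul' := ?_ }⟩
  · intro g
    have : ((e (g, 1)).1, (1 : K)) = e (g, 1) := by
      ext
      · rfl
      · exact (k1 g).symm
    simp [this]
  · intro h
    have : ((e.symm (h, 1)).1, (1 : K)) = e.symm (h, 1) := by
      ext
      · rfl
      · exact (k2 h).symm
    simp [this]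
  · intro x y
    rw [← Prod.fst_mul, ← map_mul]
    simp

end Pool.Agent.Q32.DP.CANC
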