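import Pool.Agent.Q32.DP.Stm
import Pool.Agent.Helper926.RK.RELib

/-!
# NONMATCH (helper58): the complement of the matching relation is recursively enumerable

The certificate consists of two lists of labelled presentations.
-/

set_option autoImplicit false

namespace Pool.Agent.Q32.DP.NONMATCH

open Pool.Agent.Q223.IS Pool.Agent.Q32.DP

section RE

variable {α β γ : Type} [Primcodable α] [Primcodable β] [Primcodable γ]

/-- the value `b` of a partial recursive function -/
theorem re_mem {f : α →. Bool} (hf : Partrec f) (b : Bool) {g : γ → α} (hg : Computable g) :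
    REPred fun x => b ∈ f (g x) := by
  have h1 : Computable fun z : γ × Bool => (if z.2 = b then some () else none : Option Unit) := by
    have h2 : Primrec fun c : Bool => (if c = b then some () else none : Option Unit) :=
      Primrec.dom_finite _
    exact h2.to_comp.comp Computable.snd
  have h3 : Partrec fun x : γ => (f (g x)).bind
      fun c => ((if c = b then some () else none : Option Unit) : Part Unit) :=
    Partrec.bind (hf.comp hg) h1.ofOption.to₂
  refine h3.dom_re.of_eq fun x => ?_
  rw [Part.dom_iff_mem]
  constructor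
  · rintro ⟨y, hy⟩
    rw [Part.mem_bind_iff] at hy
    obtain ⟨c, hc, hc2⟩ := hy
    by_cases hcb : c = b
    · rw [← hcb]; exact hc
    · rw [if_neg hcb] at hc2
      simp at hc2
  · intro hb
    refine ⟨(), ?_⟩
    rw [Part.mem_bind_iff]
    exact ⟨b, hb, by simp⟩

/-- the number of the occurrences of `c` -/
def cnt (l : List ℕ) (c : ℕ) : ℕ := l.foldl (fun s b => if b = c then s + 1 else s) 0

theorem cnt_eq (l : List ℕ) (c : ℕ) : cnt l c = l.count c := by
  have h : ∀ (l : List ℕ) (s : ℕ), l.foldl (fun s b => if b = c then s + 1 else s) s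
      = s + l.count c := by
    intro l
    induction l with
    | nil => intro s; simp
    | cons b l ih =>
      intro s
      rw [List.foldl_cons, ih, List.count_cons]
      by_cases hb : b = c
      · simp [hb]; omega
      · simp [hb]
  unfold cnt
  rw [h, zero_add]

theorem cnt_comp {l : α → List ℕ} {c : α → ℕ} (hl : Computable l) (hc : Computable c) :
    Computable fun a => cnt (l a) (c a) := by
  refine (Pool.Agent.Helper926.RE.list_foldl (f := l) (g := fun _ : α => 0)
    (h := fun a y => if y.2 = c a then y.1 + 1 else y.1) hl (Computable.const 0) ?_).of_eq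
      fun a => rfl
  unfold Computable₂
  refine Pool.Agent.Helper926.RE.cite (p := fun x : α × ℕ × ℕ => x.2.2 = c x.1) ?_ ?_ ?_
  · exact Pool.Agent.Helper926.RE.cp_eq (Computable.snd.comp Computable.snd)
      (hc.comp Computable.fst)
  · exact Computable.succ.comp (Computable.fst.comp Computable.snd)
  · exact Computable.fst.comp Computable.snd

end RE

/-- the certificates -/
def Q (f : Pres × Pres →. Bool) (z : List Pres × List Pres) : Prop :=
  ∃ w : List (Pres × ℕ) × List (Pres × ℕ),
    (w.1.map Prod.fst = z.1 ∧ w.2.map Prod.fst = z.2) ∧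
    (∀ x ∈ w.1 ++ w.2, ∀ y ∈ w.1 ++ w.2,
      (x.2 = y.2 ∧ true ∈ f (x.1, y.1)) ∨ (x.2 ≠ y.2 ∧ false ∈ f (x.1, y.1))) ∧
    ∃ c : ℕ, cnt (w.1.map Prod.snd) c ≠ cnt (w.2.map Prod.snd) c

theorem Q_re {f : Pres × Pres →. Bool} (hf : Partrec f) : REPred (Q f) := by
  unfold Q
  refine Pool.Agent.Helper926.RE.ex (α := List Pres × List Pres)
    (β := List (Pres × ℕ) × List (Pres × ℕ)) (p := fun z w =>
    (w.1.map Prod.fst = z.1 ∧ w.2.map Prod.fst = z.2) ∧
    (∀ x ∈ w.1 ++ w.2, ∀ y ∈ w.1 ++ w.2,
      (x.2 = y.2 ∧ true ∈ f (x.1, y.1)) ∨ (x.2 ≠ y.2 ∧ false ∈ f (x.1, y.1))) ∧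
    ∃ c : ℕ, cnt (w.1.map Prod.snd) c ≠ cnt (w.2.map Prod.snd) c) ?_
  refine Pool.Agent.Helper926.RE.and (Pool.Agent.Helper926.RE.and ?_ ?_)
    (Pool.Agent.Helper926.RE.and ?_ ?_)
  · exact Pool.Agent.Helper926.RE.eq
      (Pool.Agent.Helper926.RE.cmapfst (Computable.fst.comp Computable.snd))
      (Computable.fst.comp Computable.fst)
  · exact Pool.Agent.Helper926.RE.eq
      (Pool.Agent.Helper926.RE.cmapfst (Computable.snd.comp Computable.snd))
      (Computable.snd.comp Computable.fst)
  · refine Pool.Agent.Helper926.RE.all_mem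
      (α := (List Pres × List Pres) × (List (Pres × ℕ) × List (Pres × ℕ)))
      (β := Pres × ℕ) (l := fun a => a.2.1 ++ a.2.2)
      (p := fun a x => ∀ y ∈ a.2.1 ++ a.2.2,
      (x.2 = y.2 ∧ true ∈ f (x.1, y.1)) ∨ (x.2 ≠ y.2 ∧ false ∈ f (x.1, y.1))) ?_ ?_
    · refine Pool.Agent.Helper926.RE.all_mem
        (α := ((List Pres × List Pres) × (List (Pres × ℕ) × List (Pres × ℕ))) × (Pres × ℕ))
        (β := Pres × ℕ) (l := fun a => a.1.2.1 ++ a.1.2.2)
        (p := fun a y =>
        (a.2.2 = y.2 ∧ true ∈ f (a.2.1, y.1)) ∨ (a.2.2 ≠ y.2 ∧ false ∈ f (a.2.1, y.1))) ?_ ?_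
      · have hx : Computable fun b : (((List Pres × List Pres) ×
            (List (Pres × ℕ) × List (Pres × ℕ))) × (Pres × ℕ)) × (Pres × ℕ) => b.1.2 :=
          Computable.snd.comp Computable.fst
        have hy : Computable fun b : (((List Pres × List Pres) ×
            (List (Pres × ℕ) × List (Pres × ℕ))) × (Pres × ℕ)) × (Pres × ℕ) => b.2 :=
          Computable.snd
        refine Pool.Agent.Helper926.RE.or (Pool.Agent.Helper926.RE.and ?_ ?_)
          (Pool.Agent.Helper926.RE.and ?_ ?_)
        · exact Pool.Agent.Helper926.RE.eq (Computable.snd.comp hx) (Computable.snd.comp hy)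
        · exact re_mem hf true ((Computable.fst.comp hx).pair (Computable.fst.comp hy))
        · exact Pool.Agent.Helper926.RE.ne (Computable.snd.comp hx) (Computable.snd.comp hy)
        · exact re_mem hf false ((Computable.fst.comp hx).pair (Computable.fst.comp hy))
      · exact Computable.list_append.comp
          (Computable.fst.comp (Computable.snd.comp Computable.fst))
          (Computable.snd.comp (Computable.snd.comp Computable.fst))
    · exact Computable.list_append.comp (Computable.fst.comp Computable.snd)
        (Computable.snd.comp Computable.snd)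
  · refine Pool.Agent.Helper926.RE.exN
      (α := (List Pres × List Pres) × (List (Pres × ℕ) × List (Pres × ℕ)))
      (p := fun a c => cnt (a.2.1.map Prod.snd) c ≠ cnt (a.2.2.map Prod.snd) c) ?_
    refine Pool.Agent.Helper926.RE.ne (cnt_comp ?_ Computable.snd) (cnt_comp ?_ Computable.snd)
    · exact Pool.Agent.Helper926.RE.cmapsnd
        (Computable.fst.comp (Computable.snd.comp Computable.fst))
    · exact Pool.Agent.Helper926.RE.cmapsnd
        (Computable.snd.comp (Computable.snd.comp Computable.fst))

/-- counting through indices -/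
theorem count_card (l : List ℕ) (c : ℕ) :
    l.count c = Fintype.card {i : Fin l.length // l.get i = c} := by
  have h1 : (l : Multiset ℕ) = (Finset.univ : Finset (Fin l.length)).val.map l.get := by
    rw [Fin.univ_val_map, List.ofFn_get]
  have h2 : Multiset.filter (fun i : Fin l.length => c = l.get i) Finset.univ.val
      = (Finset.univ.filter (fun i : Fin l.length => l.get i = c)).val := by
    rw [Finset.filter_val]
    exact Multiset.filter_congr (fun i _ => eq_comm)
  rw [← Multiset.coe_count, h1, Multiset.count_map, Fintype.card_subtype, h2]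
  rfl

/-- a matching preserves the numbers of the labels -/
theorem count_of_match {a b : List ℕ} (σ : Fin a.length ≃ Fin b.length)
    (h : ∀ i, a.get i = b.get (σ i)) (c : ℕ) : a.count c = b.count c := by
  rw [count_card, count_card]
  refine Fintype.card_congr (σ.subtypeEquiv fun i => ?_)
  rw [h i]

/-- equal numbers of labels give a matching -/
theorem match_of_count {a b : List ℕ} (h : ∀ c, a.count c = b.count c) :
    ∃ σ : Fin a.length ≃ Fin b.length, ∀ i, a.get i = b.get (σ i) := by
  have h1 : ∀ c, Nonempty ({i : Fin a.length // a.get i = c} ≃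
      {i : Fin b.length // b.get i = c}) := by
    intro c
    have := h c
    rw [count_card, count_card] at this
    exact Fintype.card_eq.1 this
  refine ⟨Equiv.ofFiberEquiv (fun c => (h1 c).some), fun i => ?_⟩
  exact (Equiv.ofFiberEquiv_map (fun c => (h1 c).some) i).symm

theorem t : S_NONMATCH := by
  classical
  intro CK f hf hs
  refine ⟨Q f, Q_re hf, ?_⟩
  intro L L' hL hL'
  constructor
  · rintro ⟨⟨A, B⟩, ⟨hA, hB⟩, hW, c, hc⟩ ⟨σ, hσ⟩
    simp only at hA hB hW hc
    subst hA hB
    rw [cnt_eq, cnt_eq] at hc
    apply hc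
    have eA : (A.map Prod.fst).length = (A.map Prod.snd).length := by simp
    have eB : (B.map Prod.fst).length = (B.map Prod.snd).length := by simp
    refine count_of_match (((finCongr eA).symm.trans σ).trans (finCongr eB)) ?_ c
    intro i
    have h1 := hσ (finCongr eA.symm i)
    have hAi : (i : ℕ) < A.length := by have := i.2; simpa using this
    have hBi : ((σ (finCongr eA.symm i) : Fin _) : ℕ) < B.length := by
      have := (σ (finCongr eA.symm i)).2; simpa using this
    have g1 : (A.map Prod.snd).get i = (A[(i : ℕ)]).2 := by simp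
    have g2 : (B.map Prod.snd).get ((((finCongr eA).symm.trans σ).trans (finCongr eB)) i)
        = (B[((σ (finCongr eA.symm i) : Fin _) : ℕ)]).2 := by
      simp
    have g3 : (A.map Prod.fst).get (finCongr eA.symm i) = (A[(i : ℕ)]).1 := by simp
    have g4 : (B.map Prod.fst).get (σ (finCongr eA.symm i))
        = (B[((σ (finCongr eA.symm i) : Fin _) : ℕ)]).1 := by simp
    rw [g3, g4] at h1
    rw [g1, g2]
    have mA : A[(i : ℕ)] ∈ A := List.getElem_mem _
    have mB : B[((σ (finCongr eA.symm i) : Fin _) : ℕ)] ∈ B := List.getElem_mem _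
    have kA := hL _ (List.mem_map_of_mem (f := Prod.fst) mA)
    have kB := hL' _ (List.mem_map_of_mem (f := Prod.fst) mB)
    rcases hW _ (List.mem_append_left _ mA) _ (List.mem_append_right _ mB) with h | h
    · exact h.1
    · exfalso
      have h2 := (hs _ _ kA kB).1 h1
      have h3 := Part.mem_unique h2 h.2
      exact absurd h3 (by decide)
  · intro hno
    let S : Setoid Pres :=
      { r := fun a b => Nonempty (PG a ≃* PG b)
        iseqv := ⟨fun a => ⟨MulEquiv.refl _⟩, fun ⟨e⟩ => ⟨e.symm⟩,
          fun ⟨e⟩ ⟨e'⟩ => ⟨e.trans e'⟩⟩ }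
    let lab : Pres → ℕ := fun p => Encodable.encode (Quotient.out (Quotient.mk S p))
    have hlab : ∀ p q : Pres, lab p = lab q ↔ Nonempty (PG p ≃* PG q) := by
      intro p q
      constructor
      · intro h
        have h1 : Quotient.out (Quotient.mk S p) = Quotient.out (Quotient.mk S q) :=
          Encodable.encode_injective h
        have h2 : Quotient.mk S p = Quotient.mk S q := by
          rw [← Quotient.out_eq (Quotient.mk S p), h1, Quotient.out_eq]
        exact Quotient.exact h2
      · intro h
        have h2 : Quotient.mk S p = Quotient.mk S q := Quotient.sound h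
        simp only [lab, h2]
    refine ⟨(L.map (fun p => (p, lab p)), L'.map (fun p => (p, lab p))), ⟨?_, ?_⟩, ?_, ?_⟩
    · simp [List.map_map, Function.comp_def]
    · simp [List.map_map, Function.comp_def]
    · have key : ∀ x ∈ L.map (fun p => (p, lab p)) ++ L'.map (fun p => (p, lab p)),
          CK x.1 ∧ x.2 = lab x.1 := by
        intro x hx
        rcases List.mem_append.1 hx with h | h
        · obtain ⟨p, hp, rfl⟩ := List.mem_map.1 h
          exact ⟨hL p hp, rfl⟩
        · obtain ⟨p, hp, rfl⟩ := List.mem_map.1 h
          exact ⟨hL' p hp, rfl⟩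
      intro x hx y hy
      obtain ⟨kx, lx⟩ := key x hx
      obtain ⟨ky, ly⟩ := key y hy
      by_cases hxy : x.2 = y.2
      · left
        refine ⟨hxy, (hs _ _ kx ky).1 ((hlab _ _).1 ?_)⟩
        rw [← lx, ← ly, hxy]
      · right
        refine ⟨hxy, (hs _ _ kx ky).2 (fun h => hxy ?_)⟩
        rw [lx, ly]
        exact (hlab _ _).2 h
    · by_contra hcon
      push Not at hcon
      apply hno
      have hcnt : ∀ c, (L.map lab).count c = (L'.map lab).count c := by
        intro c
        have := hcon c
        rw [cnt_eq, cnt_eq, List.map_map, List.map_map] at this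
        exact this
      obtain ⟨σ, hσ⟩ := match_of_count hcnt
      have eL : L.length = (L.map lab).length := by simp
      have eL' : L'.length = (L'.map lab).length := by simp
      refine ⟨((finCongr eL).trans σ).trans (finCongr eL'.symm), fun i => ?_⟩
      rw [← hlab]
      have h1 := hσ (finCongr eL i)
      simpa using h1

end Pool.Agent.Q32.DP.NONMATCH
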