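import Pool.Agent.Q32.DP.Stm3
import Pool.Agent.Q32.DP.NONMATCH
import Pool.Agent.Q32.DP.ALG
import Pool.Agent.Q32.DP.ALGF

set_option autoImplicit false

/-!
# COMPL (helper222): completeness of the rules
-/

namespace Pool.Agent.Q32.DP.COMPL

open Pool.Agent.Q223.IS Pool.Agent.Q32.DP

/-- a single direct factor -/
def oneD (p : Pres) : PG p ≃* FreeAb 0 × PL [p] where
  toFun x := (1, fun i => Fin.cases (motive := fun i : Fin [p].length => PG ([p].get i)) x
    (fun j => j.elim0) i)
  invFun y := y.2 0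
  left_inv x := rfl
  right_inv y := by
    refine Prod.ext ?_ ?_
    · exact Subsingleton.elim _ _
    · funext i
      refine Fin.cases rfl (fun j => j.elim0) i
  map_mul' x y := by
    refine Prod.ext ?_ ?_
    · simp
    · funext i
      refine Fin.cases rfl (fun j => j.elim0) i

/-- the projection of a free product with a single factor -/
def oneG (p : Pres) : FLs 0 [p] →* PG p :=
  Monoid.Coprod.lift (Monoid.CoprodI.lift (fun i : Fin [p].length =>
    Fin.cases (motive := fun i : Fin [p].length => PG ([p].get i) →* PG p) (MonoidHom.id (PG p))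
      (fun j => j.elim0) i)) 1

/-- a single free factor -/
theorem oneF (p : Pres) : Nonempty (PG p ≃* FLs 0 [p]) := by
  let f : PG p →* FLs 0 [p] := Monoid.Coprod.inl.comp
    (Monoid.CoprodI.of (M := fun i : Fin [p].length => PG ([p].get i)) (i := 0))
  refine ⟨MonoidHom.toMulEquiv f (oneG p) ?_ ?_⟩
  · ext x
    simp only [f, oneG, MonoidHom.comp_apply, MonoidHom.id_apply, Monoid.Coprod.lift_apply_inl,
      Monoid.CoprodI.lift_of]
    rfl
  · refine Monoid.Coprod.hom_ext ?_ ?_
    · refine Monoid.CoprodI.ext_hom _ _ (fun i => ?_)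
      refine Fin.cases ?_ (fun j => j.elim0) i
      ext x
      simp only [f, oneG, MonoidHom.comp_apply, MonoidHom.id_apply, Monoid.Coprod.lift_apply_inl,
        Monoid.CoprodI.lift_of]
      rfl
    · refine FreeGroup.ext_hom _ _ (fun i => i.elim0)

/-- lists which do not match have labels -/
theorem labs (K : Pres → Prop) (Der : Fact → Prop)
    (hK : ∀ x y, K x → K y → ¬ Nonempty (PG x ≃* PG y) → Der (2, x, y))
    (L L' : List Pres) (hL : ∀ k ∈ L, K k) (hL' : ∀ k ∈ L', K k)
    (hno : ¬ ∃ σ : Fin L.length ≃ Fin L'.length,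
      ∀ i, Nonempty (PG (L.get i) ≃* PG (L'.get (σ i)))) :
    ∃ l : List Fact, (∀ x ∈ l, Der x) ∧ ∀ l' : List Fact, (∀ x ∈ l, x ∈ l') → Lab l' L L' := by
  classical
  let S : Setoid Pres :=
    { r := fun a b => Nonempty (PG a ≃* PG b)
      iseqv := ⟨fun a => ⟨MulEquiv.refl _⟩, fun ⟨e⟩ => ⟨e.symm⟩,
        fun ⟨e⟩ ⟨e'⟩ => ⟨e.trans e'⟩⟩ }
  let lab : Pres → ℕ := fun p => Encodable.encode (Quotient.out (Quotient.mk S p))
  have hlab : ∀ p q : Pres, lab p = lab q ↔ Nonempty (PG p ≃* PG q) := by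
    intro p q
    constructor
    · intro h
      have h1 : Quotient.out (Quotient.mk S p) = Quotient.out (Quotient.mk S q) :=
        Encodable.encode_injective h
      have h2 : Quotient.mk S p = Quotient.mk S q := by
        rw [← Quotient.out_eq (Quotient.mk S p), h1, Quotient.out_eq]
      exact Quotient.exact h2
    · intro h
      have h2 : Quotient.mk S p = Quotient.mk S q := Quotient.sound h
      simp only [lab, h2]
  let W : List (Pres × Pres) := (L ++ L').product (L ++ L')
  let l : List Fact := (W.filter (fun z => ¬ Nonempty (PG z.1 ≃* PG z.2))).map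
    (fun z => (2, z.1, z.2))
  have hKm : ∀ k ∈ L ++ L', K k := by
    intro k hk
    rcases List.mem_append.1 hk with h | h
    · exact hL k h
    · exact hL' k h
  refine ⟨l, ?_, ?_⟩
  · intro x hx
    obtain ⟨z, hz, rfl⟩ := List.mem_map.1 hx
    obtain ⟨hz1, hz2⟩ := List.mem_filter.1 hz
    have hz3 : ¬ Nonempty (PG z.1 ≃* PG z.2) := of_decide_eq_true hz2
    obtain ⟨z1, z2⟩ := z
    obtain ⟨h1, h2⟩ := List.pair_mem_product.1 hz1
    exact hK _ _ (hKm _ h1) (hKm _ h2) hz3
  · intro l' hl'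
    refine ⟨L.map lab, L'.map lab, by simp, by simp, ?_, ?_⟩
    · intro hp
      apply hno
      have hcnt : ∀ c, (L.map lab).count c = (L'.map lab).count c := fun c => hp.count_eq c
      obtain ⟨σ, hσ⟩ := NONMATCH.match_of_count hcnt
      have eL : L.length = (L.map lab).length := by simp
      have eL' : L'.length = (L'.map lab).length := by simp
      refine ⟨((finCongr eL).trans σ).trans (finCongr eL'.symm), fun i => ?_⟩
      rw [← hlab]
      have h1 := hσ (finCongr eL i)
      simpa using h1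
    · have key : ∀ x ∈ L.zip (L.map lab) ++ L'.zip (L'.map lab),
          x.1 ∈ L ++ L' ∧ x.2 = lab x.1 := by
        have key1 : ∀ (M : List Pres), ∀ x ∈ M.zip (M.map lab), x.1 ∈ M ∧ x.2 = lab x.1 := by
          intro M
          induction M with
          | nil => intro x hx; simp at hx
          | cons k M ih =>
            intro x hx
            rw [List.map_cons, List.zip_cons_cons] at hx
            rcases List.mem_cons.1 hx with h | h
            · subst h
              exact ⟨List.mem_cons_self, rfl⟩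
            · exact ⟨List.mem_cons_of_mem _ (ih x h).1, (ih x h).2⟩
        intro x hx
        rcases List.mem_append.1 hx with h | h
        · exact ⟨List.mem_append_left _ (key1 L x h).1, (key1 L x h).2⟩
        · exact ⟨List.mem_append_right _ (key1 L' x h).1, (key1 L' x h).2⟩
      intro x hx y hy
      obtain ⟨kx, lx⟩ := key x hx
      obtain ⟨ky, ly⟩ := key y hy
      constructor
      · intro h
        rw [← hlab, ← lx, ← ly, h]
      · intro h
        apply hl'
        refine List.mem_map.2 ⟨(x.1, y.1), ?_, rfl⟩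
        refine List.mem_filter.2 ⟨List.pair_mem_product.2 ⟨kx, ky⟩, ?_⟩
        refine decide_eq_true ?_
        intro hi
        apply h
        rw [lx, ly]
        exact (hlab _ _).2 hi

section

variable (C : Pres → Prop) (f : Pres × Pres →. Bool) (Der : Fact → Prop)

/-- Free normal form with members in `DD C n`. -/
def FForm (n : ℕ) (p : Pres) : Prop :=
  ∃ (s : ℕ) (L : List Pres), (∀ k ∈ L, DD C n k) ∧ Nonempty (PG p ≃* FLs s L)

/-- direct forms -/
theorem dstep (hD : ∀ l e, (∀ x ∈ l, Der x) → StepR C f (l, e) → Der e) (n : ℕ)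
    (h1 : ∀ p, FF C n p → Der (1, p, p))
    (h2 : ∀ p q, FF C n p → FF C n q → ¬ Nonempty (PG p ≃* PG q) → Der (2, p, q)) :
    ∀ p q, DForm C n p → DForm C n q → ¬ Nonempty (PG p ≃* PG q) → Der (2, p, q) := by
  rintro p q ⟨m, L, hL, ⟨e⟩⟩ ⟨m', L', hL', ⟨e'⟩⟩ hne
  by_cases hm : m = m'
  · subst hm
    have hno : ¬ ∃ σ : Fin L.length ≃ Fin L'.length,
        ∀ i, Nonempty (PG (L.get i) ≃* PG (L'.get (σ i))) := by
      rintro ⟨σ, hσ⟩
      obtain ⟨j⟩ := ALG.pl_congr σ hσ
      exact hne ⟨e.trans (((MulEquiv.refl _).prodCongr j).trans e'.symm)⟩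
    obtain ⟨l, hl, hlab⟩ := labs (FF C n) Der h2 L L' hL hL' hno
    refine hD (L.map (fun k => (1, k, k)) ++ (L'.map (fun k => (1, k, k)) ++ l)) (2, p, q) ?_ ?_
    · intro x hx
      rcases List.mem_append.1 hx with h | h
      · obtain ⟨k, hk, rfl⟩ := List.mem_map.1 h
        exact h1 k (hL k hk)
      · rcases List.mem_append.1 h with h | h
        · obtain ⟨k, hk, rfl⟩ := List.mem_map.1 h
          exact h1 k (hL' k hk)
        · exact hl x h
    · right
      right
      refine ⟨rfl, Or.inr (Or.inl ⟨m, L, m, L', ?_, ?_, ⟨e⟩, ⟨e'⟩, Or.inr ?_⟩)⟩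
      · intro k hk
        exact List.mem_append_left _ (List.mem_map.2 ⟨k, hk, rfl⟩)
      · intro k hk
        exact List.mem_append_right _ (List.mem_append_left _ (List.mem_map.2 ⟨k, hk, rfl⟩))
      · exact hlab _ (fun x hx => List.mem_append_right _ (List.mem_append_right _ hx))
  · refine hD (L.map (fun k => (1, k, k)) ++ L'.map (fun k => (1, k, k))) (2, p, q) ?_ ?_
    · intro x hx
      rcases List.mem_append.1 hx with h | h
      · obtain ⟨k, hk, rfl⟩ := List.mem_map.1 h
        exact h1 k (hL k hk)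
      · obtain ⟨k, hk, rfl⟩ := List.mem_map.1 h
        exact h1 k (hL' k hk)
    · right
      right
      refine ⟨rfl, Or.inr (Or.inl ⟨m, L, m', L', ?_, ?_, ⟨e⟩, ⟨e'⟩, Or.inl hm⟩)⟩
      · intro k hk
        exact List.mem_append_left _ (List.mem_map.2 ⟨k, hk, rfl⟩)
      · intro k hk
        exact List.mem_append_right _ (List.mem_map.2 ⟨k, hk, rfl⟩)

/-- free forms -/
theorem fstep (hD : ∀ l e, (∀ x ∈ l, Der x) → StepR C f (l, e) → Der e) (n : ℕ)
    (h1 : ∀ p, DD C n p → Der (0, p, p))
    (h2 : ∀ p q, DD C n p → DD C n q → ¬ Nonempty (PG p ≃* PG q) → Der (2, p, q)) :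
    ∀ p q, FForm C n p → FForm C n q → ¬ Nonempty (PG p ≃* PG q) → Der (2, p, q) := by
  rintro p q ⟨m, L, hL, ⟨e⟩⟩ ⟨m', L', hL', ⟨e'⟩⟩ hne
  by_cases hm : m = m'
  · subst hm
    have hno : ¬ ∃ σ : Fin L.length ≃ Fin L'.length,
        ∀ i, Nonempty (PG (L.get i) ≃* PG (L'.get (σ i))) := by
      rintro ⟨σ, hσ⟩
      obtain ⟨j⟩ := ALGF.coprodI_congr (fun i : Fin L.length => PG (L.get i))
        (fun j : Fin L'.length => PG (L'.get j)) σ hσ
      exact hne ⟨e.trans ((MulEquiv.coprodCongr j (MulEquiv.refl _)).trans e'.symm)⟩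
    obtain ⟨l, hl, hlab⟩ := labs (DD C n) Der h2 L L' hL hL' hno
    refine hD (L.map (fun k => (0, k, k)) ++ (L'.map (fun k => (0, k, k)) ++ l)) (2, p, q) ?_ ?_
    · intro x hx
      rcases List.mem_append.1 hx with h | h
      · obtain ⟨k, hk, rfl⟩ := List.mem_map.1 h
        exact h1 k (hL k hk)
      · rcases List.mem_append.1 h with h | h
        · obtain ⟨k, hk, rfl⟩ := List.mem_map.1 h
          exact h1 k (hL' k hk)
        · exact hl x h
    · right
      right
      refine ⟨rfl, Or.inr (Or.inr ⟨m, L, m, L', ?_, ?_, ⟨e⟩, ⟨e'⟩, Or.inr ?_⟩)⟩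
      · intro k hk
        exact List.mem_append_left _ (List.mem_map.2 ⟨k, hk, rfl⟩)
      · intro k hk
        exact List.mem_append_right _ (List.mem_append_left _ (List.mem_map.2 ⟨k, hk, rfl⟩))
      · exact hlab _ (fun x hx => List.mem_append_right _ (List.mem_append_right _ hx))
  · refine hD (L.map (fun k => (0, k, k)) ++ L'.map (fun k => (0, k, k))) (2, p, q) ?_ ?_
    · intro x hx
      rcases List.mem_append.1 hx with h | h
      · obtain ⟨k, hk, rfl⟩ := List.mem_map.1 h
        exact h1 k (hL k hk)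
      · obtain ⟨k, hk, rfl⟩ := List.mem_map.1 h
        exact h1 k (hL' k hk)
    · right
      right
      refine ⟨rfl, Or.inr (Or.inr ⟨m, L, m', L', ?_, ?_, ⟨e⟩, ⟨e'⟩, Or.inl hm⟩)⟩
      · intro k hk
        exact List.mem_append_left _ (List.mem_map.2 ⟨k, hk, rfl⟩)
      · intro k hk
        exact List.mem_append_right _ (List.mem_map.2 ⟨k, hk, rfl⟩)

theorem c_dd (n : ℕ) {p : Pres} (h : C p) : DD C n p := by
  cases n with
  | zero => rw [DD]; exact h
  | succ n => rw [DD]; exact Or.inl h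

theorem c_ff (n : ℕ) {p : Pres} (h : C p) : FF C n p := by
  cases n with
  | zero => rw [FF]; exact h
  | succ n => rw [FF]; exact Or.inl h

theorem all (hf : ∀ a b, C a → C b → (Nonempty (PG a ≃* PG b) → true ∈ f (a, b)) ∧
    (¬ Nonempty (PG a ≃* PG b) → false ∈ f (a, b)))
    (hD : ∀ l e, (∀ x ∈ l, Der x) → StepR C f (l, e) → Der e) (n : ℕ) :
    (∀ p, DD C n p → Der (0, p, p)) ∧ (∀ p, FF C n p → Der (1, p, p)) ∧
    (∀ p q, DD C n p → DD C n q → ¬ Nonempty (PG p ≃* PG q) → Der (2, p, q)) ∧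
    (∀ p q, FF C n p → FF C n q → ¬ Nonempty (PG p ≃* PG q) → Der (2, p, q)) := by
  have c0 : ∀ p, C p → Der (0, p, p) := fun p hp =>
    hD [] (0, p, p) (by simp) (Or.inl ⟨rfl, rfl, Or.inl hp⟩)
  have c1 : ∀ p, C p → Der (1, p, p) := fun p hp =>
    hD [] (1, p, p) (by simp) (Or.inr (Or.inl ⟨rfl, rfl, Or.inl hp⟩))
  have c2 : ∀ p q, C p → C q → ¬ Nonempty (PG p ≃* PG q) → Der (2, p, q) := fun p q hp hq h =>
    hD [] (2, p, q) (by simp) (Or.inr (Or.inr ⟨rfl, Or.inl ⟨hp, hq, (hf p q hp hq).2 h⟩⟩))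
  induction n with
  | zero =>
    refine ⟨?_, ?_, ?_, ?_⟩
    · intro p hp
      rw [DD] at hp
      exact c0 p hp
    · intro p hp
      rw [FF] at hp
      exact c1 p hp
    · intro p q hp hq
      rw [DD] at hp hq
      exact c2 p q hp hq
    · intro p q hp hq
      rw [FF] at hp hq
      exact c2 p q hp hq
  | succ n ih =>
    obtain ⟨a0, a1, b0, b1⟩ := ih
    have toD : ∀ p, DD C (n + 1) p → DForm C n p := by
      intro p hp
      rw [DD] at hp
      rcases hp with hp | ⟨m, L, hL, -, he⟩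
      · refine ⟨0, [p], ?_, ⟨oneD p⟩⟩
        intro k hk
        rw [List.mem_singleton.1 hk]
        exact c_ff C n hp
      · exact ⟨m, L, hL, he⟩
    have toF : ∀ p, FF C (n + 1) p → FForm C n p := by
      intro p hp
      rw [FF] at hp
      rcases hp with hp | ⟨m, L, hL, -, he⟩
      · refine ⟨0, [p], ?_, oneF p⟩
        intro k hk
        rw [List.mem_singleton.1 hk]
        exact c_dd C n hp
      · exact ⟨m, L, hL, he⟩
    refine ⟨?_, ?_, ?_, ?_⟩
    · intro p hp
      rw [DD] at hp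
      rcases hp with hp | ⟨m, L, hL, h2, he⟩
      · exact c0 p hp
      · refine hD (L.map (fun k => (1, k, k))) (0, p, p) ?_ ?_
        · intro x hx
          obtain ⟨k, hk, rfl⟩ := List.mem_map.1 hx
          exact a1 k (hL k hk)
        · exact Or.inl ⟨rfl, rfl, Or.inr ⟨m, L, h2,
            fun k hk => List.mem_map.2 ⟨k, hk, rfl⟩, he⟩⟩
    · intro p hp
      rw [FF] at hp
      rcases hp with hp | ⟨m, L, hL, h2, he⟩
      · exact c1 p hp
      · refine hD (L.map (fun k => (0, k, k))) (1, p, p) ?_ ?_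
        · intro x hx
          obtain ⟨k, hk, rfl⟩ := List.mem_map.1 hx
          exact a0 k (hL k hk)
        · exact Or.inr (Or.inl ⟨rfl, rfl, Or.inr ⟨m, L, h2,
            fun k hk => List.mem_map.2 ⟨k, hk, rfl⟩, he⟩⟩)
    · intro p q hp hq hne
      exact dstep C f Der hD n a1 b1 p q (toD p hp) (toD q hq) hne
    · intro p q hp hq hne
      exact fstep C f Der hD n a0 b0 p q (toF p hp) (toF q hq) hne

end

theorem t : S_COMPL := by
  intro C f hf Der hD n p q hp hq hne
  obtain ⟨a0, a1, b0, b1⟩ := all C f Der hf hD n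
  exact dstep C f Der hD n a1 b1 p q hp hq hne

end Pool.Agent.Q32.DP.COMPL
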