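import Pool.Agent.Q32.DP.Stm2

set_option autoImplicit false

/-! Project DP (helper32), job DIR: nontrivial direct products of torsion-free groups are
torsion-free, freely indecomposable and not cyclic. -/

namespace Pool.Agent.Q32.DP.DIR

open Pool.Agent.Q223.IS Pool.Agent.Q32.DP

theorem eq_one_of_zpow {G : Type} [Group G] (hG : TFree G) {g : G} {n : ℤ} (hn : n ≠ 0)
    (h : g ^ n = 1) : g = 1 := by
  by_contra hg
  exact hG g hg n.natAbs (Int.natAbs_ne_zero.2 hn) (pow_natAbs_eq_one.2 h)

theorem tfree_prod {A B : Type} [Group A] [Group B] (hA : TFree A) (hB : TFree B) :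
    TFree (A × B) := by
  intro g hg n hn h
  apply hg
  have h1 : g.1 ^ n = 1 := by
    have := congrArg Prod.fst h
    simpa using this
  have h2 : g.2 ^ n = 1 := by
    have := congrArg Prod.snd h
    simpa using this
  have h3 : g.1 = 1 := by
    by_contra h4
    exact hA _ h4 n hn h1
  have h4 : g.2 = 1 := by
    by_contra h5
    exact hB _ h5 n hn h2
  exact Prod.ext h3 h4

theorem tfree_of_inj {G H : Type} [Group G] [Group H] (hH : TFree H) (f : G →* H)
    (hf : Function.Injective f) : TFree G := by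
  intro g hg n hn h
  refine hH (f g) (fun h1 => hg (hf (h1.trans (map_one f).symm))) n hn ?_
  rw [← map_pow, h, map_one]

/-- DIR: nontrivial direct products of torsion-free groups. -/
theorem t (h : S_FREE) : S_DIR := by
  intro A B _ _ hA hB ⟨a, ha⟩ ⟨b, hb⟩
  have hT : TFree (A × B) := tfree_prod hA hB
  refine ⟨hT, ⟨⟨(a, 1), fun h1 => ha (congrArg Prod.fst h1)⟩, ?_⟩, ?_⟩
  · intro C D _ _ ⟨e⟩
    by_contra hcon
    rw [not_or] at hcon
    obtain ⟨h1, h2⟩ := hcon
    push Not at h1 h2
    have hC : TFree C := tfree_of_inj hT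
      (e.symm.toMonoidHom.comp (Monoid.Coprod.inl : C →* Monoid.Coprod C D))
      (e.symm.injective.comp Monoid.Coprod.inl_injective)
    have hD : TFree D := tfree_of_inj hT
      (e.symm.toMonoidHom.comp (Monoid.Coprod.inr : D →* Monoid.Coprod C D))
      (e.symm.injective.comp Monoid.Coprod.inr_injective)
    obtain ⟨_, _, ⟨_, h3⟩, _⟩ := h C D hC hD h1 h2
    rcases h3 A B ⟨e.symm⟩ with h4 | h4
    · exact ha (h4 a)
    · exact hb (h4 b)
  · rintro ⟨g, hg⟩
    obtain ⟨n, hn⟩ := hg (a, 1)
    obtain ⟨m, hm⟩ := hg (1, b)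
    have h1 : a = g.1 ^ n := by
      have := congrArg Prod.fst hn
      simpa using this
    have h2 : g.2 ^ n = 1 := by
      have := congrArg Prod.snd hn
      simpa using this.symm
    have h3 : b = g.2 ^ m := by
      have := congrArg Prod.snd hm
      simpa using this
    have hn0 : n ≠ 0 := by
      rintro rfl
      exact ha (by rw [h1, zpow_zero])
    have h4 : g.2 = 1 := eq_one_of_zpow hB hn0 h2
    exact hb (by rw [h3, h4, one_zpow])

end Pool.Agent.Q32.DP.DIR
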