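import Pool.Agent.Q32.DP.Stm

set_option autoImplicit false

/-!
# The presentation of the direct product of two presentations
-/

namespace Pool.Agent.Q32.DP.PROD2

open Pool.Agent.Q223.IS

/-- Change of the indices of the letters. -/
def mp (σ : ℕ → ℕ) (w : Wd) : Wd := w.map (fun q => (σ q.1, q.2))

/-- The new indices of the generators of the first presentation. -/
def sa (n m i : ℕ) : ℕ := if i < n then i else n + m + i

/-- The presentation of the direct product. -/
def P2 (a b : Pres) : Pres :=
  (a.1 + b.1, a.2.map (mp (sa a.1 b.1)) ++ (b.2.map (mp (fun j => a.1 + j)) ++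
    (List.range a.1).flatMap (fun i => (List.range b.1).map
      (fun j => cmw [(i, true)] [(a.1 + j, true)]))))

theorem ev_mp {M : Type} [Group M] (x : ℕ → M) (σ : ℕ → ℕ) (w : Wd) :
    ev x (mp σ w) = ev (fun i => x (σ i)) w := by
  induction w with
  | nil => rfl
  | cons q w ih =>
    have h : mp σ (q :: w) = (σ q.1, q.2) :: mp σ w := rfl
    have h2 : ev x [(σ q.1, q.2)] = ev (fun i => x (σ i)) [q] := by
      obtain ⟨i, b⟩ := q
      cases b
      · show ev x [(σ i, false)] = _
        rw [ev_false, ev_false]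
      · show ev x [(σ i, true)] = _
        rw [ev_true, ev_true]
    rw [h, ev_cons, ev_cons _ q w, ih, h2]

theorem ev_comm {M : Type} [Group M] {x : ℕ → M} {z : M} (h : ∀ i, Commute (x i) z) (w : Wd) :
    Commute (ev x w) z := by
  induction w with
  | nil =>
    rw [ev_nil]
    exact Commute.one_left z
  | cons q w ih =>
    rw [ev_cons]
    refine Commute.mul_left ?_ ih
    obtain ⟨i, b⟩ := q
    cases b
    · rw [ev_false]
      exact (h i).inv_left
    · rw [ev_true]
      exact h i

theorem iso (a b : Pres) : Nonempty (PG (P2 a b) ≃* PG a × PG b) := by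
  set c : Pres := P2 a b with hc
  have hc1 : c.1 = a.1 + b.1 := rfl
  have hra : ∀ w ∈ a.2, mp (sa a.1 b.1) w ∈ c.2 := by
    intro w hw
    exact List.mem_append_left _ (List.mem_map_of_mem hw)
  have hrb : ∀ w ∈ b.2, mp (fun j => a.1 + j) w ∈ c.2 := by
    intro w hw
    exact List.mem_append_right _ (List.mem_append_left _ (List.mem_map_of_mem hw))
  have hrc : ∀ i < a.1, ∀ j < b.1, cmw [(i, true)] [(a.1 + j, true)] ∈ c.2 := by
    intro i hi j hj
    refine List.mem_append_right _ (List.mem_append_right _ ?_)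
    exact List.mem_flatMap.2 ⟨i, List.mem_range.2 hi, List.mem_map.2 ⟨j, List.mem_range.2 hj, rfl⟩⟩
  have hcm : ∀ w ∈ c.2, (∃ u ∈ a.2, w = mp (sa a.1 b.1) u) ∨ (∃ u ∈ b.2, w = mp (fun j => a.1 + j) u) ∨
      ∃ i < a.1, ∃ j < b.1, w = cmw [(i, true)] [(a.1 + j, true)] := by
    intro w hw
    rcases List.mem_append.1 hw with hw | hw
    · obtain ⟨u, hu, rfl⟩ := List.mem_map.1 hw
      exact Or.inl ⟨u, hu, rfl⟩
    rcases List.mem_append.1 hw with hw | hw
    · obtain ⟨u, hu, rfl⟩ := List.mem_map.1 hw
      exact Or.inr (Or.inl ⟨u, hu, rfl⟩)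
    · obtain ⟨i, hi, hw⟩ := List.mem_flatMap.1 hw
      obtain ⟨j, hj, rfl⟩ := List.mem_map.1 hw
      exact Or.inr (Or.inr ⟨i, List.mem_range.1 hi, j, List.mem_range.1 hj, rfl⟩)
  -- the homomorphism to the product
  let x : ℕ → PG a × PG b := fun k => if k < a.1 then (gen a k, 1) else (1, gen b (k - a.1))
  have hxa : ∀ i, x (sa a.1 b.1 i) = MonoidHom.inl (PG a) (PG b) (gen a i) := by
    intro i
    by_cases hi : i < a.1
    · have e : sa a.1 b.1 i = i := if_pos hi
      rw [e]
      exact if_pos hi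
    · have e : sa a.1 b.1 i = a.1 + b.1 + i := if_neg hi
      rw [e]
      have e2 : x (a.1 + b.1 + i) = (1, gen b (a.1 + b.1 + i - a.1)) := if_neg (by omega)
      rw [e2, gen_big b (by omega), gen_big a (by omega), map_one]
      rfl
  have hxb : ∀ j, x (a.1 + j) = MonoidHom.inr (PG a) (PG b) (gen b j) := by
    intro j
    have e2 : x (a.1 + j) = (1, gen b (a.1 + j - a.1)) := if_neg (by omega)
    rw [e2, Nat.add_sub_cancel_left]
    rfl
  obtain ⟨F, hF⟩ := PG_lift c x (by
    intro i hi
    have e : i = a.1 + (i - a.1) := by omega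
    rw [e, hxb, gen_big b (by omega), map_one]) (by
    intro w hw
    rcases hcm w hw with ⟨u, hu, rfl⟩ | ⟨u, hu, rfl⟩ | ⟨i, hi, j, hj, rfl⟩
    · rw [ev_mp]
      have e : (fun i => x (sa a.1 b.1 i)) = fun i => MonoidHom.inl (PG a) (PG b) (gen a i) :=
        funext hxa
      rw [e, ← ev_map, PG_rel a hu, map_one]
    · rw [ev_mp]
      have e : (fun i => x (a.1 + i)) = fun i => MonoidHom.inr (PG a) (PG b) (gen b i) :=
        funext hxb
      rw [e, ← ev_map, PG_rel b hu, map_one]
    · rw [ev_cmw, ev_true, ev_true, hxb]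
      have e : x i = (gen a i, 1) := if_pos hi
      rw [e]
      show ((gen a i, 1) : PG a × PG b) * (1, gen b j) = (1, gen b j) * (gen a i, 1)
      simp)
  -- the homomorphisms from the factors
  obtain ⟨G, hG⟩ := PG_lift a (fun i => gen c (sa a.1 b.1 i)) (by
    intro i hi
    have e : sa a.1 b.1 i = a.1 + b.1 + i := if_neg (by omega)
    show gen c (sa a.1 b.1 i) = 1
    rw [e]
    exact gen_big c (by omega)) (by
    intro w hw
    rw [← ev_mp]
    exact PG_rel c (hra w hw))
  obtain ⟨H, hH⟩ := PG_lift b (fun j => gen c (a.1 + j)) (by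
    intro j hj
    exact gen_big c (by omega)) (by
    intro w hw
    rw [← ev_mp (gen c) (fun j => a.1 + j)]
    exact PG_rel c (hrb w hw))
  have hgg : ∀ i j, Commute (G (gen a i)) (H (gen b j)) := by
    intro i j
    rw [hG, hH]
    show Commute (gen c (sa a.1 b.1 i)) (gen c (a.1 + j))
    by_cases hi : i < a.1
    · by_cases hj : j < b.1
      · have e : sa a.1 b.1 i = i := if_pos hi
        rw [e]
        have h1 := PG_rel c (hrc i hi j hj)
        rw [ev_cmw, ev_true, ev_true] at h1
        exact h1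
      · have e : gen c (a.1 + j) = 1 := gen_big c (by omega)
        rw [e]
        exact Commute.one_right _
    · have e : gen c (sa a.1 b.1 i) = 1 := by
        have e : sa a.1 b.1 i = a.1 + b.1 + i := if_neg hi
        rw [e]
        exact gen_big c (by omega)
      rw [e]
      exact Commute.one_left _
  have hcomm : ∀ u v, Commute (G u) (H v) := by
    intro u v
    obtain ⟨w, rfl⟩ := gen_word a u
    obtain ⟨w', rfl⟩ := gen_word b v
    rw [ev_map, ev_map]
    refine ev_comm (fun i => ?_) w
    exact (ev_comm (fun j => (hgg i j).symm) w').symm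
  let K : PG a × PG b →* PG c := MonoidHom.noncommCoprod G H hcomm
  have hK : ∀ u v, K (u, v) = G u * H v := fun u v => rfl
  have hFG : F.comp G = MonoidHom.inl (PG a) (PG b) := by
    apply PG_ext
    intro i
    show F (G (gen a i)) = _
    rw [hG]
    show F (gen c (sa a.1 b.1 i)) = _
    rw [hF, hxa]
  have hFH : F.comp H = MonoidHom.inr (PG a) (PG b) := by
    apply PG_ext
    intro i
    show F (H (gen b i)) = _
    rw [hH]
    show F (gen c (a.1 + i)) = _
    rw [hF, hxb]
  refine ⟨MonoidHom.toMulEquiv F K ?_ ?_⟩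
  · apply PG_ext
    intro k
    show K (F (gen c k)) = gen c k
    rw [hF]
    by_cases hk : k < a.1
    · have e : x k = (gen a k, 1) := if_pos hk
      rw [e, hK, map_one, mul_one, hG]
      show gen c (sa a.1 b.1 k) = gen c k
      have e2 : sa a.1 b.1 k = k := if_pos hk
      rw [e2]
    · have e : x k = (1, gen b (k - a.1)) := if_neg hk
      rw [e, hK, map_one, one_mul, hH]
      show gen c (a.1 + (k - a.1)) = gen c k
      congr 1
      omega
  · apply MonoidHom.ext
    rintro ⟨u, v⟩
    show F (K (u, v)) = (u, v)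
    rw [hK, map_mul]
    have e1 : F (G u) = (u, 1) := DFunLike.congr_fun hFG u
    have e2 : F (H v) = (1, v) := DFunLike.congr_fun hFH v
    rw [e1, e2]
    simp

theorem mp_pr {α : Type} [Primcodable α] {σ : α → ℕ → ℕ} {w : α → Wd} (hσ : Primrec₂ σ)
    (hw : Primrec w) : Primrec fun x => mp (σ x) (w x) := by
  unfold mp
  refine Primrec.list_map hw ?_
  exact (Primrec.pair (hσ.comp Primrec.fst (Primrec.fst.comp Primrec.snd))
    (Primrec.snd.comp Primrec.snd)).to₂

theorem P2_pr : Primrec₂ P2 := by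
  show Primrec fun p : Pres × Pres => P2 p.1 p.2
  unfold P2
  have hn : Primrec fun p : Pres × Pres => p.1.1 := Primrec.fst.comp Primrec.fst
  have hm : Primrec fun p : Pres × Pres => p.2.1 := Primrec.fst.comp Primrec.snd
  refine Primrec.pair (Primrec.nat_add.comp hn hm) ?_
  refine Primrec.list_append.comp ?_ (Primrec.list_append.comp ?_ ?_)
  · refine Primrec.list_map (Primrec.snd.comp Primrec.fst) ?_
    show Primrec fun x : (Pres × Pres) × Wd => mp (sa x.1.1.1 x.1.2.1) x.2
    refine mp_pr (σ := fun (x : (Pres × Pres) × Wd) => sa x.1.1.1 x.1.2.1) ?_ Primrec.snd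
    show Primrec fun y : ((Pres × Pres) × Wd) × ℕ => sa y.1.1.1.1 y.1.1.2.1 y.2
    unfold sa
    have hn' : Primrec fun y : ((Pres × Pres) × Wd) × ℕ => y.1.1.1.1 :=
      hn.comp (Primrec.fst.comp Primrec.fst)
    have hm' : Primrec fun y : ((Pres × Pres) × Wd) × ℕ => y.1.1.2.1 :=
      hm.comp (Primrec.fst.comp Primrec.fst)
    exact Primrec.ite (Primrec.nat_lt.comp Primrec.snd hn') Primrec.snd
      (Primrec.nat_add.comp (Primrec.nat_add.comp hn' hm') Primrec.snd)
  · refine Primrec.list_map (Primrec.snd.comp Primrec.snd) ?_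
    show Primrec fun x : (Pres × Pres) × Wd => mp (fun j => x.1.1.1 + j) x.2
    refine mp_pr (σ := fun (x : (Pres × Pres) × Wd) j => x.1.1.1 + j) ?_ Primrec.snd
    show Primrec fun y : ((Pres × Pres) × Wd) × ℕ => y.1.1.1.1 + y.2
    exact Primrec.nat_add.comp (hn.comp (Primrec.fst.comp Primrec.fst)) Primrec.snd
  · refine Primrec.list_flatMap (Primrec.list_range.comp hn) ?_
    show Primrec fun x : (Pres × Pres) × ℕ => (List.range x.1.2.1).map
      (fun j => cmw [(x.2, true)] [(x.1.1.1 + j, true)])
    refine Primrec.list_map (Primrec.list_range.comp (hm.comp Primrec.fst)) ?_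
    show Primrec fun y : ((Pres × Pres) × ℕ) × ℕ => cmw [(y.1.2, true)] [(y.1.1.1.1 + y.2, true)]
    exact cmw_pr (lt_pr (Primrec.snd.comp Primrec.fst))
      (lt_pr (Primrec.nat_add.comp (hn.comp (Primrec.fst.comp Primrec.fst)) Primrec.snd))

/-- The presentation of the direct product of two presentations. -/
theorem t : S_PROD2 := ⟨P2, P2_pr, iso⟩

end Pool.Agent.Q32.DP.PROD2
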