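import Pool.Agent.Q32.DP.Stm2
import Pool.Agent.Q32.DP.PROD2

set_option autoImplicit false

/-!
# DP-FPROD: presentations of free products, primitive recursive (helper182)
-/

namespace Pool.Agent.Q32.DP.FPROD

open Pool.Agent.Q223.IS Pool.Agent.Q32.DP.PROD2 Monoid

/-- The presentation of the free product. -/
def Q2 (a b : Pres) : Pres :=
  (a.1 + b.1, a.2.map (mp (sa a.1 b.1)) ++ b.2.map (mp (fun j => a.1 + j)))

theorem iso (a b : Pres) : Nonempty (PG (Q2 a b) ≃* Coprod (PG a) (PG b)) := by
  set c : Pres := Q2 a b with hc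
  have hc1 : c.1 = a.1 + b.1 := rfl
  have hra : ∀ w ∈ a.2, mp (sa a.1 b.1) w ∈ c.2 := by
    intro w hw
    exact List.mem_append_left _ (List.mem_map_of_mem hw)
  have hrb : ∀ w ∈ b.2, mp (fun j => a.1 + j) w ∈ c.2 := by
    intro w hw
    exact List.mem_append_right _ (List.mem_map_of_mem hw)
  have hcm : ∀ w ∈ c.2, (∃ u ∈ a.2, w = mp (sa a.1 b.1) u) ∨
      (∃ u ∈ b.2, w = mp (fun j => a.1 + j) u) := by
    intro w hw
    rcases List.mem_append.1 hw with hw | hw
    · obtain ⟨u, hu, rfl⟩ := List.mem_map.1 hw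
      exact Or.inl ⟨u, hu, rfl⟩
    · obtain ⟨u, hu, rfl⟩ := List.mem_map.1 hw
      exact Or.inr ⟨u, hu, rfl⟩
  -- the homomorphism to the free product
  let il : PG a →* Coprod (PG a) (PG b) := Coprod.inl
  let ir : PG b →* Coprod (PG a) (PG b) := Coprod.inr
  let x : ℕ → Coprod (PG a) (PG b) := fun k =>
    if k < a.1 then il (gen a k) else ir (gen b (k - a.1))
  have hxa : ∀ i, x (sa a.1 b.1 i) = il (gen a i) := by
    intro i
    by_cases hi : i < a.1
    · have e : sa a.1 b.1 i = i := if_pos hi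
      rw [e]
      exact if_pos hi
    · have e : sa a.1 b.1 i = a.1 + b.1 + i := if_neg hi
      rw [e]
      have e2 : x (a.1 + b.1 + i) = ir (gen b (a.1 + b.1 + i - a.1)) := if_neg (by omega)
      rw [e2, gen_big b (by omega), gen_big a (by omega), map_one, map_one]
  have hxb : ∀ j, x (a.1 + j) = ir (gen b j) := by
    intro j
    have e2 : x (a.1 + j) = ir (gen b (a.1 + j - a.1)) := if_neg (by omega)
    rw [e2, Nat.add_sub_cancel_left]
  obtain ⟨F, hF⟩ := PG_lift c x (by
    intro i hi
    have e : i = a.1 + (i - a.1) := by omega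
    rw [e, hxb, gen_big b (by omega), map_one]) (by
    intro w hw
    rcases hcm w hw with ⟨u, hu, rfl⟩ | ⟨u, hu, rfl⟩
    · rw [ev_mp]
      have e : (fun i => x (sa a.1 b.1 i)) = fun i => il (gen a i) := funext hxa
      rw [e, ← ev_map, PG_rel a hu, map_one]
    · rw [ev_mp]
      have e : (fun i => x (a.1 + i)) = fun i => ir (gen b i) := funext hxb
      rw [e, ← ev_map, PG_rel b hu, map_one])
  -- the homomorphisms from the factors
  obtain ⟨G, hG⟩ := PG_lift a (fun i => gen c (sa a.1 b.1 i)) (by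
    intro i hi
    have e : sa a.1 b.1 i = a.1 + b.1 + i := if_neg (by omega)
    show gen c (sa a.1 b.1 i) = 1
    rw [e]
    exact gen_big c (by omega)) (by
    intro w hw
    rw [← ev_mp]
    exact PG_rel c (hra w hw))
  obtain ⟨H, hH⟩ := PG_lift b (fun j => gen c (a.1 + j)) (by
    intro j hj
    exact gen_big c (by omega)) (by
    intro w hw
    rw [← ev_mp (gen c) (fun j => a.1 + j)]
    exact PG_rel c (hrb w hw))
  let K : Coprod (PG a) (PG b) →* PG c := Coprod.lift G H
  have hKl : ∀ u, K (il u) = G u := fun u => Coprod.lift_apply_inl G H u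
  have hKr : ∀ u, K (ir u) = H u := fun u => Coprod.lift_apply_inr G H u
  refine ⟨MonoidHom.toMulEquiv F K ?_ ?_⟩
  · apply PG_ext
    intro k
    show K (F (gen c k)) = gen c k
    rw [hF]
    by_cases hk : k < a.1
    · have e : x k = il (gen a k) := if_pos hk
      rw [e, hKl, hG]
      show gen c (sa a.1 b.1 k) = gen c k
      have e2 : sa a.1 b.1 k = k := if_pos hk
      rw [e2]
    · have e : x k = ir (gen b (k - a.1)) := if_neg hk
      rw [e, hKr, hH]
      show gen c (a.1 + (k - a.1)) = gen c k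
      congr 1
      omega
  · apply Coprod.hom_ext
    · apply PG_ext
      intro i
      show F (K (il (gen a i))) = il (gen a i)
      rw [hKl, hG]
      show F (gen c (sa a.1 b.1 i)) = _
      rw [hF, hxa]
    · apply PG_ext
      intro i
      show F (K (ir (gen b i))) = ir (gen b i)
      rw [hKr, hH]
      show F (gen c (a.1 + i)) = _
      rw [hF, hxb]

theorem Q2_pr : Primrec₂ Q2 := by
  show Primrec fun p : Pres × Pres => Q2 p.1 p.2
  unfold Q2
  have hn : Primrec fun p : Pres × Pres => p.1.1 := Primrec.fst.comp Primrec.fst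
  have hm : Primrec fun p : Pres × Pres => p.2.1 := Primrec.fst.comp Primrec.snd
  refine Primrec.pair (Primrec.nat_add.comp hn hm) ?_
  refine Primrec.list_append.comp ?_ ?_
  · refine Primrec.list_map (Primrec.snd.comp Primrec.fst) ?_
    show Primrec fun x : (Pres × Pres) × Wd => mp (sa x.1.1.1 x.1.2.1) x.2
    refine mp_pr (σ := fun (x : (Pres × Pres) × Wd) => sa x.1.1.1 x.1.2.1) ?_ Primrec.snd
    show Primrec fun y : ((Pres × Pres) × Wd) × ℕ => sa y.1.1.1.1 y.1.1.2.1 y.2
    unfold sa
    have hn' : Primrec fun y : ((Pres × Pres) × Wd) × ℕ => y.1.1.1.1 :=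
      hn.comp (Primrec.fst.comp Primrec.fst)
    have hm' : Primrec fun y : ((Pres × Pres) × Wd) × ℕ => y.1.1.2.1 :=
      hm.comp (Primrec.fst.comp Primrec.fst)
    exact Primrec.ite (Primrec.nat_lt.comp Primrec.snd hn') Primrec.snd
      (Primrec.nat_add.comp (Primrec.nat_add.comp hn' hm') Primrec.snd)
  · refine Primrec.list_map (Primrec.snd.comp Primrec.snd) ?_
    show Primrec fun x : (Pres × Pres) × Wd => mp (fun j => x.1.1.1 + j) x.2
    refine mp_pr (σ := fun (x : (Pres × Pres) × Wd) j => x.1.1.1 + j) ?_ Primrec.snd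
    show Primrec fun y : ((Pres × Pres) × Wd) × ℕ => y.1.1.1.1 + y.2
    exact Primrec.nat_add.comp (hn.comp (Primrec.fst.comp Primrec.fst)) Primrec.snd

/-- splitting off the first factor of a free product -/
theorem consI {n : ℕ} (M : Fin (n + 1) → Type) [∀ i, Group (M i)] :
    Nonempty (Coprod (M 0) (CoprodI fun j : Fin n => M j.succ) ≃* CoprodI M) := by
  let F1 : M 0 →* CoprodI M := CoprodI.of
  let F2 : (CoprodI fun j : Fin n => M j.succ) →* CoprodI M :=
    CoprodI.lift fun j => (CoprodI.of : M j.succ →* CoprodI M)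
  let G' : ∀ i : Fin (n + 1), M i →* Coprod (M 0) (CoprodI fun j : Fin n => M j.succ) :=
    fun i => Fin.cases (motive := fun i => M i →* Coprod (M 0) (CoprodI fun j : Fin n => M j.succ))
      Coprod.inl (fun j => Coprod.inr.comp (CoprodI.of (M := fun j : Fin n => M j.succ) (i := j))) i
  let F : Coprod (M 0) (CoprodI fun j : Fin n => M j.succ) →* CoprodI M := Coprod.lift F1 F2
  let G : CoprodI M →* Coprod (M 0) (CoprodI fun j : Fin n => M j.succ) := CoprodI.lift G'
  have hG0 : ∀ x : M 0, G (CoprodI.of x) = Coprod.inl x := fun x => CoprodI.lift_of G' x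
  have hGs : ∀ (j : Fin n) (x : M j.succ), G (CoprodI.of x) =
      Coprod.inr (CoprodI.of (M := fun j : Fin n => M j.succ) (i := j) x) :=
    fun j x => CoprodI.lift_of G' x
  have hFl : ∀ x, F (Coprod.inl x) = CoprodI.of x := fun x => Coprod.lift_apply_inl F1 F2 x
  have hFr : ∀ x, F (Coprod.inr x) = F2 x := fun x => Coprod.lift_apply_inr F1 F2 x
  have hF2 : ∀ (j : Fin n) (x : M j.succ),
      F2 (CoprodI.of (M := fun j : Fin n => M j.succ) (i := j) x) = CoprodI.of x :=
    fun j x => CoprodI.lift_of (M := fun j : Fin n => M j.succ)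
      (fun j => (CoprodI.of : M j.succ →* CoprodI M)) x
  refine ⟨MonoidHom.toMulEquiv F G ?_ ?_⟩
  · apply Coprod.hom_ext
    · apply MonoidHom.ext
      intro x
      show G (F (Coprod.inl x)) = Coprod.inl x
      rw [hFl, hG0]
    · apply CoprodI.ext_hom
      intro j
      apply MonoidHom.ext
      intro x
      show G (F (Coprod.inr (CoprodI.of (M := fun j : Fin n => M j.succ) (i := j) x))) =
        Coprod.inr (CoprodI.of (M := fun j : Fin n => M j.succ) (i := j) x)
      rw [hFr, hF2, hGs]
  · apply CoprodI.ext_hom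
    intro i
    apply MonoidHom.ext
    intro x
    show F (G (CoprodI.of x)) = CoprodI.of x
    revert x
    refine Fin.cases ?_ (fun j => ?_) i
    · intro x
      rw [hG0, hFl]
    · intro x
      rw [hGs, hFr, hF2]

/-- the case without factors -/
theorem nilI (s : ℕ) : Nonempty (PG (s, []) ≃* FLs s []) := by
  let x : ℕ → FLs s [] := fun i =>
    if h : i < s then Coprod.inr (FreeGroup.of (⟨i, h⟩ : Fin s)) else 1
  obtain ⟨F, hF⟩ := PG_lift (s, []) x (fun i hi => dif_neg (not_lt.2 hi))
    (fun w hw => absurd hw List.not_mem_nil)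
  let G1 : (CoprodI fun i : Fin ([] : List Pres).length => PG (([] : List Pres).get i)) →*
    PG (s, []) := CoprodI.lift fun i => absurd i.2 (Nat.not_lt_zero _)
  let G2 : FreeGroup (Fin s) →* PG (s, []) := FreeGroup.lift fun i => gen (s, []) i
  let G : FLs s [] →* PG (s, []) := Coprod.lift G1 G2
  have hGr : ∀ y, G (Coprod.inr y) = G2 y := fun y => Coprod.lift_apply_inr G1 G2 y
  refine ⟨MonoidHom.toMulEquiv F G ?_ ?_⟩
  · apply PG_ext
    intro i
    show G (F (gen (s, []) i)) = gen (s, []) i
    rw [hF]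
    by_cases hi : i < s
    · have e : x i = Coprod.inr (FreeGroup.of (⟨i, hi⟩ : Fin s)) := dif_pos hi
      rw [e, hGr]
      exact FreeGroup.lift_apply_of ..
    · have e : x i = 1 := dif_neg hi
      rw [e, map_one, gen_big (s, []) (not_lt.1 hi)]
  · apply Coprod.hom_ext
    · apply CoprodI.ext_hom
      intro i
      exact absurd i.2 (Nat.not_lt_zero _)
    · apply FreeGroup.ext_hom
      intro i
      show F (G (Coprod.inr (FreeGroup.of i))) = Coprod.inr (FreeGroup.of i)
      have e1 : G2 (FreeGroup.of i) = gen (s, []) i := FreeGroup.lift_apply_of ..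
      rw [hGr, e1, hF]
      exact dif_pos i.2

theorem main (s : ℕ) : ∀ L : List Pres, Nonempty (PG (L.foldr Q2 (s, [])) ≃* FLs s L)
  | [] => nilI s
  | k :: L => by
    obtain ⟨e⟩ := iso k (L.foldr Q2 (s, []))
    obtain ⟨e'⟩ := main s L
    obtain ⟨e3⟩ := consI (n := L.length) (fun i : Fin (L.length + 1) => PG ((k :: L).get i))
    have e4 : Coprod (PG k) (CoprodI fun j : Fin L.length => PG (L.get j)) ≃*
        CoprodI (fun i : Fin (k :: L).length => PG ((k :: L).get i)) := e3
    exact ⟨((e.trans (MulEquiv.coprodCongr (MulEquiv.refl (PG k)) e')).trans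
      (MulEquiv.coprodAssoc (PG k) (CoprodI fun j : Fin L.length => PG (L.get j))
        (FreeGroup (Fin s))).symm).trans (MulEquiv.coprodCongr e4 (MulEquiv.refl _))⟩

theorem t : S_FPROD := by
  refine ⟨fun p => p.2.foldr Q2 (p.1, []), ?_, fun s L => main s L⟩
  have h2 : Primrec₂ (fun (_ : ℕ × List Pres) (q : Pres × Pres) => Q2 q.1 q.2) :=
    (Q2_pr.comp (Primrec.fst.comp Primrec.snd) (Primrec.snd.comp Primrec.snd)).to₂
  have h0 : Primrec (fun p : ℕ × List Pres => ((p.1, []) : Pres)) :=
    Primrec.pair Primrec.fst (Primrec.const [])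
  exact Primrec.list_foldr Primrec.snd h0 h2

end Pool.Agent.Q32.DP.FPROD
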