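import Pool.Agent.Q32.DP.Stm2
import Pool.Agent.Helper270.Cop
import Pool.Agent.TH103.VD.Syll

/-!
# Project DP (helper32), job FREE: free products of two nontrivial torsion-free groups
-/

set_option autoImplicit false

namespace Pool.Agent.Q32.DP.FREE

open Pool.Agent.Q32.DP Monoid.Coprod Pool.Agent.Helper270.Cop

section

variable (A B : Type) [Group A] [Group B]

/-- the two factors -/
def GG : Bool → Type
  | false => A
  | true => B

instance instGG : ∀ b, Group (GG A B b)
  | false => inferInstanceAs (Group A)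
  | true => inferInstanceAs (Group B)

/-- the maps of the trivial group to the factors -/
def ph (b : Bool) : Unit →* GG A B b := 1

/-- comparison with the amalgam over the trivial group -/
def toP : Monoid.Coprod A B →* Monoid.PushoutI (ph A B) :=
  Monoid.Coprod.lift (Monoid.PushoutI.of (φ := ph A B) false)
    (Monoid.PushoutI.of (φ := ph A B) true)

/-- the components -/
def cp : ∀ b, GG A B b →* Monoid.Coprod A B
  | false => (inl : A →* Monoid.Coprod A B)
  | true => (inr : B →* Monoid.Coprod A B)

/-- comparison -/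
def fromP : Monoid.PushoutI (ph A B) →* Monoid.Coprod A B :=
  Monoid.PushoutI.lift (cp A B) 1 (by
    intro b
    ext x
    simp [ph])

theorem from_to (x : Monoid.Coprod A B) : fromP A B (toP A B x) = x := by
  have : (fromP A B).comp (toP A B) = MonoidHom.id _ := by
    apply Monoid.Coprod.hom_ext
    · ext g
      simp only [MonoidHom.comp_apply, toP, Monoid.Coprod.lift_apply_inl, MonoidHom.id_apply]
      exact Monoid.PushoutI.lift_of (G := GG A B) (φ := ph A B) (i := false) (cp A B) 1 _ g
    · ext g
      simp only [MonoidHom.comp_apply, toP, Monoid.Coprod.lift_apply_inr, MonoidHom.id_apply]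
      exact Monoid.PushoutI.lift_of (G := GG A B) (φ := ph A B) (i := true) (cp A B) 1 _ g
  exact congrArg (fun f => f x) this

end

variable {A B : Type} [Group A] [Group B]

theorem tfree (hA : TFree A) (hB : TFree B) : TFree (Monoid.Coprod A B) := by
  intro z hz n hn h
  apply hz
  have h1 : toP A B z = 1 := by
    refine Pool.Agent.TH103.VD.amalg_tf (φ := ph A B)
      (fun b => Function.injective_of_subsingleton _) ?_ (toP A B z) n hn
      (by rw [← map_pow, h, map_one])
    intro b x k hk hx
    by_contra hne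
    cases b with
    | false => exact hA x hne k hk hx
    | true => exact hB x hne k hk hx
  rw [← from_to A B z, h1, map_one]

theorem inl_ne {a : A} (ha : a ≠ 1) : (inl a : Monoid.Coprod A B) ≠ 1 := by
  intro h
  apply ha
  have := congrArg (Monoid.Coprod.fst) h
  simpa using this

theorem centerless {a : A} {b : B} (ha : a ≠ 1) (hb : b ≠ 1) :
    Centerless (Monoid.Coprod A B) := fun _ hz =>
  center_trivial ha hb (hz (inl a)) (hz (inr b))

theorem not_cyclic {a : A} {b : B} (ha : a ≠ 1) (hb : b ≠ 1) :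
    ¬ Cyclic (Monoid.Coprod A B) := by
  rintro ⟨g, hg⟩
  apply inl_ne (B := B) ha
  apply centerless ha hb
  intro x
  obtain ⟨i, hi⟩ := hg (inl a)
  obtain ⟨j, hj⟩ := hg x
  rw [hi, hj, ← zpow_add, ← zpow_add, add_comm]

theorem aux {U V : Type} [Group U] [Group V] (e : Monoid.Coprod A B ≃* U × V) {b : B} (hb : b ≠ 1)
    {u : U} {v : V} (hu : u ≠ 1) (hv : v ≠ 1) (h : ∃ a, e.symm (u, 1) = inl a) : False := by
  have hcomm : ∀ (u : U) (v : V), Commute (e.symm (u, 1)) (e.symm (1, v)) := by
    intro u v
    show _ * _ = _ * _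
    rw [← map_mul, ← map_mul, Prod.mk_mul_mk, Prod.mk_mul_mk, mul_one, one_mul, one_mul, mul_one]
  have h1 : ∀ v : V, ∃ a, e.symm (1, v) = inl a := by
    intro v
    obtain ⟨a, ha⟩ := h
    have ha1 : a ≠ 1 := by
      rintro rfl
      apply hu
      have h2 : e.symm (u, 1) = e.symm 1 := by rw [ha, map_one, map_one]
      exact congrArg Prod.fst (e.symm.injective h2)
    have h3 := hcomm u v
    rw [ha] at h3
    exact commute_inl ha1 h3.symm
  have h4 : ∀ u : U, ∃ a, e.symm (u, 1) = inl a := by
    intro u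
    obtain ⟨a, ha⟩ := h1 v
    have ha1 : a ≠ 1 := by
      rintro rfl
      apply hv
      have h2 : e.symm (1, v) = e.symm 1 := by rw [ha, map_one, map_one]
      exact congrArg Prod.snd (e.symm.injective h2)
    have h3 := hcomm u v
    rw [ha] at h3
    exact commute_inl ha1 h3
  obtain ⟨a1, h5⟩ := h4 (e (inr b)).1
  obtain ⟨a2, h6⟩ := h1 (e (inr b)).2
  have h7 : (inr b : Monoid.Coprod A B) = inl (a1 * a2) := by
    rw [map_mul, ← h5, ← h6, ← map_mul, Prod.mk_mul_mk, mul_one, one_mul, Prod.mk.eta,
      MulEquiv.symm_apply_apply]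
  apply hb
  have := congrArg (Monoid.Coprod.snd) h7
  simpa using this

theorem indec {a : A} {b : B} (ha : a ≠ 1) (hb : b ≠ 1) :
    Indecomposable (Monoid.Coprod A B) := by
  refine ⟨⟨inl a, inl_ne ha⟩, ?_⟩
  rintro U V _ _ ⟨e⟩
  by_contra hc
  push Not at hc
  obtain ⟨⟨u, hu⟩, v, hv⟩ := hc
  have h0 : e (inl a) ≠ 1 := fun h => inl_ne (B := B) ha (e.injective (by rw [h, map_one]))
  by_cases h1 : (e (inl a)).1 = 1
  · have h2 : (e (inl a)).2 ≠ 1 := fun h2 => h0 (Prod.ext h1 h2)
    refine aux (e.trans MulEquiv.prodComm) hb h2 hu ⟨a, ?_⟩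
    rw [MulEquiv.symm_apply_eq]
    exact Prod.ext rfl h1.symm
  · refine aux e hb h1 hv ?_
    refine commute_inl ha ?_
    have h3 : Commute ((e (inl a)).1, (1 : V)) (e (inl a)) := by
      show _ * _ = _ * _
      exact Prod.ext (by simp) (by simp)
    have h4 := h3.map e.symm
    rwa [MulEquiv.symm_apply_apply] at h4

theorem t : S_FREE := by
  rintro A B _ _ hA hB ⟨a, ha⟩ ⟨b, hb⟩
  exact ⟨tfree hA hB, centerless ha hb, indec ha hb, not_cyclic ha hb⟩

end Pool.Agent.Q32.DP.FREE
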