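import Pool.Agent.Q32.DP.Stm
import Pool.Agent.H26R2.Basic

/-!
# Direct products: the free group of rank two is centreless and directly indecomposable
-/

set_option autoImplicit false

namespace Pool.Agent.Q32.DP.FREE2

open Pool.Agent.Q223.IS Pool.Agent.Q32.DP

/-- the exponent sum of one letter -/
def es (k : Fin 2) : FreeGroup (Fin 2) →* Multiplicative ℤ :=
  FreeGroup.lift (fun i => if i = k then Multiplicative.ofAdd 1 else 1)

theorem es_self (k : Fin 2) : es k (FreeGroup.of k) = Multiplicative.ofAdd 1 := by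
  unfold es
  rw [FreeGroup.lift_apply_of, if_pos rfl]

theorem es_ne (k l : Fin 2) (h : l ≠ k) : es k (FreeGroup.of l) = 1 := by
  unfold es
  rw [FreeGroup.lift_apply_of, if_neg h]

theorem centerless : Centerless (FreeGroup (Fin 2)) := by
  intro z hz
  obtain ⟨i, hi⟩ := Pool.Agent.H26R2.mem_zpowers_of_commute
    (b := z) (c := FreeGroup.of (0 : Fin 2)) (hz _) (es 0) (es_self 0)
  obtain ⟨j, hj⟩ := Pool.Agent.H26R2.mem_zpowers_of_commute
    (b := z) (c := FreeGroup.of (1 : Fin 2)) (hz _) (es 1) (es_self 1)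
  have h1 : es 0 z = (Multiplicative.ofAdd 1) ^ i := by
    rw [hi, map_zpow, es_self]
  have h2 : es 0 z = 1 := by
    rw [hj, map_zpow, es_ne 0 1 (by decide), one_zpow]
  have h3 : i = 0 := by
    have h4 := congrArg Multiplicative.toAdd (h1.symm.trans h2)
    simpa using h4
  rw [hi, h3, zpow_zero]

theorem indec : Indecomposable (FreeGroup (Fin 2)) := by
  refine ⟨⟨FreeGroup.of 0, fun h => ?_⟩, ?_⟩
  · have h1 := es_self 0
    rw [h, map_one] at h1
    have h2 := congrArg Multiplicative.toAdd h1
    simp at h2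
  · rintro A B _ _ ⟨e⟩
    by_contra hc
    push Not at hc
    obtain ⟨⟨a, ha⟩, b, hb⟩ := hc
    have hcomm : Commute (e.symm (a, 1)) (e.symm (1, b)) := by
      show _ * _ = _ * _
      rw [← map_mul, ← map_mul, Prod.mk_mul_mk, Prod.mk_mul_mk, mul_one, one_mul, one_mul, mul_one]
    obtain ⟨r, i, j, hi, hj⟩ := Pool.Agent.H26R2.exists_root hcomm
    have h1 : (a, (1 : B)) = (e r) ^ i := by
      rw [← map_zpow, ← hi, MulEquiv.apply_symm_apply]
    have h2 : ((1 : A), b) = (e r) ^ j := by
      rw [← map_zpow, ← hj, MulEquiv.apply_symm_apply]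
    have hi0 : i ≠ 0 := by
      rintro rfl
      rw [zpow_zero] at h1
      exact ha (congrArg Prod.fst h1)
    have h3 : (e r).2 ^ i = 1 := (congrArg Prod.snd h1).symm
    have h4 : b = (e r).2 ^ j := congrArg Prod.snd h2
    have h5 : b ^ i = 1 := by
      rw [h4, ← zpow_mul, mul_comm, zpow_mul, h3, one_zpow]
    have h6 : (e.symm (1, b)) ^ i = 1 ^ i := by
      rw [← map_zpow, one_zpow, Prod.pow_mk, one_zpow, h5]
      exact map_one e.symm
    have h7 : e.symm (1, b) = 1 := zpow_left_injective hi0 h6
    have h8 : ((1 : A), b) = 1 := by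
      rw [← e.apply_symm_apply (1, b), h7, map_one]
    exact hb (congrArg Prod.snd h8)

/-- the group of the presentation with two generators and no relator is the free group -/
noncomputable def eF : PG (2, []) ≃* FreeGroup (Fin 2) :=
  (QuotientGroup.quotientMulEquivOfEq (show Subgroup.normalClosure (relSet (2, [])) = ⊥ by
    have h : relSet (2, []) = ∅ := by
      ext g
      simp [relSet]
    rw [h]
    exact Subgroup.normalClosure_empty)).trans QuotientGroup.quotientBot

theorem centerless_of_equiv {G H : Type} [Group G] [Group H] (e : G ≃* H) (h : Centerless H) :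
    Centerless G := by
  intro z hz
  have h1 : e z = 1 := h (e z) (fun g => by
    obtain ⟨x, rfl⟩ := e.surjective g
    rw [← map_mul, ← map_mul, hz])
  exact (map_eq_one_iff e e.injective).mp h1

theorem indec_of_equiv {G H : Type} [Group G] [Group H] (e : G ≃* H) (h : Indecomposable H) :
    Indecomposable G := by
  refine ⟨?_, ?_⟩
  · obtain ⟨g, hg⟩ := h.1
    exact ⟨e.symm g, fun hc => hg ((map_eq_one_iff e.symm e.symm.injective).mp hc)⟩
  · rintro A B _ _ ⟨f⟩
    exact h.2 A B ⟨e.symm.trans f⟩

/-- **FREE2** -/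
theorem t : Centerless (PG (2, [])) ∧ Indecomposable (PG (2, [])) :=
  ⟨centerless_of_equiv eF centerless, indec_of_equiv eF indec⟩

end Pool.Agent.Q32.DP.FREE2
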