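import Pool.Agent.Q32.DP.Red
set_option autoImplicit false
namespace Pool.Agent.Q32.DP.Fr
open Pool.Agent.Q223.IS Pool.Agent.Q32.DP

/-- The presentation without relators. -/
theorem e2 : Nonempty (PG (2, []) ≃* FreeGroup (Fin 2)) := by
  have h : Subgroup.normalClosure (relSet (2, [])) = ⊥ := by
    have : relSet (2, []) = ∅ := by
      ext g
      simp [relSet]
    rw [this, Subgroup.normalClosure_eq_bot_iff]
    exact Set.empty_subset _
  exact ⟨(QuotientGroup.quotientMulEquivOfEq h).trans QuotientGroup.quotientBot⟩

theorem eL (k : Pres) : Nonempty (PL [k, k] ≃* PG k × PG k) := by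
  have : IsEmpty (Fin ([] : List Pres).length) := inferInstanceAs (IsEmpty (Fin 0))
  have e0 : PG k × PL [] ≃* PG k :=
    { toFun := fun x => x.1
      invFun := fun x => (x, fun i => (this.false i).elim)
      left_inv := fun x => Prod.ext rfl (funext fun i => (this.false i).elim)
      right_inv := fun _ => rfl
      map_mul' := fun _ _ => rfl }
  exact ⟨(Red.consE k [k]).trans ((MulEquiv.refl _).prodCongr ((Red.consE k []).trans e0))⟩

end Pool.Agent.Q32.DP.Fr
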