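import Pool.Agent.Q32.DP.Stm3
import Pool.Agent.Helper926.RK.RELib

set_option autoImplicit false

/-!
# Inductive definitions with recursively enumerable rules (job GEN)

The derivable facts are enumerated in stages: the number `n` codes `(l, e, m, k)`, and if all members
of `l` are in stage `n` and `m` is a witness for the rule `(l, e)` then `e` is added to the stage.
-/

namespace Pool.Agent.Q32.DP.GEN

open Pool.Agent.Helper926.RE Encodable

variable {E : Type} [Primcodable E]

open Classical in
/-- one step of the enumeration -/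
noncomputable def step (q : List E × E → ℕ → Bool) (p : ℕ × List E) : List E :=
  Option.casesOn (decode p.1 : Option (List E × E × ℕ × ℕ)) p.2 fun t =>
    if (∀ y ∈ t.1, y ∈ p.2) ∧ q (t.1, t.2.1) t.2.2.1 = true then t.2.1 :: p.2 else p.2

/-- the stages -/
noncomputable def stage (q : List E × E → ℕ → Bool) : ℕ → List E
  | 0 => []
  | n + 1 => step q (n, stage q n)

lemma step_comp {q : List E × E → ℕ → Bool} (hq : Computable₂ q) : Computable (step q) := by
  classical
  have h1 : Computable fun p : ℕ × List E => (decode p.1 : Option (List E × E × ℕ × ℕ)) :=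
    Computable.decode.comp Computable.fst
  have hq' : Computable fun x : (List E × E) × ℕ => q x.1 x.2 := hq
  have t1 : Computable fun x : (ℕ × List E) × (List E × E × ℕ × ℕ) => x.2.1 :=
    Computable.fst.comp Computable.snd
  have t2 : Computable fun x : (ℕ × List E) × (List E × E × ℕ × ℕ) => x.2.2.1 :=
    Computable.fst.comp (Computable.snd.comp Computable.snd)
  have t3 : Computable fun x : (ℕ × List E) × (List E × E × ℕ × ℕ) => x.2.2.2.1 :=
    Computable.fst.comp (Computable.snd.comp (Computable.snd.comp Computable.snd))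
  have t4 : Computable fun x : (ℕ × List E) × (List E × E × ℕ × ℕ) => x.1.2 :=
    Computable.snd.comp Computable.fst
  have c1 : ComputablePred fun x : (ℕ × List E) × (List E × E × ℕ × ℕ) =>
      ∀ y ∈ x.2.1, y ∈ x.1.2 := by
    refine cp_all_mem (p := fun (x : (ℕ × List E) × (List E × E × ℕ × ℕ)) (y : E) => y ∈ x.1.2)
      ?_ t1
    exact cp_mem (f := fun z : ((ℕ × List E) × (List E × E × ℕ × ℕ)) × E => z.2)
      (l := fun z => z.1.1.2) Computable.snd (t4.comp Computable.fst)
  have c2 : ComputablePred fun x : (ℕ × List E) × (List E × E × ℕ × ℕ) =>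
      q (x.2.1, x.2.2.1) x.2.2.2.1 = true := by
    refine ComputablePred.computable_iff.2
      ⟨fun x => q (x.2.1, x.2.2.1) x.2.2.2.1, ?_, rfl⟩
    exact hq'.comp ((t1.pair t2).pair t3)
  have h2 : Computable₂ fun (p : ℕ × List E) (t : List E × E × ℕ × ℕ) =>
      if (∀ y ∈ t.1, y ∈ p.2) ∧ q (t.1, t.2.1) t.2.2.1 = true then t.2.1 :: p.2 else p.2 := by
    refine cite (p := fun x : (ℕ × List E) × (List E × E × ℕ × ℕ) =>
      (∀ y ∈ x.2.1, y ∈ x.1.2) ∧ q (x.2.1, x.2.2.1) x.2.2.2.1 = true) (cp_and c1 c2) ?_ t4
    exact Computable.list_cons.comp t2 t4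
  exact Computable.option_casesOn h1 Computable.snd h2

lemma stage_comp {q : List E × E → ℕ → Bool} (hq : Computable₂ q) : Computable (stage q) := by
  have h2 : Computable₂ fun (_ : ℕ) (y : ℕ × List E) => step q y :=
    (step_comp hq).comp Computable.snd
  have h := Computable.nat_rec (f := fun n : ℕ => n) (g := fun _ : ℕ => ([] : List E))
    (h := fun (_ : ℕ) (y : ℕ × List E) => step q y) Computable.id
    (Computable.const []) h2
  refine h.of_eq fun n => ?_
  induction n with
  | zero => rfl
  | succ n ih => simp only [stage]; rw [← ih]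

lemma stage_succ (q : List E × E → ℕ → Bool) (n : ℕ) : ∀ x ∈ stage q n, x ∈ stage q (n + 1) := by
  classical
  intro x hx
  simp only [stage, step]
  rcases (decode n : Option (List E × E × ℕ × ℕ)) with _ | t
  · exact hx
  · dsimp only
    split_ifs
    · exact List.mem_cons_of_mem _ hx
    · exact hx

lemma stage_mono (q : List E × E → ℕ → Bool) {m n : ℕ} (h : m ≤ n) :
    ∀ x ∈ stage q m, x ∈ stage q n := by
  induction h with
  | refl => exact fun x hx => hx
  | step _ ih => exact fun x hx => stage_succ q _ x (ih x hx)

theorem t : S_GEN := by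
  classical
  intro E _ S hS _
  obtain ⟨q, hq, hSq⟩ := re_iff.1 hS
  refine ⟨fun e => ∃ n, e ∈ stage q n, ?_, ?_, ?_⟩
  · refine exN (p := fun e n => e ∈ stage q n) ?_
    exact mem_list (f := fun x : E × ℕ => x.1) (l := fun x => stage q x.2) Computable.fst
      ((stage_comp hq).comp Computable.snd)
  · intro l e hl hSe
    have hN : ∃ N, ∀ x ∈ l, x ∈ stage q N := by
      clear hSe
      induction l with
      | nil => exact ⟨0, fun x hx => absurd hx List.not_mem_nil⟩
      | cons a l ih =>
        obtain ⟨N, hN⟩ := ih fun x hx => hl x (List.mem_cons_of_mem _ hx)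
        obtain ⟨n, hn⟩ := hl a List.mem_cons_self
        refine ⟨max N n, fun x hx => ?_⟩
        rcases List.mem_cons.1 hx with rfl | hx
        · exact stage_mono q (le_max_right _ _) _ hn
        · exact stage_mono q (le_max_left _ _) _ (hN x hx)
    obtain ⟨N, hN⟩ := hN
    obtain ⟨m, hm⟩ := (hSq (l, e)).1 hSe
    have hle : N ≤ encode ((l, e, m, N) : List E × E × ℕ × ℕ) := by
      have e1 : encode ((l, e, m, N) : List E × E × ℕ × ℕ) =
          Nat.pair (encode l) (Nat.pair (encode e) (Nat.pair m N)) := rfl
      rw [e1]
      exact (Nat.right_le_pair m N).trans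
        ((Nat.right_le_pair _ _).trans (Nat.right_le_pair _ _))
    refine ⟨encode ((l, e, m, N) : List E × E × ℕ × ℕ) + 1, ?_⟩
    simp only [stage, step, encodek]
    rw [if_pos ⟨fun y hy => stage_mono q hle y (hN y hy), hm⟩]
    exact List.mem_cons_self
  · intro P hP e he
    obtain ⟨n, hn⟩ := he
    have key : ∀ n, ∀ x ∈ stage q n, P x := by
      intro n
      induction n with
      | zero => exact fun x hx => absurd hx List.not_mem_nil
      | succ n ih =>
        intro x hx
        simp only [stage, step] at hx
        rcases hd : (decode n : Option (List E × E × ℕ × ℕ)) with _ | t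
        · rw [hd] at hx
          exact ih x hx
        · rw [hd] at hx
          dsimp only at hx
          split_ifs at hx with hc
          · rcases List.mem_cons.1 hx with rfl | hx
            · exact hP t.1 t.2.1 (fun y hy => ih y (hc.1 y hy)) ((hSq (t.1, t.2.1)).2 ⟨_, hc.2⟩)
            · exact ih x hx
          · exact ih x hx
    exact key n e hn

end Pool.Agent.Q32.DP.GEN
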