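import Pool.Agent.Q32.DP.Stm

set_option autoImplicit false

/-!
# Unique direct decomposition for an abelian factor and centreless indecomposable factors
-/

namespace Pool.Agent.Q32.DP.KS

open Pool.Agent.Q32.DP

/-- a group with an idempotent endomorphism whose range and kernel commute is their product -/
theorem split {G : Type} [Group G] (π : G →* G) (hπ : ∀ x, π (π x) = π x)
    (hc : ∀ x y, π y = 1 → π x * y = y * π x) : Nonempty (G ≃* π.range × π.ker) := by
  refine ⟨MulEquiv.symm
    { toFun := fun p => (p.1 : G) * (p.2 : G)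
      invFun := fun x => (⟨π x, x, rfl⟩, ⟨(π x)⁻¹ * x, by
        rw [MonoidHom.mem_ker, map_mul, map_inv, hπ, inv_mul_cancel]⟩)
      left_inv := ?_
      right_inv := ?_
      map_mul' := ?_ }⟩
  · rintro ⟨⟨a, x, rfl⟩, ⟨b, hb⟩⟩
    rw [MonoidHom.mem_ker] at hb
    have h1 : π (π x * b) = π x := by rw [map_mul, hπ, hb, mul_one]
    apply Prod.ext
    · apply Subtype.ext
      exact h1
    · apply Subtype.ext
      change (π (π x * b))⁻¹ * (π x * b) = b
      rw [h1, inv_mul_cancel_left]
  · intro x
    change π x * ((π x)⁻¹ * x) = x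
    rw [mul_inv_cancel_left]
  · rintro ⟨⟨a, x, rfl⟩, ⟨b, hb⟩⟩ ⟨⟨a', x', rfl⟩, ⟨b', hb'⟩⟩
    rw [MonoidHom.mem_ker] at hb hb'
    change (π x * π x') * (b * b') = (π x * b) * (π x' * b')
    rw [mul_assoc, mul_assoc]
    congr 1
    rw [← mul_assoc, hc x' b hb, mul_assoc]

section Pi

variable {ι κ : Type} [DecidableEq ι] [DecidableEq κ] {K : ι → Type} {L : κ → Type}
  [∀ i, Group (K i)] [∀ j, Group (L j)]

/-- the components in `L j` of an element of the factor `K i` are in `K i` -/
theorem factor (f : (∀ i, K i) ≃* (∀ j, L j)) (hK : ∀ i, Centerless (K i)) (i : ι) (j : κ)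
    (x : K i) : f.symm (Pi.mulSingle j (f (Pi.mulSingle i x) j)) =
      Pi.mulSingle i (f.symm (Pi.mulSingle j (f (Pi.mulSingle i x) j)) i) := by
  funext i'
  by_cases h : i' = i
  · subst h
    rw [Pi.mulSingle_eq_same]
  · rw [Pi.mulSingle_eq_of_ne h]
    apply hK i'
    intro g
    have h1 : Pi.mulSingle i x * Pi.mulSingle i' g = (Pi.mulSingle i' g * Pi.mulSingle i x :
        ∀ i, K i) := (Pi.mulSingle_commute (fun e => h e.symm) x g).eq
    have h2 : ∀ j, f (Pi.mulSingle i x) j * f (Pi.mulSingle i' g) j =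
        f (Pi.mulSingle i' g) j * f (Pi.mulSingle i x) j := by
      intro j
      have := congrArg f h1
      rw [map_mul, map_mul] at this
      exact congrFun this j
    have h3 : Pi.mulSingle j (f (Pi.mulSingle i x) j) * f (Pi.mulSingle i' g) =
        f (Pi.mulSingle i' g) * Pi.mulSingle j (f (Pi.mulSingle i x) j) := by
      funext j'
      by_cases hj : j' = j
      · subst hj
        rw [Pi.mul_apply, Pi.mul_apply, Pi.mulSingle_eq_same]
        exact h2 j'
      · rw [Pi.mul_apply, Pi.mul_apply, Pi.mulSingle_eq_of_ne hj, one_mul, mul_one]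
    have h4 := congrArg f.symm h3
    rw [map_mul, map_mul, MulEquiv.symm_apply_apply] at h4
    have h5 := congrFun h4 i'
    rw [Pi.mul_apply, Pi.mul_apply, Pi.mulSingle_eq_same] at h5
    exact h5

/-- the projection of `K i` to `K i ∩ L j` -/
def pr (f : (∀ i, K i) ≃* (∀ j, L j)) (i : ι) (j : κ) : K i →* K i :=
  (Pi.evalMonoidHom K i).comp ((f.symm : (∀ j, L j) →* (∀ i, K i)).comp
    ((MonoidHom.mulSingle L j).comp ((Pi.evalMonoidHom L j).comp
      ((f : (∀ i, K i) →* (∀ j, L j)).comp (MonoidHom.mulSingle K i)))))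

theorem pr_apply (f : (∀ i, K i) ≃* (∀ j, L j)) (i : ι) (j : κ) (x : K i) :
    pr f i j x = f.symm (Pi.mulSingle j (f (Pi.mulSingle i x) j)) i := rfl

theorem f_pr (f : (∀ i, K i) ≃* (∀ j, L j)) (hK : ∀ i, Centerless (K i)) (i : ι) (j : κ)
    (x : K i) : f (Pi.mulSingle i (pr f i j x)) = Pi.mulSingle j (f (Pi.mulSingle i x) j) := by
  rw [pr_apply, ← factor f hK, MulEquiv.apply_symm_apply]

theorem pr_pr (f : (∀ i, K i) ≃* (∀ j, L j)) (hK : ∀ i, Centerless (K i)) (i : ι) (j : κ)
    (x : K i) : pr f i j (pr f i j x) = pr f i j x := by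
  rw [pr_apply f i j (pr f i j x), f_pr f hK, Pi.mulSingle_eq_same, pr_apply]

theorem pr_pr_ne (f : (∀ i, K i) ≃* (∀ j, L j)) (hK : ∀ i, Centerless (K i)) (i : ι) {j j' : κ}
    (h : j ≠ j') (x : K i) : pr f i j (pr f i j' x) = 1 := by
  rw [pr_apply f i j (pr f i j' x), f_pr f hK, Pi.mulSingle_eq_of_ne h, Pi.mulSingle_one, map_one]
  rfl

theorem comp_one (f : (∀ i, K i) ≃* (∀ j, L j)) (hK : ∀ i, Centerless (K i)) (i : ι) (j : κ)
    (x : K i) (h : pr f i j x = 1) : f (Pi.mulSingle i x) j = 1 := by
  have h1 := f_pr f hK i j x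
  rw [h, Pi.mulSingle_one, map_one] at h1
  have h2 := congrFun h1 j
  rw [Pi.mulSingle_eq_same] at h2
  exact h2.symm

/-- every factor `K i` is in a factor `L j` -/
theorem contained (f : (∀ i, K i) ≃* (∀ j, L j)) (hK : ∀ i, Centerless (K i))
    (hI : ∀ i, Indecomposable (K i)) (i : ι) :
    ∃ j, ∀ x : K i, f (Pi.mulSingle i x) = Pi.mulSingle j (f (Pi.mulSingle i x) j) := by
  have hsplit : ∀ j, (∀ x : K i, pr f i j x = 1) ∨ (∀ x : K i, pr f i j x = 1 → x = 1) := by
    intro j
    have h := split (pr f i j) (pr_pr f hK i j) (by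
      intro x y hy
      have h1 := comp_one f hK i j y hy
      have h2 := f_pr f hK i j x
      have h3 : f (Pi.mulSingle i (pr f i j x)) * f (Pi.mulSingle i y) =
          f (Pi.mulSingle i y) * f (Pi.mulSingle i (pr f i j x)) := by
        rw [h2]
        funext j'
        rw [Pi.mul_apply, Pi.mul_apply]
        by_cases hj : j' = j
        · subst hj
          rw [h1, one_mul, mul_one]
        · rw [Pi.mulSingle_eq_of_ne hj, one_mul, mul_one]
      rw [← map_mul, ← map_mul] at h3
      have h4 := congrFun (f.injective h3) i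
      rw [Pi.mul_apply, Pi.mul_apply, Pi.mulSingle_eq_same, Pi.mulSingle_eq_same] at h4
      exact h4)
    rcases (hI i).2 _ _ h with h | h
    · left
      intro x
      have := congrArg Subtype.val (h ⟨pr f i j x, x, rfl⟩)
      exact this
    · right
      intro x hx
      exact congrArg Subtype.val (h ⟨x, hx⟩)
  obtain ⟨g, hg⟩ := (hI i).1
  obtain ⟨j, hj⟩ : ∃ j, ∀ x : K i, pr f i j x = 1 → x = 1 := by
    by_contra hcon
    push Not at hcon
    have hall : ∀ j, ∀ x : K i, pr f i j x = 1 := by
      intro j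
      rcases hsplit j with h | h
      · exact h
      · obtain ⟨x, hx, hx'⟩ := hcon j
        exact absurd (h x hx) hx'
    apply hg
    have h1 : f (Pi.mulSingle i g) = 1 := by
      funext j
      exact comp_one f hK i j g (hall j g)
    have h2 : (Pi.mulSingle i g : ∀ i, K i) = 1 := by
      rw [← map_one f] at h1
      exact f.injective h1
    have h3 := congrFun h2 i
    rw [Pi.mulSingle_eq_same] at h3
    exact h3
  refine ⟨j, fun x => ?_⟩
  funext j'
  by_cases h : j' = j
  · subst h
    rw [Pi.mulSingle_eq_same]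
  · rw [Pi.mulSingle_eq_of_ne h]
    apply comp_one f hK
    apply hj
    exact pr_pr_ne f hK i (fun e => h e.symm) x

/-- two decompositions with centreless indecomposable factors are the same -/
theorem matching (f : (∀ i, K i) ≃* (∀ j, L j)) (hK : ∀ i, Centerless (K i))
    (hI : ∀ i, Indecomposable (K i)) (hL : ∀ j, Centerless (L j))
    (hJ : ∀ j, Indecomposable (L j)) : ∃ σ : ι ≃ κ, ∀ i, Nonempty (K i ≃* L (σ i)) := by
  choose s hs using contained f hK hI
  choose t ht using contained f.symm hL hJ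
  have key1 : ∀ i, t (s i) = i := by
    intro i
    obtain ⟨g, hg⟩ := (hI i).1
    by_contra hne
    apply hg
    have h1 := ht (s i) (f (Pi.mulSingle i g) (s i))
    rw [← hs i g, MulEquiv.symm_apply_apply] at h1
    have h2 := congrFun h1 i
    rw [Pi.mulSingle_eq_same, Pi.mulSingle_eq_of_ne (fun e => hne e.symm)] at h2
    exact h2
  have key2 : ∀ j, s (t j) = j := by
    intro j
    obtain ⟨g, hg⟩ := (hJ j).1
    by_contra hne
    apply hg
    have h1 := hs (t j) (f.symm (Pi.mulSingle j g) (t j))
    rw [← ht j g, MulEquiv.apply_symm_apply] at h1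
    have h2 := congrFun h1 j
    rw [Pi.mulSingle_eq_same, Pi.mulSingle_eq_of_ne (fun e => hne e.symm)] at h2
    exact h2
  refine ⟨⟨s, t, key1, key2⟩, fun i => ?_⟩
  change Nonempty (K i ≃* L (s i))
  refine ⟨
    { toFun := fun x => f (Pi.mulSingle i x) (s i)
      invFun := fun y => f.symm (Pi.mulSingle (s i) y) i
      left_inv := ?_
      right_inv := ?_
      map_mul' := ?_ }⟩
  · intro x
    change f.symm (Pi.mulSingle (s i) (f (Pi.mulSingle i x) (s i))) i = x
    rw [← hs i x, MulEquiv.symm_apply_apply, Pi.mulSingle_eq_same]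
  · intro y
    change f (Pi.mulSingle i (f.symm (Pi.mulSingle (s i) y) i)) (s i) = y
    have h1 := ht (s i) y
    rw [key1 i] at h1
    rw [← h1, MulEquiv.apply_symm_apply, Pi.mulSingle_eq_same]
  · intro x y
    rw [Pi.mulSingle_mul, map_mul]
    rfl

end Pi

section Ab

/-- the image of the abelian factor -/
theorem central_snd {A A' : Type} [Group A] [Group A'] {P : Type} [Group P] {n : ℕ}
    {L : Fin n → Type} [∀ j, Group (L j)] (hA : ∀ x y : A, x * y = y * x)
    (hL : ∀ j, Centerless (L j)) (e : A × P ≃* A' × (∀ j, L j)) (a : A) : (e (a, 1)).2 = 1 := by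
  funext j
  apply hL j
  intro g
  have h1 : ∀ z : A × P, (a, 1) * z = z * (a, 1) := by
    intro z
    apply Prod.ext
    · exact hA a z.1
    · change 1 * z.2 = z.2 * 1
      rw [one_mul, mul_one]
  have h2 := congrArg e (h1 (e.symm (1, Pi.mulSingle j g)))
  rw [map_mul, map_mul, MulEquiv.apply_symm_apply] at h2
  have h3 := congrFun (congrArg Prod.snd h2) j
  have h4 : ((1, Pi.mulSingle j g) : A' × (∀ j, L j)).2 j = g := Pi.mulSingle_eq_same j g
  rw [Prod.snd_mul, Prod.snd_mul, Pi.mul_apply, Pi.mul_apply, h4] at h3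
  exact h3

end Ab

theorem t : S_KS := by
  intro A A' _ _ m n K L _ _ hA hA' hK hI hL hJ he
  obtain ⟨e⟩ := he
  have c1 : ∀ a : A, (e (a, 1)).2 = 1 := central_snd hA hL e
  have c2 : ∀ a : A', (e.symm (a, 1)).2 = 1 := central_snd hA' hK e.symm
  have d1 : ∀ a : A, e (a, 1) = ((e (a, 1)).1, 1) := fun a => Prod.ext rfl (c1 a)
  have d2 : ∀ a : A', e.symm (a, 1) = ((e.symm (a, 1)).1, 1) := fun a => Prod.ext rfl (c2 a)
  constructor
  · refine ⟨
      { toFun := fun a => (e (a, 1)).1
        invFun := fun a => (e.symm (a, 1)).1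
        left_inv := ?_
        right_inv := ?_
        map_mul' := ?_ }⟩
    · intro a
      change (e.symm ((e (a, 1)).1, 1)).1 = a
      rw [← d1, MulEquiv.symm_apply_apply]
    · intro a
      change (e ((e.symm (a, 1)).1, 1)).1 = a
      rw [← d2, MulEquiv.apply_symm_apply]
    · intro a b
      have h : ((a * b, 1) : A × (∀ i, K i)) = (a, 1) * (b, 1) := by
        apply Prod.ext
        · rfl
        · exact (one_mul 1).symm
      change (e (a * b, 1)).1 = _
      rw [h, map_mul]
      rfl
  · have g1 : ∀ k : (∀ i, K i), (e.symm (1, (e (1, k)).2)).2 = k := by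
      intro k
      have h1 : ((1, (e (1, k)).2) : A' × (∀ j, L j)) = ((e (1, k)).1, 1)⁻¹ * e (1, k) := by
        apply Prod.ext
        · exact (inv_mul_cancel _).symm
        · change (e (1, k)).2 = 1⁻¹ * (e (1, k)).2
          rw [inv_one, one_mul]
      rw [h1, map_mul, map_inv, MulEquiv.symm_apply_apply, Prod.snd_mul, Prod.snd_inv, c2, inv_one,
        one_mul]
    have g2 : ∀ l : (∀ j, L j), (e (1, (e.symm (1, l)).2)).2 = l := by
      intro l
      have h1 : ((1, (e.symm (1, l)).2) : A × (∀ i, K i)) =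
          ((e.symm (1, l)).1, 1)⁻¹ * e.symm (1, l) := by
        apply Prod.ext
        · exact (inv_mul_cancel _).symm
        · change (e.symm (1, l)).2 = 1⁻¹ * (e.symm (1, l)).2
          rw [inv_one, one_mul]
      rw [h1, map_mul, map_inv, MulEquiv.apply_symm_apply, Prod.snd_mul, Prod.snd_inv, c1, inv_one,
        one_mul]
    let f : (∀ i, K i) ≃* (∀ j, L j) :=
      { toFun := fun k => (e (1, k)).2
        invFun := fun l => (e.symm (1, l)).2
        left_inv := g1
        right_inv := g2
        map_mul' := by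
          intro x y
          have h : ((1, x * y) : A × (∀ i, K i)) = (1, x) * (1, y) := by
            apply Prod.ext
            · exact (one_mul 1).symm
            · rfl
          rw [h, map_mul]
          rfl }
    exact matching f hK hI hL hJ

end Pool.Agent.Q32.DP.KS
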