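import Pool.Agent.Q32.DP.CANC

set_option autoImplicit false

/-!
# Reduction to the groups with prescribed direct factors
-/

namespace Pool.Agent.Q32.DP.Red

open Pool.Agent.Q223.IS Pool.Agent.Q32.DP

/-- The product over a list. -/
def consE (k : Pres) (L : List Pres) : PL (k :: L) ≃* PG k × PL L where
  toFun f := (f 0, fun i => f i.succ)
  invFun x := Fin.cons (α := fun i : Fin (k :: L).length => PG ((k :: L).get i)) x.1 x.2
  left_inv f := by
    funext i
    refine Fin.cases ?_ (fun j => ?_) i <;> rfl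
  right_inv x := rfl
  map_mul' f g := rfl

theorem cancelL (L : List Pres) (hL : ∀ k ∈ L, Centerless (PG k) ∧ Indecomposable (PG k)) :
    ∀ (G H : Type) [Group G] [Group H], Nonempty (G × PL L ≃* H × PL L) → Nonempty (G ≃* H) := by
  induction L with
  | nil =>
    rintro G H _ _ ⟨e⟩
    have hu : ∀ x y : PL [], x = y := fun x y => funext fun i => i.elim0
    refine ⟨{ toFun := fun g => (e (g, 1)).1, invFun := fun h => (e.symm (h, 1)).1,
              left_inv := ?_, right_inv := ?_, map_mul' := ?_ }⟩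
    · intro g
      have : ((e (g, 1)).1, (1 : PL [])) = e (g, 1) := Prod.ext rfl (hu _ _)
      simp [this]
    · intro h
      have : ((e.symm (h, 1)).1, (1 : PL [])) = e.symm (h, 1) := Prod.ext rfl (hu _ _)
      simp [this]
    · intro x y
      rw [← Prod.fst_mul, ← map_mul]
      simp
  | cons k L ih =>
    rintro G H _ _ ⟨e⟩
    have h1 : ∀ (M : Type) [Group M], Nonempty (M × PL (k :: L) ≃* (M × PL L) × PG k) := by
      intro M _
      exact ⟨((MulEquiv.refl M).prodCongr ((consE k L).trans MulEquiv.prodComm)).trans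
        MulEquiv.prodAssoc.symm⟩
    obtain ⟨eG⟩ := h1 G
    obtain ⟨eH⟩ := h1 H
    have hk := hL k List.mem_cons_self
    exact ih (fun k' hk' => hL k' (List.mem_cons_of_mem _ hk')) G H
      (CANC.t (G × PL L) (H × PL L) (PG k) hk.1 hk.2 ⟨eG.symm.trans (e.trans eH)⟩)

theorem red (hP : S_PRODL) (C : Pres → Prop) (L : List Pres)
    (hL : ∀ k ∈ L, Centerless (PG k) ∧ Indecomposable (PG k))
    (h : Solvable (fun p => ∃ c, C c ∧ Nonempty (PG p ≃* PG c × PL L))) : Solvable C := by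
  obtain ⟨P, hP1, hP2⟩ := hP
  obtain ⟨f, hf, hf'⟩ := h
  refine ⟨fun z => f (P (z.1, L), P (z.2, L)), ?_, ?_⟩
  · refine hf.comp ?_
    exact (Primrec.pair (hP1.comp (Primrec.pair Primrec.fst (Primrec.const L)))
      (hP1.comp (Primrec.pair Primrec.snd (Primrec.const L)))).to_comp
  · intro a b ha hb
    obtain ⟨ea⟩ := hP2 a L
    obtain ⟨eb⟩ := hP2 b L
    obtain ⟨h1, h2⟩ := hf' (P (a, L)) (P (b, L)) ⟨a, ha, ⟨ea⟩⟩ ⟨b, hb, ⟨eb⟩⟩
    have hiff : Nonempty (PG (P (a, L)) ≃* PG (P (b, L))) ↔ Nonempty (PG a ≃* PG b) := by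
      constructor
      · rintro ⟨e⟩
        exact cancelL L hL (PG a) (PG b) ⟨ea.symm.trans (e.trans eb)⟩
      · rintro ⟨e⟩
        exact ⟨ea.trans ((e.prodCongr (MulEquiv.refl _)).trans eb.symm)⟩
    rw [hiff] at h1 h2
    exact ⟨h1, h2⟩

/-- A subclass. -/
theorem mono {C D : Pres → Prop} (h : ∀ p, C p → D p) (hD : Solvable D) : Solvable C := by
  obtain ⟨f, hf, hf'⟩ := hD
  exact ⟨f, hf, fun a b ha hb => hf' a b (h a ha) (h b hb)⟩

end Pool.Agent.Q32.DP.Red
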