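import Pool.Agent.Q32.DP.Stm2
import Pool.Agent.Q32.DP.Red

set_option autoImplicit false

/-!
# Structure of the products
-/

namespace Pool.Agent.Q32.DP.Struct

open Pool.Agent.Q223.IS Pool.Agent.Q32.DP

/-! ### Transfer along isomorphisms -/

section Transfer

variable {G H : Type} [Group G] [Group H]

theorem tfree_iso (e : G ≃* H) (h : TFree G) : TFree H := by
  intro g hg n hn hgn
  refine h (e.symm g) (fun h1 => hg ?_) n hn ?_
  · simpa using congrArg e h1
  · rw [← map_pow, hgn, map_one]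

theorem centerless_iso (e : G ≃* H) (h : Centerless G) : Centerless H := by
  intro z hz
  have : e.symm z = 1 := by
    apply h
    intro g
    apply e.injective
    simpa using hz (e g)
  simpa using congrArg e this

theorem indec_iso (e : G ≃* H) (h : Indecomposable G) : Indecomposable H := by
  obtain ⟨⟨g, hg⟩, h2⟩ := h
  refine ⟨⟨e g, fun h1 => hg (by simpa using congrArg e.symm h1)⟩, ?_⟩
  rintro A B _ _ ⟨f⟩
  exact h2 A B ⟨e.trans f⟩

theorem findec_iso (e : G ≃* H) (h : FreelyIndec G) : FreelyIndec H := by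
  obtain ⟨⟨g, hg⟩, h2⟩ := h
  refine ⟨⟨e g, fun h1 => hg (by simpa using congrArg e.symm h1)⟩, ?_⟩
  rintro A B _ _ ⟨f⟩
  exact h2 A B ⟨e.trans f⟩

theorem cyclic_iso (e : G ≃* H) (h : Cyclic G) : Cyclic H := by
  obtain ⟨g, hg⟩ := h
  refine ⟨e g, fun x => ?_⟩
  obtain ⟨n, hn⟩ := hg (e.symm x)
  refine ⟨n, ?_⟩
  rw [← map_zpow, ← hn]
  simp

theorem ncyclic_iso (e : G ≃* H) (h : ¬ Cyclic G) : ¬ Cyclic H :=
  fun h' => h (cyclic_iso e.symm h')

theorem ncyclic_of_centerless (h : Centerless G) (h2 : ∃ g : G, g ≠ 1) : ¬ Cyclic G := by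
  rintro ⟨c, hc⟩
  obtain ⟨g, hg⟩ := h2
  apply hg
  apply h
  intro x
  obtain ⟨m, rfl⟩ := hc g
  obtain ⟨n, rfl⟩ := hc x
  rw [← zpow_add, ← zpow_add, add_comm]

theorem nontriv_iso (e : G ≃* H) (h : ∃ g : G, g ≠ 1) : ∃ g : H, g ≠ 1 := by
  obtain ⟨g, hg⟩ := h
  exact ⟨e g, fun h1 => hg (by simpa using congrArg e.symm h1)⟩

end Transfer

/-! ### Direct products -/

theorem tfree_prod {A B : Type} [Group A] [Group B] (hA : TFree A) (hB : TFree B) :
    TFree (A × B) := by
  rintro ⟨a, b⟩ h n hn hp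
  have h1 : a ^ n = 1 := congrArg Prod.fst hp
  have h2 : b ^ n = 1 := congrArg Prod.snd hp
  apply h
  by_cases ha : a = 1
  · by_cases hb : b = 1
    · rw [ha, hb]
      rfl
    · exact absurd h2 (hB b hb n hn)
  · exact absurd h1 (hA a ha n hn)

theorem tfree_freeAb (m : ℕ) : TFree (FreeAb m) := by
  intro g hg n hn h
  apply hg
  have h1 : n • (Multiplicative.toAdd g) = 0 := by
    rw [← toAdd_pow, h, toAdd_one]
  have h2 : Multiplicative.toAdd g = 0 := by
    funext i
    have := congrFun h1 i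
    simp only [Pi.smul_apply, Pi.zero_apply, nsmul_eq_mul, mul_eq_zero, Nat.cast_eq_zero] at this
    rcases this with h3 | h3
    · exact absurd h3 hn
    · exact h3
  rw [← toAdd_one] at h2
  exact Multiplicative.toAdd.injective h2

theorem tfree_PL (L : List Pres) (hL : ∀ k ∈ L, TFree (PG k)) : TFree (PL L) := by
  intro g hg n hn h
  apply hg
  funext i
  by_contra hi
  exact hL _ (List.get_mem L i) (g i) hi n hn (congrFun h i)

theorem nontriv_freeAb (m : ℕ) (hm : 1 ≤ m) : ∃ g : FreeAb m, g ≠ 1 := by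
  refine ⟨Multiplicative.ofAdd (fun _ => 1), fun h => ?_⟩
  have := congrFun (congrArg Multiplicative.toAdd h) ⟨0, hm⟩
  simp at this

theorem nontriv_PL (k : Pres) (L : List Pres) (hk : ∃ g : PG k, g ≠ 1) :
    ∃ g : PL (k :: L), g ≠ 1 := by
  obtain ⟨g, hg⟩ := hk
  refine nontriv_iso (Red.consE k L).symm ⟨(g, 1), fun h => hg (congrArg Prod.fst h)⟩

theorem nontriv_DL (m : ℕ) (L : List Pres) (hL : ∀ k ∈ L, ∃ g : PG k, g ≠ 1)
    (h : 1 ≤ m + L.length) : ∃ g : FreeAb m × PL L, g ≠ 1 := by
  rcases L with _ | ⟨k, L⟩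
  · obtain ⟨g, hg⟩ := nontriv_freeAb m (by simpa using h)
    exact ⟨(g, 1), fun h => hg (congrArg Prod.fst h)⟩
  · obtain ⟨g, hg⟩ := nontriv_PL k L (hL k List.mem_cons_self)
    exact ⟨(1, g), fun h => hg (congrArg Prod.snd h)⟩

/-- Splitting off one coordinate. -/
def freeAbSucc (m : ℕ) : FreeAb (m + 1) ≃* FreeAb 1 × FreeAb m where
  toFun f := (Multiplicative.ofAdd (fun _ => Multiplicative.toAdd f 0),
    Multiplicative.ofAdd (fun i => Multiplicative.toAdd f i.succ))
  invFun x := Multiplicative.ofAdd (Fin.cons (Multiplicative.toAdd x.1 0)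
    (Multiplicative.toAdd x.2))
  left_inv f := by
    apply Multiplicative.toAdd.injective
    funext i
    refine Fin.cases ?_ (fun j => ?_) i <;> rfl
  right_inv x := by
    apply Prod.ext
    · apply Multiplicative.toAdd.injective
      funext i
      rw [Subsingleton.elim i 0]
      rfl
    · rfl
  map_mul' f g := rfl

theorem split_DL (m : ℕ) (L : List Pres) (hL : ∀ k ∈ L, TFree (PG k) ∧ ∃ g : PG k, g ≠ 1)
    (h : 2 ≤ m + L.length) : ∃ (A B : Type) (_ : Group A) (_ : Group B), TFree A ∧ TFree B ∧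
      (∃ a : A, a ≠ 1) ∧ (∃ b : B, b ≠ 1) ∧ Nonempty (FreeAb m × PL L ≃* A × B) := by
  rcases L with _ | ⟨k, L⟩
  · obtain ⟨m, rfl⟩ : ∃ m', m = m' + 1 := ⟨m - 1, by simp at h; omega⟩
    refine ⟨FreeAb 1, FreeAb m × PL [], inferInstance, inferInstance, tfree_freeAb 1,
      tfree_prod (tfree_freeAb m) (tfree_PL [] (by simp)), nontriv_freeAb 1 le_rfl,
      nontriv_DL m [] (by simp) (by simp at h ⊢; omega), ?_⟩
    exact ⟨((freeAbSucc m).prodCongr (MulEquiv.refl _)).trans MulEquiv.prodAssoc⟩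
  · have hk := hL k List.mem_cons_self
    have hL' : ∀ k ∈ L, TFree (PG k) ∧ ∃ g : PG k, g ≠ 1 :=
      fun k' hk' => hL k' (List.mem_cons_of_mem _ hk')
    refine ⟨PG k, FreeAb m × PL L, inferInstance, inferInstance, hk.1,
      tfree_prod (tfree_freeAb m) (tfree_PL L fun k hk => (hL' k hk).1), hk.2,
      nontriv_DL m L (fun k hk => (hL' k hk).2) (by simp at h ⊢; omega), ?_⟩
    refine ⟨((MulEquiv.refl _).prodCongr (Red.consE k L)).trans ?_⟩
    exact (MulEquiv.prodAssoc.symm.trans (MulEquiv.prodComm.prodCongr (MulEquiv.refl _))).trans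
      MulEquiv.prodAssoc

/-! ### Free products -/

open Monoid

section cons
variable {n : ℕ} (M : Fin (n + 1) → Type) [∀ i, Group (M i)]

/-- One direction. -/
def consTo : CoprodI M →* Coprod (M 0) (CoprodI fun j : Fin n => M j.succ) :=
  CoprodI.lift (fun i => Fin.cases
    (motive := fun i : Fin (n + 1) => M i →* Coprod (M 0) (CoprodI fun j : Fin n => M j.succ))
    (Coprod.inl : M 0 →* _)
    (fun j => (Coprod.inr).comp (CoprodI.of (M := fun j : Fin n => M j.succ) (i := j))) i)

/-- The other direction. -/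
def consInv : Coprod (M 0) (CoprodI fun j : Fin n => M j.succ) →* CoprodI M :=
  Coprod.lift (CoprodI.of (i := 0)) (CoprodI.lift (fun j : Fin n => CoprodI.of (i := j.succ)))

theorem consTo_zero (x : M 0) : consTo M (CoprodI.of x) = Coprod.inl x := by
  unfold consTo
  rw [CoprodI.lift_of]
  rfl

theorem consTo_succ (j : Fin n) (x : M j.succ) : consTo M (CoprodI.of x) =
    Coprod.inr (CoprodI.of (M := fun j : Fin n => M j.succ) x) := by
  unfold consTo
  rw [CoprodI.lift_of]
  rfl

theorem consInv_inl (x : M 0) : consInv M (Coprod.inl x) = CoprodI.of x := by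
  unfold consInv
  rw [Coprod.lift_apply_inl]

theorem consInv_inr (j : Fin n) (x : M j.succ) : consInv M (Coprod.inr
    (CoprodI.of (M := fun j : Fin n => M j.succ) x)) = CoprodI.of x := by
  unfold consInv
  rw [Coprod.lift_apply_inr, CoprodI.lift_of]

/-- Splitting off the first factor. -/
def consI : CoprodI M ≃* Coprod (M 0) (CoprodI fun j : Fin n => M j.succ) := by
  refine MonoidHom.toMulEquiv (consTo M) (consInv M) ?_ ?_
  · apply CoprodI.ext_hom
    intro i
    refine Fin.cases ?_ (fun j => ?_) i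
    · refine MonoidHom.ext fun x => ?_
      change consInv M (consTo M (CoprodI.of x)) = CoprodI.of x
      rw [consTo_zero, consInv_inl]
    · refine MonoidHom.ext fun x => ?_
      change consInv M (consTo M (CoprodI.of x)) = CoprodI.of x
      rw [consTo_succ, consInv_inr]
  · apply Coprod.hom_ext
    · refine MonoidHom.ext fun x => ?_
      change consTo M (consInv M (Coprod.inl x)) = Coprod.inl x
      rw [consInv_inl, consTo_zero]
    · apply CoprodI.ext_hom
      intro j
      refine MonoidHom.ext fun x => ?_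
      change consTo M (consInv M (Coprod.inr (CoprodI.of (M := fun j : Fin n => M j.succ) x))) =
        Coprod.inr (CoprodI.of (M := fun j : Fin n => M j.succ) x)
      rw [consInv_inr, consTo_succ]

end cons

/-- Splitting off the first factor. -/
def consF (k : Pres) (L : List Pres) :
    CoprodI (fun i : Fin (k :: L).length => PG ((k :: L).get i)) ≃*
      Coprod (PG k) (CoprodI (fun i : Fin L.length => PG (L.get i))) :=
  consI (n := L.length) (fun i => PG ((k :: L).get i))

/-- Splitting off the first factor. -/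
def consFLs (s : ℕ) (k : Pres) (L : List Pres) : FLs s (k :: L) ≃* Coprod (PG k) (FLs s L) :=
  (MulEquiv.coprodCongr (consF k L) (MulEquiv.refl _)).trans (MulEquiv.coprodAssoc _ _ _)

/-- Free groups. -/
def freeSucc (s : ℕ) : FreeGroup (Fin (s + 1)) ≃* Coprod (FreeGroup (Fin 1)) (FreeGroup (Fin s)) := by
  refine MonoidHom.toMulEquiv
    (FreeGroup.lift (Fin.cases (Coprod.inl (FreeGroup.of 0)) (fun i => Coprod.inr (FreeGroup.of i))))
    (Coprod.lift (FreeGroup.lift (fun _ => FreeGroup.of 0))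
      (FreeGroup.lift (fun i => FreeGroup.of i.succ))) ?_ ?_
  · apply FreeGroup.ext_hom
    intro i
    refine Fin.cases ?_ (fun j => ?_) i
    · simp
    · simp
  · apply Coprod.hom_ext
    · apply FreeGroup.ext_hom
      intro i
      rw [Subsingleton.elim i 0]
      simp
    · apply FreeGroup.ext_hom
      intro i
      simp

/-- The empty free product. -/
theorem FLs_nil (s : ℕ) : Nonempty (FLs s [] ≃* FreeGroup (Fin s)) := by
  have h : ∀ x : CoprodI (fun i : Fin ([] : List Pres).length => PG (([] : List Pres).get i)),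
      x = 1 := by
    intro x
    induction x using CoprodI.induction_on with
    | one => rfl
    | of i m => exact (Fin.elim0 i)
    | mul x y hx hy => rw [hx, hy, mul_one]
  refine ⟨MonoidHom.toMulEquiv (Coprod.lift 1 (MonoidHom.id _)) Coprod.inr ?_ ?_⟩
  · apply Coprod.hom_ext
    · refine MonoidHom.ext fun x => ?_
      rw [h x]
      simp
    · refine MonoidHom.ext fun x => ?_
      simp
  · refine MonoidHom.ext fun x => ?_
    simp

theorem tfree_free (s : ℕ) : TFree (FreeGroup (Fin s)) := by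
  intro g hg n hn h
  exact hg ((pow_eq_one_iff_left hn).1 h)

theorem nontriv_free (s : ℕ) (hs : 1 ≤ s) : ∃ g : FreeGroup (Fin s), g ≠ 1 :=
  ⟨FreeGroup.of ⟨0, hs⟩, FreeGroup.of_ne_one _⟩

theorem tfree_coprod (hF : S_FREE) {A B : Type} [Group A] [Group B] (hA : TFree A) (hB : TFree B) :
    TFree (Coprod A B) := by
  by_cases ha : ∃ a : A, a ≠ 1
  · by_cases hb : ∃ b : B, b ≠ 1
    · exact (hF A B hA hB ha hb).1
    · push Not at hb
      refine tfree_iso (G := A) (MonoidHom.toMulEquiv Coprod.inl (Coprod.lift (MonoidHom.id _) 1)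
        ?_ ?_) hA
      · refine MonoidHom.ext fun x => ?_
        simp
      · apply Coprod.hom_ext
        · refine MonoidHom.ext fun x => ?_
          simp
        · refine MonoidHom.ext fun x => ?_
          rw [hb x]
          simp
  · push Not at ha
    refine tfree_iso (G := B) (MonoidHom.toMulEquiv Coprod.inr (Coprod.lift 1 (MonoidHom.id _))
      ?_ ?_) hB
    · refine MonoidHom.ext fun x => ?_
      simp
    · apply Coprod.hom_ext
      · refine MonoidHom.ext fun x => ?_
        rw [ha x]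
        simp
      · refine MonoidHom.ext fun x => ?_
        simp

theorem tfree_FLs (hF : S_FREE) (s : ℕ) (L : List Pres) (hL : ∀ k ∈ L, TFree (PG k)) :
    TFree (FLs s L) := by
  induction L with
  | nil =>
    obtain ⟨e⟩ := FLs_nil s
    exact tfree_iso e.symm (tfree_free s)
  | cons k L ih =>
    exact tfree_iso (consFLs s k L).symm (tfree_coprod hF (hL k List.mem_cons_self)
      (ih fun k hk => hL k (List.mem_cons_of_mem _ hk)))

theorem nontriv_FLs (s : ℕ) (L : List Pres) (hL : ∀ k ∈ L, ∃ g : PG k, g ≠ 1)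
    (h : 1 ≤ s + L.length) : ∃ g : FLs s L, g ≠ 1 := by
  rcases L with _ | ⟨k, L⟩
  · obtain ⟨e⟩ := FLs_nil s
    exact nontriv_iso e.symm (nontriv_free s (by simpa using h))
  · obtain ⟨g, hg⟩ := hL k List.mem_cons_self
    refine nontriv_iso (G := Coprod (PG k) (FLs s L)) (consFLs s k L).symm
      ⟨(Coprod.inl : PG k →* Coprod (PG k) (FLs s L)) g, fun h1 => hg ?_⟩
    exact Coprod.inl_injective (h1.trans (map_one _).symm)

theorem split_FLs (hF : S_FREE) (s : ℕ) (L : List Pres)
    (hL : ∀ k ∈ L, TFree (PG k) ∧ ∃ g : PG k, g ≠ 1)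
    (h : 2 ≤ s + L.length) : ∃ (A B : Type) (_ : Group A) (_ : Group B), TFree A ∧ TFree B ∧
      (∃ a : A, a ≠ 1) ∧ (∃ b : B, b ≠ 1) ∧ Nonempty (FLs s L ≃* Coprod A B) := by
  rcases L with _ | ⟨k, L⟩
  · obtain ⟨s, rfl⟩ : ∃ s', s = s' + 1 := ⟨s - 1, by simp at h; omega⟩
    obtain ⟨e⟩ := FLs_nil (s + 1)
    exact ⟨FreeGroup (Fin 1), FreeGroup (Fin s), inferInstance, inferInstance, tfree_free 1,
      tfree_free s, nontriv_free 1 le_rfl, nontriv_free s (by simp at h; omega),
      ⟨e.trans (freeSucc s)⟩⟩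
  · have hk := hL k List.mem_cons_self
    have hL' : ∀ k ∈ L, TFree (PG k) ∧ ∃ g : PG k, g ≠ 1 :=
      fun k' hk' => hL k' (List.mem_cons_of_mem _ hk')
    exact ⟨PG k, FLs s L, inferInstance, inferInstance, hk.1,
      tfree_FLs hF s L fun k hk => (hL' k hk).1, hk.2,
      nontriv_FLs s L (fun k hk => (hL' k hk).2) (by simp at h ⊢; omega), ⟨consFLs s k L⟩⟩

end Pool.Agent.Q32.DP.Struct
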