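import Pool.Agent.Q32.DP.Stm3
import Pool.Agent.Q32.DP.Struct

set_option autoImplicit false

/-!
# NF (helper121): normal forms of the groups built by direct and free products
-/

namespace Pool.Agent.Q32.DP.NF

open Pool.Agent.Q223.IS Pool.Agent.Q32.DP Pool.Agent.Q32.DP.Struct Monoid

/-! ### Isomorphisms -/

section Iso

variable {A B D : Type} [Group A] [Group B] [Group D]

/-- A trivial free factor. -/
def coprodTriv (h : ∀ b : B, b = 1) : A ≃* Coprod A B := by
  refine MonoidHom.toMulEquiv Coprod.inl (Coprod.lift (MonoidHom.id _) 1) ?_ ?_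
  · refine MonoidHom.ext fun x => ?_
    simp
  · apply Coprod.hom_ext
    · refine MonoidHom.ext fun x => ?_
      simp
    · refine MonoidHom.ext fun x => ?_
      rw [h x]
      simp

/-- A trivial direct factor. -/
def prodTriv (h : ∀ b : B, b = 1) : A × B ≃* A where
  toFun := fun x => x.1
  invFun := fun x => (x, 1)
  left_inv := fun _ => Prod.ext rfl (h _).symm
  right_inv := fun _ => rfl
  map_mul' := fun _ _ => rfl

/-- A trivial direct factor. -/
def trivProd (h : ∀ a : A, a = 1) : A × B ≃* B where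
  toFun := fun x => x.2
  invFun := fun x => (1, x)
  left_inv := fun _ => Prod.ext (h _).symm rfl
  right_inv := fun _ => rfl
  map_mul' := fun _ _ => rfl

/-- Trivial groups. -/
def trivTriv (h : ∀ a : A, a = 1) (h' : ∀ b : B, b = 1) : A ≃* B where
  toFun := fun _ => 1
  invFun := fun _ => 1
  left_inv := fun _ => (h _).symm
  right_inv := fun _ => (h' _).symm
  map_mul' := fun _ _ => (one_mul 1).symm

end Iso

theorem fa0 : ∀ x : FreeAb 0, x = 1 := fun _ => Subsingleton.elim _ _

theorem pl0 : ∀ x : PL [], x = 1 := fun _ => funext fun i => i.elim0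

theorem fl0 : ∀ x : FLs 0 [], x = 1 := by
  obtain ⟨e⟩ := FLs_nil 0
  exact fun _ => e.injective (Subsingleton.elim _ _)

/-- One direct factor. -/
def d1 (k : Pres) : FreeAb 0 × PL [k] ≃* PG k :=
  (trivProd fa0).trans ((Red.consE k []).trans (prodTriv pl0))

/-- One free factor. -/
def f1 (k : Pres) : FLs 0 [k] ≃* PG k := (consFLs 0 k []).trans (coprodTriv fl0).symm

/-- The free abelian group of rank one. -/
def fa1 : FreeAb 1 ≃* Multiplicative ℤ where
  toFun f := Multiplicative.ofAdd (Multiplicative.toAdd f 0)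
  invFun x := Multiplicative.ofAdd (fun _ => Multiplicative.toAdd x)
  left_inv f := by
    apply Multiplicative.toAdd.injective
    funext i
    rw [Subsingleton.elim i 0]
    rfl
  right_inv x := rfl
  map_mul' f g := rfl

/-- No direct factor, rank one. -/
def dz : FreeAb 1 × PL [] ≃* Multiplicative ℤ := (prodTriv pl0).trans fa1

theorem fz : Nonempty (FLs 1 [] ≃* Multiplicative ℤ) := by
  obtain ⟨e⟩ := FLs_nil 1
  exact ⟨e.trans (FreeGroup.mulEquivIntOfUnique (α := Fin 1))⟩

theorem df0 : ∀ x : FreeAb 0 × PL [], x = 1 := fun x => Prod.ext (fa0 _) (pl0 _)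

theorem fa_add (m m' : ℕ) : Nonempty (FreeAb (m + m') ≃* FreeAb m × FreeAb m') := by
  induction m with
  | zero =>
    rw [Nat.zero_add]
    exact ⟨(trivProd fa0).symm⟩
  | succ m ih =>
    obtain ⟨e⟩ := ih
    rw [show m + 1 + m' = (m + m') + 1 by omega]
    exact ⟨(freeAbSucc (m + m')).trans (((MulEquiv.refl _).prodCongr e).trans
      (MulEquiv.prodAssoc.symm.trans ((freeAbSucc m).symm.prodCongr (MulEquiv.refl _))))⟩

theorem pl_append (L L' : List Pres) : Nonempty (PL (L ++ L') ≃* PL L × PL L') := by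
  induction L with
  | nil => exact ⟨(trivProd pl0).symm⟩
  | cons k L ih =>
    obtain ⟨e⟩ := ih
    exact ⟨(Red.consE k (L ++ L')).trans (((MulEquiv.refl _).prodCongr e).trans
      (MulEquiv.prodAssoc.symm.trans ((Red.consE k L).symm.prodCongr (MulEquiv.refl _))))⟩

theorem fg_add (s s' : ℕ) : Nonempty (FreeGroup (Fin (s + s')) ≃*
    Coprod (FreeGroup (Fin s)) (FreeGroup (Fin s'))) := by
  induction s with
  | zero =>
    rw [Nat.zero_add]
    exact ⟨(coprodTriv (fun _ => Subsingleton.elim _ _)).trans (MulEquiv.coprodComm _ _)⟩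
  | succ s ih =>
    obtain ⟨e⟩ := ih
    rw [show s + 1 + s' = (s + s') + 1 by omega]
    exact ⟨(freeSucc (s + s')).trans ((MulEquiv.coprodCongr (MulEquiv.refl _) e).trans
      ((MulEquiv.coprodAssoc _ _ _).symm.trans
        (MulEquiv.coprodCongr (freeSucc s).symm (MulEquiv.refl _))))⟩

theorem fls_append (s s' : ℕ) (L L' : List Pres) :
    Nonempty (FLs (s + s') (L ++ L') ≃* Coprod (FLs s L) (FLs s' L')) := by
  induction L with
  | nil =>
    obtain ⟨e⟩ := FLs_nil s
    obtain ⟨f⟩ := fg_add s s'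
    have e1 : FLs (s + s') L' ≃* Coprod (CoprodI (fun i : Fin L'.length => PG (L'.get i)))
        (Coprod (FreeGroup (Fin s)) (FreeGroup (Fin s'))) :=
      MulEquiv.coprodCongr (MulEquiv.refl _) f
    have e2 : Coprod (CoprodI (fun i : Fin L'.length => PG (L'.get i)))
        (Coprod (FreeGroup (Fin s)) (FreeGroup (Fin s'))) ≃*
        Coprod (FreeGroup (Fin s)) (FLs s' L') :=
      (MulEquiv.coprodAssoc _ _ _).symm.trans
        ((MulEquiv.coprodCongr (MulEquiv.coprodComm _ _) (MulEquiv.refl _)).trans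
          (MulEquiv.coprodAssoc _ _ _))
    exact ⟨e1.trans (e2.trans (MulEquiv.coprodCongr e.symm (MulEquiv.refl _)))⟩
  | cons k L ih =>
    obtain ⟨e⟩ := ih
    exact ⟨(consFLs (s + s') k (L ++ L')).trans ((MulEquiv.coprodCongr (MulEquiv.refl _) e).trans
      ((MulEquiv.coprodAssoc _ _ _).symm.trans
        (MulEquiv.coprodCongr (consFLs s k L).symm (MulEquiv.refl _))))⟩

/-! ### Levels -/

theorem mono_succ (C : Pres → Prop) (n : ℕ) :
    (∀ p, DD C n p → DD C (n + 1) p) ∧ (∀ p, FF C n p → FF C (n + 1) p) := by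
  induction n with
  | zero => exact ⟨fun p hp => Or.inl hp, fun p hp => Or.inl hp⟩
  | succ n ih =>
    constructor
    · rintro p (hp | ⟨m, L, hL, h⟩)
      · exact Or.inl hp
      · exact Or.inr ⟨m, L, fun k hk => ih.2 k (hL k hk), h⟩
    · rintro p (hp | ⟨m, L, hL, h⟩)
      · exact Or.inl hp
      · exact Or.inr ⟨m, L, fun k hk => ih.1 k (hL k hk), h⟩

theorem monoD (C : Pres → Prop) {n n' : ℕ} (h : n ≤ n') {p : Pres} (hp : DD C n p) :
    DD C n' p := by
  induction h with
  | refl => exact hp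
  | step _ ih => exact (mono_succ C _).1 p ih

theorem monoF (C : Pres → Prop) {n n' : ℕ} (h : n ≤ n') {p : Pres} (hp : FF C n p) :
    FF C n' p := by
  induction h with
  | refl => exact hp
  | step _ ih => exact (mono_succ C _).2 p ih

/-- Free normal form of level `n`. -/
def FForm (C : Pres → Prop) (n : ℕ) (p : Pres) : Prop :=
  ∃ (s : ℕ) (L : List Pres), (∀ k ∈ L, DD C n k) ∧ Nonempty (PG p ≃* FLs s L)

theorem mem_one {P : Pres → Prop} {k : Pres} (h : P k) : ∀ k' ∈ [k], P k' := by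
  intro k' hk'
  rw [List.mem_singleton] at hk'
  rw [hk']
  exact h

theorem D_to_F {C : Pres → Prop} {n : ℕ} {p : Pres} (h : DForm C n p) : ∃ n', FForm C n' p := by
  obtain ⟨m, L, hL, ⟨e⟩⟩ := h
  by_cases h2 : 2 ≤ m + L.length
  · have hp : DD C (n + 1) p := Or.inr ⟨m, L, hL, h2, ⟨e⟩⟩
    exact ⟨n + 1, 0, [p], mem_one hp, ⟨(f1 p).symm⟩⟩
  · rcases L with _ | ⟨k, _ | ⟨k', L⟩⟩
    · rcases m with _ | _ | m
      · exact ⟨0, 0, [], by simp, ⟨e.trans (trivTriv df0 fl0)⟩⟩
      · obtain ⟨f⟩ := fz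
        exact ⟨0, 1, [], by simp, ⟨e.trans (dz.trans f.symm)⟩⟩
      · simp at h2
    · have hm : m = 0 := by
        simp only [List.length_cons, List.length_nil] at h2
        omega
      subst hm
      have hk : FF C n k := hL k List.mem_cons_self
      have e' : PG p ≃* PG k := e.trans (d1 k)
      rcases n with _ | n
      · exact ⟨0, 0, [k], mem_one hk, ⟨e'.trans (f1 k).symm⟩⟩
      · rcases hk with hk | ⟨s, L', hL', -, ⟨f⟩⟩
        · exact ⟨0, 0, [k], mem_one hk, ⟨e'.trans (f1 k).symm⟩⟩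
        · exact ⟨n, s, L', hL', ⟨e'.trans f⟩⟩
    · exfalso
      simp only [List.length_cons] at h2
      omega

theorem F_to_D {C : Pres → Prop} {n : ℕ} {p : Pres} (h : FForm C n p) : ∃ n', DForm C n' p := by
  obtain ⟨m, L, hL, ⟨e⟩⟩ := h
  by_cases h2 : 2 ≤ m + L.length
  · have hp : FF C (n + 1) p := Or.inr ⟨m, L, hL, h2, ⟨e⟩⟩
    exact ⟨n + 1, 0, [p], mem_one hp, ⟨(d1 p).symm⟩⟩
  · rcases L with _ | ⟨k, _ | ⟨k', L⟩⟩
    · rcases m with _ | _ | m
      · exact ⟨0, 0, [], by simp, ⟨e.trans (trivTriv fl0 df0)⟩⟩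
      · obtain ⟨f⟩ := fz
        exact ⟨0, 1, [], by simp, ⟨e.trans (f.trans dz.symm)⟩⟩
      · simp at h2
    · have hm : m = 0 := by
        simp only [List.length_cons, List.length_nil] at h2
        omega
      subst hm
      have hk : DD C n k := hL k List.mem_cons_self
      have e' : PG p ≃* PG k := e.trans (f1 k)
      rcases n with _ | n
      · exact ⟨0, 0, [k], mem_one hk, ⟨e'.trans (d1 k).symm⟩⟩
      · rcases hk with hk | ⟨s, L', hL', -, ⟨f⟩⟩
        · exact ⟨0, 0, [k], mem_one hk, ⟨e'.trans (d1 k).symm⟩⟩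
        · exact ⟨n, s, L', hL', ⟨e'.trans f⟩⟩
    · exfalso
      simp only [List.length_cons] at h2
      omega

/-- **NF** -/
theorem t : S_NF := by
  intro C _ p hp
  induction hp with
  | base h => exact ⟨0, 0, [_], mem_one h, ⟨(d1 _).symm⟩⟩
  | int h =>
    obtain ⟨e⟩ := h
    exact ⟨0, 1, [], by simp, ⟨e.trans dz.symm⟩⟩
  | direct _ _ h iha ihb =>
    obtain ⟨e⟩ := h
    obtain ⟨n, m, L, hL, ⟨ea⟩⟩ := iha
    obtain ⟨n', m', L', hL', ⟨eb⟩⟩ := ihb
    obtain ⟨f⟩ := fa_add m m'
    obtain ⟨g⟩ := pl_append L L'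
    refine ⟨max n n', m + m', L ++ L', ?_, ⟨?_⟩⟩
    · intro k hk
      rcases List.mem_append.1 hk with hk | hk
      · exact monoF C (le_max_left _ _) (hL k hk)
      · exact monoF C (le_max_right _ _) (hL' k hk)
    · exact e.trans ((ea.prodCongr eb).trans
        ((MulEquiv.prodProdProdComm _ _ _ _).trans (f.symm.prodCongr g.symm)))
  | free _ _ h iha ihb =>
    obtain ⟨e⟩ := h
    obtain ⟨na, ha⟩ := iha
    obtain ⟨nb, hb⟩ := ihb
    obtain ⟨n, m, L, hL, ⟨ea⟩⟩ := D_to_F ha
    obtain ⟨n', m', L', hL', ⟨eb⟩⟩ := D_to_F hb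
    obtain ⟨g⟩ := fls_append m m' L L'
    apply F_to_D (n := max n n')
    refine ⟨m + m', L ++ L', ?_, ⟨?_⟩⟩
    · intro k hk
      rcases List.mem_append.1 hk with hk | hk
      · exact monoD C (le_max_left _ _) (hL k hk)
      · exact monoD C (le_max_right _ _) (hL' k hk)
    · exact e.trans ((MulEquiv.coprodCongr ea eb).trans g.symm)

end Pool.Agent.Q32.DP.NF
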