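import Pool.Agent.Q32.DP.Stm

set_option autoImplicit false

/-!
# DP-PRODL: the presentation of the direct product of a list of presentations
-/

namespace Pool.Agent.Q32.DP.PRODL

open Pool.Agent.Q223.IS

/-- the group of the empty code is trivial -/
theorem triv (x : PG (0, [])) : x = 1 := by
  have h : MonoidHom.id (PG (0, [])) = 1 := PG_ext (0, []) (fun i => by
    rw [gen_big (0, []) (Nat.zero_le i), map_one, map_one])
  exact DFunLike.congr_fun h x

/-- the product of the groups of a nonempty list -/
def consM (k : Pres) (L : List Pres) : PG k × PL L ≃* PL (k :: L) where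
  toFun x := fun i => Fin.cases (motive := fun i : Fin (L.length + 1) => PG ((k :: L).get i))
    x.1 (fun j => x.2 j) i
  invFun y := (y (0 : Fin (L.length + 1)), fun j => y (Fin.succ j : Fin (L.length + 1)))
  left_inv _ := rfl
  right_inv y := by
    funext i
    exact Fin.cases (motive := fun i : Fin (L.length + 1) =>
      (Fin.cases (motive := fun i : Fin (L.length + 1) => PG ((k :: L).get i))
        (y (0 : Fin (L.length + 1))) (fun j => y (Fin.succ j : Fin (L.length + 1))) i :
          PG ((k :: L).get i)) = y i) rfl (fun _ => rfl) i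
  map_mul' x y := by
    funext i
    exact Fin.cases (motive := fun i : Fin (L.length + 1) =>
      (Fin.cases (motive := fun i : Fin (L.length + 1) => PG ((k :: L).get i))
        (x * y).1 (fun j => (x * y).2 j) i : PG ((k :: L).get i)) =
      (Fin.cases (motive := fun i : Fin (L.length + 1) => PG ((k :: L).get i))
        x.1 (fun j => x.2 j) i : PG ((k :: L).get i)) *
      (Fin.cases (motive := fun i : Fin (L.length + 1) => PG ((k :: L).get i))
        y.1 (fun j => y.2 j) i : PG ((k :: L).get i))) rfl (fun _ => rfl) i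

/-- the empty product -/
def nilM : PG (0, []) ≃* PL [] where
  toFun _ := 1
  invFun _ := 1
  left_inv x := (triv x).symm
  right_inv y := by
    funext i
    exact absurd i.2 (Nat.not_lt_zero _)
  map_mul' _ _ := (one_mul 1).symm

theorem main (P2 : Pres → Pres → Pres)
    (hI : ∀ a b : Pres, Nonempty (PG (P2 a b) ≃* PG a × PG b)) :
    ∀ L : List Pres, Nonempty (PG (L.foldr P2 (0, [])) ≃* PL L)
  | [] => ⟨nilM⟩
  | k :: L => by
    obtain ⟨e⟩ := hI k (L.foldr P2 (0, []))
    obtain ⟨e'⟩ := main P2 hI L
    exact ⟨(e.trans ((MulEquiv.refl (PG k)).prodCongr e')).trans (consM k L)⟩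

theorem t (h : S_PROD2) : S_PRODL := by
  obtain ⟨P2, hP, hI⟩ := h
  refine ⟨fun p => P2 p.1 (p.2.foldr P2 (0, [])), ?_, ?_⟩
  · have h2 : Primrec₂ (fun (_ : Pres × List Pres) (q : Pres × Pres) => P2 q.1 q.2) :=
      (hP.comp (Primrec.fst.comp Primrec.snd) (Primrec.snd.comp Primrec.snd)).to₂
    have h3 : Primrec (fun p : Pres × List Pres => p.2.foldr (fun b s => P2 b s)
        ((0, []) : Pres)) :=
      Primrec.list_foldr Primrec.snd (Primrec.const ((0, []) : Pres)) h2
    exact hP.comp Primrec.fst h3
  · intro a L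
    obtain ⟨e⟩ := hI a (L.foldr P2 (0, []))
    obtain ⟨e'⟩ := main P2 hI L
    exact ⟨e.trans ((MulEquiv.refl (PG a)).prodCongr e')⟩

end Pool.Agent.Q32.DP.PRODL
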