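import Pool.Agent.Q32.DP.Stm2
import Pool.Agent.Helper926.RK.RELib

set_option autoImplicit false

/-!
# The classes of the presentations are recursively enumerable
-/

namespace Pool.Agent.Q32.DP.REDD

open Pool.Agent.Q223.IS Pool.Agent.Q32.DP Pool.Agent.Helper926

/-- The presentation of the infinite cyclic group. -/
def Zc : Pres := (1, [])

/-- The presentation of the trivial group. -/
def Tc : Pres := (0, [])

theorem triv (x : PG Tc) : x = 1 := by
  have h : MonoidHom.id (PG Tc) = 1 := by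
    apply PG_ext
    intro i
    rw [gen_big Tc (Nat.zero_le i)]
    rfl
  exact DFunLike.congr_fun h x

theorem cyc : Nonempty (PG Zc ≃* Multiplicative ℤ) := by
  obtain ⟨F, hF⟩ := PG_lift Zc (M := Multiplicative ℤ)
    (fun i => if i = 0 then Multiplicative.ofAdd 1 else 1)
    (fun i (hi : 1 ≤ i) => if_neg (by omega)) (fun w hw => absurd hw List.not_mem_nil)
  let G : Multiplicative ℤ →* PG Zc := zpowersHom (PG Zc) (gen Zc 0)
  have hG : G (Multiplicative.ofAdd 1) = gen Zc 0 := by
    show (zpowersHom (PG Zc) (gen Zc 0)) (Multiplicative.ofAdd 1) = _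
    rw [zpowersHom_apply]
    simp
  refine ⟨MonoidHom.toMulEquiv F G ?_ ?_⟩
  · apply PG_ext
    intro i
    rw [MonoidHom.comp_apply, hF]
    by_cases hi : i = 0
    · rw [if_pos hi, hG, hi]
      rfl
    · rw [if_neg hi, map_one]
      exact (gen_big Zc (Nat.one_le_iff_ne_zero.2 hi)).symm
  · apply MonoidHom.ext_mint
    rw [MonoidHom.comp_apply, hG, hF, if_pos rfl]
    rfl

/-- The product over a list. -/
def consE (k : Pres) (L : List Pres) : PL (k :: L) ≃* PG k × PL L where
  toFun f := (f 0, fun i => f i.succ)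
  invFun x := Fin.cons (α := fun i : Fin (k :: L).length => PG ((k :: L).get i)) x.1 x.2
  left_inv f := by
    funext i
    refine Fin.cases ?_ (fun j => ?_) i <;> rfl
  right_inv x := rfl
  map_mul' f g := rfl

/-- Free abelian groups. -/
def freeE (m : ℕ) : Multiplicative ℤ × FreeAb m ≃* FreeAb (m + 1) where
  toFun x := Multiplicative.ofAdd
    (Fin.cons (α := fun _ => ℤ) (Multiplicative.toAdd x.1) (Multiplicative.toAdd x.2))
  invFun f := (Multiplicative.ofAdd (Multiplicative.toAdd f 0),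
    Multiplicative.ofAdd fun i => Multiplicative.toAdd f i.succ)
  left_inv x := rfl
  right_inv f := by
    show (Fin.cons (α := fun _ => ℤ) _ _ : Fin (m + 1) → ℤ) = f
    funext i
    refine Fin.cases ?_ (fun j => ?_) i <;> rfl
  map_mul' x y := by
    show (Fin.cons (α := fun _ => ℤ) _ _ : Fin (m + 1) → ℤ) =
      (Fin.cons (α := fun _ => ℤ) _ _ : Fin (m + 1) → ℤ) +
      (Fin.cons (α := fun _ => ℤ) _ _ : Fin (m + 1) → ℤ)
    funext i
    refine Fin.cases ?_ (fun j => ?_) i <;> rfl

theorem prodE (L : List Pres) : ∀ m : ℕ,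
    Nonempty (PL (List.replicate m Zc ++ L) ≃* FreeAb m × PL L) := by
  intro m
  induction m with
  | zero =>
    show Nonempty (PL L ≃* FreeAb 0 × PL L)
    exact ⟨{ toFun := fun f => (1, f), invFun := fun x => x.2, left_inv := fun f => rfl,
             right_inv := fun x => Prod.ext (Subsingleton.elim (α := Fin 0 → ℤ) _ _) rfl,
             map_mul' := fun f g => Prod.ext (Subsingleton.elim (α := Fin 0 → ℤ) _ _) rfl }⟩
  | succ m ih =>
    obtain ⟨e⟩ := ih
    obtain ⟨z⟩ := cyc
    show Nonempty (PL (Zc :: (List.replicate m Zc ++ L)) ≃* FreeAb (m + 1) × PL L)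
    exact ⟨(consE Zc _).trans ((z.prodCongr e).trans (MulEquiv.prodAssoc.symm.trans
      ((freeE m).prodCongr (MulEquiv.refl _))))⟩

theorem trivE (G : Type) [Group G] : Nonempty (PG Tc × G ≃* G) :=
  ⟨{ toFun := fun x => x.2, invFun := fun g => (1, g),
     left_inv := fun x => Prod.ext (triv x.1).symm rfl, right_inv := fun g => rfl,
     map_mul' := fun x y => rfl }⟩

theorem repl_comp {α : Type} [Primcodable α] {f : α → ℕ} (hf : Primrec f) :
    Primrec fun a => List.replicate (f a) Zc := by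
  have h : Primrec fun a => (List.range (f a)).map fun _ => Zc :=
    Primrec.list_map (Primrec.list_range.comp hf) (Primrec₂.const Zc)
  refine h.of_eq ?_
  intro a
  simp

/-- One step. -/
theorem step (C E : Pres → Prop) (hC : REPred C) (hE : REPred E) (S : ℕ × List Pres → Pres)
    (hS : Primrec S) : REPred fun p : Pres => C p ∨ ∃ x : ℕ × List Pres, (∀ k ∈ x.2, E k) ∧
      2 ≤ x.1 + x.2.length ∧ Nonempty (PG p ≃* PG (S x)) := by
  refine RE.or hC ?_
  refine RE.ex (p := fun (p : Pres) (x : ℕ × List Pres) => (∀ k ∈ x.2, E k) ∧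
      2 ≤ x.1 + x.2.length ∧ Nonempty (PG p ≃* PG (S x))) ?_
  refine RE.and ?_ (RE.and ?_ ?_)
  · exact RE.all_mem (p := fun (_ : Pres × (ℕ × List Pres)) k => E k)
      (RE.comp hE Computable.snd) (l := fun x => x.2.2) (Computable.snd.comp Computable.snd)
  · exact RE.le (Computable.const 2) (Primrec.nat_add.comp (Primrec.fst.comp Primrec.snd)
      (Primrec.list_length.comp (Primrec.snd.comp Primrec.snd))).to_comp
  · exact RE.comp iso_re (f := fun x : Pres × (ℕ × List Pres) => (x.1, S x.2))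
      (Primrec.pair Primrec.fst (hS.comp Primrec.snd)).to_comp

theorem t (h1 : S_PRODL) (h2 : S_FPROD) (_h3 : S_ZNS) : S_REDD := by
  obtain ⟨P, hP, hPe⟩ := h1
  obtain ⟨Q, hQ, hQe⟩ := h2
  intro C hC n
  induction n with
  | zero =>
    constructor
    · refine hC.of_eq fun p => ?_
      rw [DD]
    · refine hC.of_eq fun p => ?_
      rw [FF]
  | succ n ih =>
    constructor
    · refine (step C (FF C n) hC ih.2 (fun x => P (Tc, List.replicate x.1 Zc ++ x.2))
        (hP.comp (Primrec.pair (Primrec.const Tc)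
          (Primrec.list_append.comp (repl_comp Primrec.fst) Primrec.snd)))).of_eq fun p => ?_
      rw [DD]
      refine or_congr Iff.rfl ?_
      have key : ∀ (m : ℕ) (L : List Pres),
          Nonempty (PG (P (Tc, List.replicate m Zc ++ L)) ≃* FreeAb m × PL L) := by
        intro m L
        obtain ⟨e⟩ := hPe Tc (List.replicate m Zc ++ L)
        obtain ⟨e'⟩ := trivE (PL (List.replicate m Zc ++ L))
        obtain ⟨e''⟩ := prodE L m
        exact ⟨e.trans (e'.trans e'')⟩
      constructor
      · rintro ⟨⟨m, L⟩, hL, hm, ⟨i⟩⟩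
        obtain ⟨e⟩ := key m L
        exact ⟨m, L, hL, hm, ⟨i.trans e⟩⟩
      · rintro ⟨m, L, hL, hm, ⟨i⟩⟩
        obtain ⟨e⟩ := key m L
        exact ⟨(m, L), hL, hm, ⟨i.trans e.symm⟩⟩
    · refine (step C (DD C n) hC ih.1 Q hQ).of_eq fun p => ?_
      rw [FF]
      refine or_congr Iff.rfl ?_
      constructor
      · rintro ⟨⟨m, L⟩, hL, hm, ⟨i⟩⟩
        obtain ⟨e⟩ := hQe m L
        exact ⟨m, L, hL, hm, ⟨i.trans e⟩⟩
      · rintro ⟨m, L, hL, hm, ⟨i⟩⟩
        obtain ⟨e⟩ := hQe m L
        exact ⟨(m, L), hL, hm, ⟨i.trans e.symm⟩⟩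

end Pool.Agent.Q32.DP.REDD
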