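import Pool.Agent.Q32.DP.ALG

set_option autoImplicit false

/-!
# Search for an isomorphism or for a certificate of non-isomorphism
-/

namespace Pool.Agent.Q32.DP.SEARCH

open Pool.Agent.Q223.IS Pool.Agent.Q32.DP Pool.Agent.Q32.DP.ALG
open Pool.Agent.Helper926 in
theorem solvable_of {N : Pres × Pres → Prop} (hN : REPred N) {C : Pres → Prop}
    (hs : ∀ p q, N (p, q) → ¬ Nonempty (PG p ≃* PG q))
    (hc : ∀ p q, C p → C q → ¬ Nonempty (PG p ≃* PG q) → N (p, q)) : Solvable C := by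
  have hr : REPred fun x : (Pres × Pres) × Bool =>
      (x.2 = true ∧ IsoP x.1) ∨ (x.2 = false ∧ N x.1) := by
    have e1 : REPred fun x : (Pres × Pres) × Bool => x.2 = true :=
      RE.eq Computable.snd (Computable.const true)
    have e2 : REPred fun x : (Pres × Pres) × Bool => x.2 = false :=
      RE.eq Computable.snd (Computable.const false)
    have e3 : REPred fun x : (Pres × Pres) × Bool => IsoP x.1 :=
      RE.comp (p := IsoP) re_iso Computable.fst
    have e4 : REPred fun x : (Pres × Pres) × Bool => N x.1 :=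
      RE.comp (p := N) hN Computable.fst
    exact RE.or (RE.and e1 e3) (RE.and e2 e4)
  obtain ⟨f, hf, hd, hm⟩ := RE.uniformize (r := fun (a : Pres × Pres) (b : Bool) =>
    (b = true ∧ IsoP a) ∨ (b = false ∧ N a)) hr
  refine ⟨f, hf, fun p p' hp hp' => ⟨fun hi => ?_, fun hi => ?_⟩⟩
  · have hi2 : IsoP (p, p') := ⟨hi⟩
    have hdom : (f (p, p')).Dom := (hd (p, p')).2 ⟨true, Or.inl ⟨rfl, hi2⟩⟩
    have hg := Part.get_mem hdom
    rcases hm _ _ hg with ⟨hb, -⟩ | ⟨hb, hy⟩
    · rwa [hb] at hg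
    · exact (hs p p' hy hi).elim
  · have hdom : (f (p, p')).Dom := (hd (p, p')).2 ⟨false, Or.inr ⟨rfl, hc p p' hp hp' hi⟩⟩
    have hg := Part.get_mem hdom
    rcases hm _ _ hg with ⟨hb, hy⟩ | ⟨hb, -⟩
    · exact (hi hy.h).elim
    · rwa [hb] at hg

end Pool.Agent.Q32.DP.SEARCH
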