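import Pool.Agent.Q32.DP.Stm2
import Pool.Agent.Q32.DP.PROD2
import Pool.Agent.Q32.DP.PRODL
import Pool.Agent.Helper926.RK.RELib

/-!
# ZNS (helper222): presentations of free abelian groups
-/

set_option autoImplicit false

namespace Pool.Agent.Q32.DP.ZNS

open Pool.Agent.Q223.IS Pool.Agent.Q32.DP

/-- a presentation of the free abelian group of rank `m` -/
def Z (m : ℕ) : Pres := Nat.rec ((0, []) : Pres) (fun _ s => PROD2.P2 (1, []) s) m

theorem Z_comp : Computable Z := by
  have h : Primrec₂ (fun (_ : ℕ) (s : Pres) => PROD2.P2 (1, []) s) :=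
    (PROD2.P2_pr.comp (Primrec.const ((1, []) : Pres)) Primrec.snd).to₂
  exact (Primrec.nat_rec₁ ((0, []) : Pres) h).to_comp

/-- the group with one generator and no relator -/
noncomputable def eOne : PG (1, []) ≃* Multiplicative ℤ :=
  ((QuotientGroup.quotientMulEquivOfEq (show Subgroup.normalClosure (relSet (1, [])) = ⊥ by
    have h : relSet (1, []) = ∅ := by
      ext g
      simp [relSet]
    rw [h]
    exact Subgroup.normalClosure_empty)).trans QuotientGroup.quotientBot).trans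
    (FreeGroup.mulEquivIntOfUnique (α := Fin 1))

/-- the empty product -/
def eZero : PG (0, []) ≃* FreeAb 0 where
  toFun _ := 1
  invFun _ := 1
  left_inv x := (PRODL.triv x).symm
  right_inv y := by
    apply Multiplicative.toAdd.injective
    funext i
    exact absurd i.2 (Nat.not_lt_zero _)
  map_mul' _ _ := (one_mul 1).symm

/-- splitting off one coordinate -/
def eSucc (m : ℕ) : Multiplicative ℤ × FreeAb m ≃* FreeAb (m + 1) where
  toFun x := Multiplicative.ofAdd (Fin.cons (Multiplicative.toAdd x.1) (Multiplicative.toAdd x.2))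
  invFun y := (Multiplicative.ofAdd (Multiplicative.toAdd y 0),
    Multiplicative.ofAdd (fun i => Multiplicative.toAdd y (Fin.succ i)))
  left_inv x := rfl
  right_inv y := by
    apply Multiplicative.toAdd.injective
    funext i
    refine Fin.cases ?_ (fun j => ?_) i
    · rfl
    · rfl
  map_mul' x y := by
    apply Multiplicative.toAdd.injective
    funext i
    refine Fin.cases ?_ (fun j => ?_) i
    · rfl
    · rfl

theorem Z_iso (m : ℕ) : Nonempty (PG (Z m) ≃* FreeAb m) := by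
  induction m with
  | zero => exact ⟨eZero⟩
  | succ m ih =>
    obtain ⟨e⟩ := ih
    obtain ⟨e'⟩ := PROD2.iso (1, []) (Z m)
    exact ⟨(e'.trans (eOne.prodCongr e)).trans (eSucc m)⟩

theorem rank_eq {m n : ℕ} (e : FreeAb m ≃* FreeAb n) : m = n := by
  have e1 : (Fin m → ℤ) ≃+ (Fin n → ℤ) := AddEquiv.toMultiplicative.symm e
  have h := e1.toIntLinearEquiv.finrank_eq
  rwa [Module.finrank_fin_fun, Module.finrank_fin_fun] at h

theorem ZN_iff (p : Pres) : ZN p ↔ ∃ m, Nonempty (PG p ≃* PG (Z m)) := by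
  constructor
  · rintro ⟨m, ⟨e⟩⟩
    obtain ⟨e'⟩ := Z_iso m
    exact ⟨m, ⟨e.trans e'.symm⟩⟩
  · rintro ⟨m, ⟨e⟩⟩
    obtain ⟨e'⟩ := Z_iso m
    exact ⟨m, ⟨e.trans e'⟩⟩

theorem ZN_re : REPred ZN := by
  refine REPred.of_eq (Pool.Agent.Helper926.RE.exN
    (p := fun (p : Pres) m => Nonempty (PG p ≃* PG (Z m))) ?_) (fun p => (ZN_iff p).symm)
  exact Pool.Agent.Helper926.RE.comp iso_re (f := fun x : Pres × ℕ => (x.1, Z x.2))
    (Computable.fst.pair (Z_comp.comp Computable.snd))

/-- the relation which the algorithm solves -/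
def R (a : Pres × Pres) (c : Bool) : Prop :=
  ∃ m n : ℕ, (Nonempty (PG a.1 ≃* PG (Z m)) ∧ Nonempty (PG a.2 ≃* PG (Z n))) ∧
    c = decide (m = n)

theorem R_re : REPred fun x : (Pres × Pres) × Bool => R x.1 x.2 := by
  unfold R
  refine Pool.Agent.Helper926.RE.exN (p := fun (x : (Pres × Pres) × Bool) m => ∃ n : ℕ,
    (Nonempty (PG x.1.1 ≃* PG (Z m)) ∧ Nonempty (PG x.1.2 ≃* PG (Z n))) ∧
      x.2 = decide (m = n)) ?_
  refine Pool.Agent.Helper926.RE.exN (p := fun (y : ((Pres × Pres) × Bool) × ℕ) n =>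
    (Nonempty (PG y.1.1.1 ≃* PG (Z y.2)) ∧ Nonempty (PG y.1.1.2 ≃* PG (Z n))) ∧
      y.1.2 = decide (y.2 = n)) ?_
  refine Pool.Agent.Helper926.RE.and (Pool.Agent.Helper926.RE.and ?_ ?_) ?_
  · exact Pool.Agent.Helper926.RE.comp iso_re
      (f := fun z : (((Pres × Pres) × Bool) × ℕ) × ℕ => (z.1.1.1.1, Z z.1.2))
      ((Computable.fst.comp (Computable.fst.comp (Computable.fst.comp Computable.fst))).pair
        (Z_comp.comp (Computable.snd.comp Computable.fst)))
  · exact Pool.Agent.Helper926.RE.comp iso_re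
      (f := fun z : (((Pres × Pres) × Bool) × ℕ) × ℕ => (z.1.1.1.2, Z z.2))
      ((Computable.snd.comp (Computable.fst.comp (Computable.fst.comp Computable.fst))).pair
        (Z_comp.comp Computable.snd))
  · refine Pool.Agent.Helper926.RE.eq
      (Computable.snd.comp (Computable.fst.comp Computable.fst)) ?_
    have h : PrimrecPred fun z : (((Pres × Pres) × Bool) × ℕ) × ℕ => z.1.2 = z.2 :=
      Primrec.eq.comp (Primrec.snd.comp Primrec.fst) Primrec.snd
    exact h.decide.to_comp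

/-- **ZNS** -/
theorem t : S_ZNS := by
  refine ⟨ZN_re, ?_⟩
  obtain ⟨f, hf, h1, h2⟩ := Pool.Agent.Helper926.RE.uniformize R_re
  refine ⟨f, hf, fun a b ha hb => ?_⟩
  obtain ⟨m, hm⟩ := (ZN_iff a).1 ha
  obtain ⟨n, hn⟩ := (ZN_iff b).1 hb
  have hd : (f (a, b)).Dom := (h1 (a, b)).2 ⟨decide (m = n), m, n, ⟨hm, hn⟩, rfl⟩
  have hg : (f (a, b)).get hd ∈ f (a, b) := Part.get_mem hd
  obtain ⟨m', n', ⟨⟨em⟩, ⟨en⟩⟩, hc⟩ := h2 (a, b) _ hg
  obtain ⟨zm⟩ := Z_iso m'
  obtain ⟨zn⟩ := Z_iso n'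
  constructor
  · rintro ⟨e⟩
    have e' : m' = n' := rank_eq (((zm.symm.trans em.symm).trans e).trans (en.trans zn))
    rw [hc, decide_eq_true e'] at hg
    exact hg
  · intro hne
    have e' : ¬ m' = n' := by
      rintro rfl
      exact hne ⟨em.trans en.symm⟩
    rw [hc, decide_eq_false e'] at hg
    exact hg

end Pool.Agent.Q32.DP.ZNS
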