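import Pool.Agent.Q32.DP.Stm3
import Pool.Agent.Q32.DP.ASM
import Pool.Agent.Q32.DP.KS
import Pool.Agent.Q32.DP.KSF
import Pool.Agent.Q32.DP.ZNS
import Pool.Agent.Q32.DP.FREE
import Pool.Agent.Q32.DP.DIR
import Pool.Agent.Q32.DP.NONMATCH

/-!
# SOUND (helper178): the rules preserve the meaning
-/

set_option autoImplicit false

namespace Pool.Agent.Q32.DP.SOUND

open Pool.Agent.Q223.IS Pool.Agent.Q32.DP

theorem succ_mono (C : Pres → Prop) (n : ℕ) :
    (∀ p, DD C n p → DD C (n + 1) p) ∧ (∀ p, FF C n p → FF C (n + 1) p) := by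
  induction n with
  | zero => exact ⟨fun p hp => Or.inl hp, fun p hp => Or.inl hp⟩
  | succ n ih =>
    constructor
    · rintro p (hp | ⟨m, L, hL, hm, he⟩)
      · exact Or.inl hp
      · exact Or.inr ⟨m, L, fun k hk => ih.2 k (hL k hk), hm, he⟩
    · rintro p (hp | ⟨m, L, hL, hm, he⟩)
      · exact Or.inl hp
      · exact Or.inr ⟨m, L, fun k hk => ih.1 k (hL k hk), hm, he⟩

/-- the levels increase -/
theorem mono (C : Pres → Prop) {n n' : ℕ} (h : n ≤ n') :
    (∀ p, DD C n p → DD C n' p) ∧ (∀ p, FF C n p → FF C n' p) := by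
  induction h with
  | refl => exact ⟨fun _ h => h, fun _ h => h⟩
  | step _ ih =>
    exact ⟨fun p hp => (succ_mono C _).1 p (ih.1 p hp), fun p hp => (succ_mono C _).2 p (ih.2 p hp)⟩

/-- a common level for finitely many members -/
theorem bound (P : ℕ → Pres → Prop) (hP : ∀ n n' p, n ≤ n' → P n p → P n' p) (L : List Pres)
    (h : ∀ k ∈ L, ∃ n, P n k) : ∃ n, ∀ k ∈ L, P n k := by
  induction L with
  | nil => exact ⟨0, by simp⟩
  | cons a L ih =>
    obtain ⟨n, hn⟩ := ih (fun k hk => h k (List.mem_cons_of_mem _ hk))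
    obtain ⟨m, hm⟩ := h a List.mem_cons_self
    refine ⟨max n m, ?_⟩
    intro k hk
    rcases List.mem_cons.1 hk with rfl | hk
    · exact hP _ _ _ (le_max_right _ _) hm
    · exact hP _ _ _ (le_max_left _ _) (hn k hk)

theorem boundF {C : Pres → Prop} {l : List Fact} (hl : ∀ x ∈ l, Mean C x) {L : List Pres}
    (hL : ∀ k ∈ L, ((1, k, k) : Fact) ∈ l) : ∃ n, ∀ k ∈ L, FF C n k :=
  bound (FF C) (fun _ _ p h => (mono C h).2 p) L (fun k hk => (hl _ (hL k hk)).2.1 rfl)

theorem boundD {C : Pres → Prop} {l : List Fact} (hl : ∀ x ∈ l, Mean C x) {L : List Pres}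
    (hL : ∀ k ∈ L, ((0, k, k) : Fact) ∈ l) : ∃ n, ∀ k ∈ L, DD C n k :=
  bound (DD C) (fun _ _ p h => (mono C h).1 p) L (fun k hk => (hl _ (hL k hk)).1 rfl)

theorem zip_mem {α β : Type} (L : List α) (u : List β) (i : ℕ) (h1 : i < L.length)
    (h2 : i < u.length) : (L[i], u[i]) ∈ L.zip u := by
  have h3 : i < (L.zip u).length := by
    rw [List.length_zip]
    exact lt_min h1 h2
  have h4 : (L.zip u)[i] = (L[i], u[i]) := List.getElem_zip
  rw [← h4]
  exact List.getElem_mem h3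

/-- labels exclude a matching -/
theorem lab_no {C : Pres → Prop} {l : List Fact} (hl : ∀ x ∈ l, Mean C x) {L L' : List Pres}
    (h : Lab l L L') (σ : Fin L.length ≃ Fin L'.length)
    (hσ : ∀ i, Nonempty (PG (L.get i) ≃* PG (L'.get (σ i)))) : False := by
  obtain ⟨u, v, hu, hv, hn, hW⟩ := h
  apply hn
  rw [List.perm_iff_count]
  intro c
  refine NONMATCH.count_of_match (((finCongr hu).trans σ).trans (finCongr hv.symm)) ?_ c
  intro i
  by_contra hne
  have mA : (L.get (finCongr hu i), u.get i) ∈ L.zip u :=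
    zip_mem L u i (by have := (finCongr hu i).2; simpa using this) i.2
  have mB : (L'.get (σ (finCongr hu i)), v.get (finCongr hv.symm (σ (finCongr hu i)))) ∈ L'.zip v :=
    zip_mem L' v (σ (finCongr hu i)) (σ (finCongr hu i)).2
      (by have := (finCongr hv.symm (σ (finCongr hu i))).2; simpa using this)
  have h1 := (hW _ (List.mem_append_left _ mA) _ (List.mem_append_right _ mB)).2 hne
  exact (hl _ h1).2.2 rfl (hσ _)

theorem t : S_SOUND := by
  rintro C f hC hf l ⟨e, p, q⟩ hl h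
  have hmem := ASM.members FREE.t (DIR.t FREE.t) C hC
  rcases h with ⟨h0, h1, h⟩ | ⟨h0, h1, h⟩ | ⟨h0, h⟩
  · simp only at h0 h1 h
    subst h0
    refine ⟨fun _ => ?_, fun h => absurd (show (_ : ℕ) = _ from h) (by simp), fun h => absurd (show (_ : ℕ) = _ from h) (by simp)⟩
    rcases h with h | ⟨m, L, hm, hL, he⟩
    · exact ⟨0, h⟩
    · obtain ⟨n, hn⟩ := boundF hl hL
      exact ⟨n + 1, Or.inr ⟨m, L, hn, hm, he⟩⟩
  · simp only at h0 h1 h
    subst h0
    refine ⟨fun h => absurd (show (_ : ℕ) = _ from h) (by simp), fun _ => ?_, fun h => absurd (show (_ : ℕ) = _ from h) (by simp)⟩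
    rcases h with h | ⟨m, L, hm, hL, he⟩
    · exact ⟨0, h⟩
    · obtain ⟨n, hn⟩ := boundD hl hL
      exact ⟨n + 1, Or.inr ⟨m, L, hn, hm, he⟩⟩
  · simp only at h0 h
    subst h0
    refine ⟨fun h => absurd (show (_ : ℕ) = _ from h) (by simp), fun h => absurd (show (_ : ℕ) = _ from h) (by simp), fun _ => ?_⟩
    rintro ⟨g⟩
    simp only at g
    rcases h with ⟨hp, hq, h⟩ | ⟨m, L, m', L', hL, hL', ⟨e1⟩, ⟨e2⟩, h⟩ |
      ⟨s, L, s', L', hL, hL', ⟨e1⟩, ⟨e2⟩, h⟩
    · exact absurd (Part.mem_unique ((hf p q hp hq).1 ⟨g⟩) h) (by decide)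
    · obtain ⟨n, hn⟩ := boundF hl hL
      obtain ⟨n', hn'⟩ := boundF hl hL'
      have hK := fun i : Fin L.length => (hmem n).2 _ (hn (L.get i) (List.get_mem L i))
      have hK' := fun i : Fin L'.length => (hmem n').2 _ (hn' (L'.get i) (List.get_mem L' i))
      obtain ⟨⟨e3⟩, σ, hσ⟩ := KS.t (FreeAb m) (FreeAb m') L.length L'.length
        (fun i => PG (L.get i)) (fun i => PG (L'.get i)) (fun x y => mul_comm x y)
        (fun x y => mul_comm x y) (fun i => (hK i).2.1) (fun i => (hK i).2.2)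
        (fun i => (hK' i).2.1) (fun i => (hK' i).2.2) ⟨(e1.symm.trans g).trans e2⟩
      rcases h with h | h
      · exact h (ZNS.rank_eq e3)
      · exact lab_no hl h σ hσ
    · obtain ⟨n, hn⟩ := boundD hl hL
      obtain ⟨n', hn'⟩ := boundD hl hL'
      have hK := fun i : Fin L.length => (hmem n).1 _ (hn (L.get i) (List.get_mem L i))
      have hK' := fun i : Fin L'.length => (hmem n').1 _ (hn' (L'.get i) (List.get_mem L' i))
      obtain ⟨e3, σ, hσ⟩ := KSF.t s s' L.length L'.length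
        (fun i => PG (L.get i)) (fun i => PG (L'.get i)) hK hK' ⟨(e1.symm.trans g).trans e2⟩
      rcases h with h | h
      · exact h e3
      · exact lab_no hl h σ hσ

end Pool.Agent.Q32.DP.SOUND
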