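import Pool.Agent.Q32.DP.Stm3
import Pool.Agent.Q32.DP.REDD
import Pool.Agent.Q32.DP.NONMATCH
import Pool.Agent.Q32.DP.PRODL
import Pool.Agent.Q32.DP.PROD2
import Pool.Agent.Q32.DP.FPROD

set_option autoImplicit false

/-!
# STEPRE (helper252): the rules are recursively enumerable and monotone
-/

namespace Pool.Agent.Q32.DP.STEPRE

open Pool.Agent.Q223.IS Pool.Agent.Q32.DP Pool.Agent.Helper926

/-- the certificates for labels -/
def LabQ (z : List Fact × (List Pres × List Pres)) : Prop :=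
  ∃ w : List (Pres × ℕ) × List (Pres × ℕ),
    (w.1.map Prod.fst = z.2.1 ∧ w.2.map Prod.fst = z.2.2) ∧
    (∀ x ∈ w.1 ++ w.2, ∀ y ∈ w.1 ++ w.2,
      (x.2 = y.2 ∧ Nonempty (PG x.1 ≃* PG y.1)) ∨
        (x.2 ≠ y.2 ∧ ((2, x.1, y.1) : Fact) ∈ z.1)) ∧
    ∃ c : ℕ, NONMATCH.cnt (w.1.map Prod.snd) c ≠ NONMATCH.cnt (w.2.map Prod.snd) c

theorem zip_map (w : List (Pres × ℕ)) : (w.map Prod.fst).zip (w.map Prod.snd) = w := by
  induction w with
  | nil => rfl
  | cons a w ih => simp [ih]

theorem lab_iff (z : List Fact × (List Pres × List Pres)) :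
    LabQ z ↔ Lab z.1 z.2.1 z.2.2 := by
  constructor
  · rintro ⟨w, ⟨h1, h2⟩, h3, c, hc⟩
    refine ⟨w.1.map Prod.snd, w.2.map Prod.snd, by rw [← h1]; simp, by rw [← h2]; simp, ?_, ?_⟩
    · intro hp
      apply hc
      rw [NONMATCH.cnt_eq, NONMATCH.cnt_eq, hp.count_eq]
    · rw [← h1, ← h2, zip_map, zip_map]
      intro x hx y hy
      rcases h3 x hx y hy with h | h
      · exact ⟨fun _ => h.2, fun hne => absurd h.1 hne⟩
      · exact ⟨fun he => absurd he h.1, fun _ => h.2⟩
  · rintro ⟨u, v, hu, hv, huv, h⟩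
    refine ⟨(z.2.1.zip u, z.2.2.zip v),
      ⟨List.map_fst_zip (le_of_eq hu.symm), List.map_fst_zip (le_of_eq hv.symm)⟩, ?_, ?_⟩
    · intro x hx y hy
      obtain ⟨h1, h2⟩ := h x hx y hy
      by_cases hxy : x.2 = y.2
      · exact Or.inl ⟨hxy, h1 hxy⟩
      · exact Or.inr ⟨hxy, h2 hxy⟩
    · by_contra hcon
      push Not at hcon
      apply huv
      rw [List.perm_iff_count]
      intro c
      have := hcon c
      rwa [NONMATCH.cnt_eq, NONMATCH.cnt_eq, List.map_snd_zip (le_of_eq hu),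
        List.map_snd_zip (le_of_eq hv)] at this

theorem LabQ_re : REPred LabQ := by
  unfold LabQ
  refine RE.ex (α := List Fact × (List Pres × List Pres))
    (β := List (Pres × ℕ) × List (Pres × ℕ)) (p := fun z w =>
    (w.1.map Prod.fst = z.2.1 ∧ w.2.map Prod.fst = z.2.2) ∧
    (∀ x ∈ w.1 ++ w.2, ∀ y ∈ w.1 ++ w.2,
      (x.2 = y.2 ∧ Nonempty (PG x.1 ≃* PG y.1)) ∨
        (x.2 ≠ y.2 ∧ ((2, x.1, y.1) : Fact) ∈ z.1)) ∧
    ∃ c : ℕ, NONMATCH.cnt (w.1.map Prod.snd) c ≠ NONMATCH.cnt (w.2.map Prod.snd) c) ?_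
  refine RE.and (RE.and ?_ ?_) (RE.and ?_ ?_)
  · exact RE.eq (RE.cmapfst (Computable.fst.comp Computable.snd))
      (Computable.fst.comp (Computable.snd.comp Computable.fst))
  · exact RE.eq (RE.cmapfst (Computable.snd.comp Computable.snd))
      (Computable.snd.comp (Computable.snd.comp Computable.fst))
  · refine RE.all_mem
      (α := (List Fact × (List Pres × List Pres)) × (List (Pres × ℕ) × List (Pres × ℕ)))
      (β := Pres × ℕ) (l := fun a => a.2.1 ++ a.2.2)
      (p := fun a x => ∀ y ∈ a.2.1 ++ a.2.2,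
      (x.2 = y.2 ∧ Nonempty (PG x.1 ≃* PG y.1)) ∨
        (x.2 ≠ y.2 ∧ ((2, x.1, y.1) : Fact) ∈ a.1.1)) ?_ ?_
    · refine RE.all_mem
        (α := ((List Fact × (List Pres × List Pres)) ×
          (List (Pres × ℕ) × List (Pres × ℕ))) × (Pres × ℕ))
        (β := Pres × ℕ) (l := fun a => a.1.2.1 ++ a.1.2.2)
        (p := fun a y =>
        (a.2.2 = y.2 ∧ Nonempty (PG a.2.1 ≃* PG y.1)) ∨
          (a.2.2 ≠ y.2 ∧ ((2, a.2.1, y.1) : Fact) ∈ a.1.1.1)) ?_ ?_
      · have hx : Computable fun b : (((List Fact × (List Pres × List Pres)) ×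
            (List (Pres × ℕ) × List (Pres × ℕ))) × (Pres × ℕ)) × (Pres × ℕ) => b.1.2 :=
          Computable.snd.comp Computable.fst
        have hy : Computable fun b : (((List Fact × (List Pres × List Pres)) ×
            (List (Pres × ℕ) × List (Pres × ℕ))) × (Pres × ℕ)) × (Pres × ℕ) => b.2 :=
          Computable.snd
        have hl : Computable fun b : (((List Fact × (List Pres × List Pres)) ×
            (List (Pres × ℕ) × List (Pres × ℕ))) × (Pres × ℕ)) × (Pres × ℕ) => b.1.1.1.1 :=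
          Computable.fst.comp (Computable.fst.comp (Computable.fst.comp Computable.fst))
        refine RE.or (RE.and ?_ ?_) (RE.and ?_ ?_)
        · exact RE.eq (Computable.snd.comp hx) (Computable.snd.comp hy)
        · exact RE.comp iso_re (f := fun b : (((List Fact × (List Pres × List Pres)) ×
            (List (Pres × ℕ) × List (Pres × ℕ))) × (Pres × ℕ)) × (Pres × ℕ) => (b.1.2.1, b.2.1))
            ((Computable.fst.comp hx).pair (Computable.fst.comp hy))
        · exact RE.ne (Computable.snd.comp hx) (Computable.snd.comp hy)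
        · exact RE.mem_list (f := fun b : (((List Fact × (List Pres × List Pres)) ×
            (List (Pres × ℕ) × List (Pres × ℕ))) × (Pres × ℕ)) × (Pres × ℕ) =>
            ((2, b.1.2.1, b.2.1) : Fact)) (l := fun b => b.1.1.1.1) ((Computable.const 2).pair
            ((Computable.fst.comp hx).pair (Computable.fst.comp hy))) hl
      · exact Computable.list_append.comp
          (Computable.fst.comp (Computable.snd.comp Computable.fst))
          (Computable.snd.comp (Computable.snd.comp Computable.fst))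
    · exact Computable.list_append.comp (Computable.fst.comp Computable.snd)
        (Computable.snd.comp Computable.snd)
  · refine RE.exN
      (α := (List Fact × (List Pres × List Pres)) × (List (Pres × ℕ) × List (Pres × ℕ)))
      (p := fun a c => NONMATCH.cnt (a.2.1.map Prod.snd) c ≠
        NONMATCH.cnt (a.2.2.map Prod.snd) c) ?_
    refine RE.ne (NONMATCH.cnt_comp ?_ Computable.snd) (NONMATCH.cnt_comp ?_ Computable.snd)
    · exact RE.cmapsnd (Computable.fst.comp (Computable.snd.comp Computable.fst))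
    · exact RE.cmapsnd (Computable.snd.comp (Computable.snd.comp Computable.fst))

theorem lab_re : REPred fun z : List Fact × (List Pres × List Pres) =>
    Lab z.1 z.2.1 z.2.2 := LabQ_re.of_eq lab_iff

section

variable {γ : Type} [Primcodable γ]

/-- all the members are in the list of facts -/
theorem mem_re (c : ℕ) {L : γ → List Pres} {l : γ → List Fact} (hL : Computable L)
    (hl : Computable l) : REPred fun z : γ => ∀ k ∈ L z, ((c, k, k) : Fact) ∈ l z := by
  refine RE.all_mem (p := fun z k => ((c, k, k) : Fact) ∈ l z) ?_ hL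
  exact RE.mem_list ((Computable.const c).pair (Computable.snd.pair Computable.snd))
    (hl.comp Computable.fst)

/-- isomorphism with the group of a normal form -/
theorem isoS_re {S : ℕ × List Pres → Pres} (hS : Primrec S) {g : γ → Pres}
    {x : γ → ℕ × List Pres} (hg : Computable g) (hx : Computable x) :
    REPred fun z : γ => Nonempty (PG (g z) ≃* PG (S (x z))) :=
  RE.comp iso_re (f := fun z : γ => (g z, S (x z))) (hg.pair (hS.to_comp.comp hx))

end

/-- the first two rules -/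
theorem rule01 (c d : ℕ) {C : Pres → Prop} (hC : REPred C) {S : ℕ × List Pres → Pres}
    (hS : Primrec S) : REPred fun z : List Fact × Fact =>
      z.2.1 = d ∧ z.2.2.1 = z.2.2.2 ∧ (C z.2.2.1 ∨ ∃ x : ℕ × List Pres, 2 ≤ x.1 + x.2.length ∧
        (∀ k ∈ x.2, ((c, k, k) : Fact) ∈ z.1) ∧ Nonempty (PG z.2.2.1 ≃* PG (S x))) := by
  have h1 : Computable fun z : List Fact × Fact => z.2.2.1 :=
    Computable.fst.comp (Computable.snd.comp Computable.snd)
  have h2 : Computable fun z : List Fact × Fact => z.2.2.2 :=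
    Computable.snd.comp (Computable.snd.comp Computable.snd)
  refine RE.and (RE.eq (Computable.fst.comp Computable.snd) (Computable.const d))
    (RE.and (RE.eq h1 h2) (RE.or (RE.comp hC h1) ?_))
  refine RE.ex (p := fun (z : List Fact × Fact) (x : ℕ × List Pres) => 2 ≤ x.1 + x.2.length ∧
        (∀ k ∈ x.2, ((c, k, k) : Fact) ∈ z.1) ∧ Nonempty (PG z.2.2.1 ≃* PG (S x))) ?_
  refine RE.and ?_ (RE.and ?_ ?_)
  · exact RE.le (Computable.const 2) (Primrec.nat_add.comp (Primrec.fst.comp Primrec.snd)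
      (Primrec.list_length.comp (Primrec.snd.comp Primrec.snd))).to_comp
  · exact mem_re c (Computable.snd.comp Computable.snd) (Computable.fst.comp Computable.fst)
  · exact isoS_re hS (h1.comp Computable.fst) Computable.snd

/-- the last two rules -/
theorem rule2 (c : ℕ) {S : ℕ × List Pres → Pres}
    (hS : Primrec S) : REPred fun z : List Fact × Fact =>
      ∃ w : (ℕ × List Pres) × (ℕ × List Pres), (∀ k ∈ w.1.2, ((c, k, k) : Fact) ∈ z.1) ∧
        (∀ k ∈ w.2.2, ((c, k, k) : Fact) ∈ z.1) ∧ Nonempty (PG z.2.2.1 ≃* PG (S w.1)) ∧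
        Nonempty (PG z.2.2.2 ≃* PG (S w.2)) ∧ (w.1.1 ≠ w.2.1 ∨ Lab z.1 w.1.2 w.2.2) := by
  refine RE.ex (p := fun (z : List Fact × Fact) (w : (ℕ × List Pres) × (ℕ × List Pres)) =>
        (∀ k ∈ w.1.2, ((c, k, k) : Fact) ∈ z.1) ∧
        (∀ k ∈ w.2.2, ((c, k, k) : Fact) ∈ z.1) ∧ Nonempty (PG z.2.2.1 ≃* PG (S w.1)) ∧
        Nonempty (PG z.2.2.2 ≃* PG (S w.2)) ∧ (w.1.1 ≠ w.2.1 ∨ Lab z.1 w.1.2 w.2.2)) ?_
  have hz : Computable fun a : (List Fact × Fact) × ((ℕ × List Pres) × (ℕ × List Pres)) =>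
      a.1.1 := Computable.fst.comp Computable.fst
  have h1 : Computable fun a : (List Fact × Fact) × ((ℕ × List Pres) × (ℕ × List Pres)) =>
      a.1.2.2.1 := Computable.fst.comp (Computable.snd.comp (Computable.snd.comp Computable.fst))
  have h2 : Computable fun a : (List Fact × Fact) × ((ℕ × List Pres) × (ℕ × List Pres)) =>
      a.1.2.2.2 := Computable.snd.comp (Computable.snd.comp (Computable.snd.comp Computable.fst))
  have w1 : Computable fun a : (List Fact × Fact) × ((ℕ × List Pres) × (ℕ × List Pres)) =>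
      a.2.1 := Computable.fst.comp Computable.snd
  have w2 : Computable fun a : (List Fact × Fact) × ((ℕ × List Pres) × (ℕ × List Pres)) =>
      a.2.2 := Computable.snd.comp Computable.snd
  refine RE.and ?_ (RE.and ?_ (RE.and ?_ (RE.and ?_ (RE.or ?_ ?_))))
  · exact mem_re c (Computable.snd.comp w1) hz
  · exact mem_re c (Computable.snd.comp w2) hz
  · exact isoS_re hS h1 w1
  · exact isoS_re hS h2 w2
  · exact RE.ne (Computable.fst.comp w1) (Computable.fst.comp w2)
  · exact RE.comp lab_re (f := fun a : (List Fact × Fact) ×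
      ((ℕ × List Pres) × (ℕ × List Pres)) => (a.1.1, (a.2.1.2, a.2.2.2)))
      (hz.pair ((Computable.snd.comp w1).pair (Computable.snd.comp w2)))

theorem lab_mono {l l' : List Fact} (h : ∀ x ∈ l, x ∈ l') {L L' : List Pres}
    (hl : Lab l L L') : Lab l' L L' := by
  obtain ⟨u, v, hu, hv, huv, h1⟩ := hl
  exact ⟨u, v, hu, hv, huv, fun x hx y hy =>
    ⟨(h1 x hx y hy).1, fun hne => h _ ((h1 x hx y hy).2 hne)⟩⟩

theorem t : S_STEPRE := by
  intro C f hC hf
  constructor
  · obtain ⟨P, hP, hPe⟩ := PRODL.t PROD2.t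
    obtain ⟨Q, hQ, hQe⟩ := FPROD.t
    have key : ∀ (m : ℕ) (L : List Pres),
        Nonempty (PG (P (REDD.Tc, List.replicate m REDD.Zc ++ L)) ≃* FreeAb m × PL L) := by
      intro m L
      obtain ⟨e⟩ := hPe REDD.Tc (List.replicate m REDD.Zc ++ L)
      obtain ⟨e'⟩ := REDD.trivE (PL (List.replicate m REDD.Zc ++ L))
      obtain ⟨e''⟩ := REDD.prodE L m
      exact ⟨e.trans (e'.trans e'')⟩
    let S : ℕ × List Pres → Pres := fun x => P (REDD.Tc, List.replicate x.1 REDD.Zc ++ x.2)
    have hS : Primrec S := hP.comp (Primrec.pair (Primrec.const REDD.Tc)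
      (Primrec.list_append.comp (REDD.repl_comp Primrec.fst) Primrec.snd))
    have eS : ∀ (p : Pres) (m : ℕ) (L : List Pres),
        Nonempty (PG p ≃* PG (S (m, L))) ↔ Nonempty (PG p ≃* FreeAb m × PL L) := by
      intro p m L
      obtain ⟨e⟩ := key m L
      exact ⟨fun ⟨i⟩ => ⟨i.trans e⟩, fun ⟨i⟩ => ⟨i.trans e.symm⟩⟩
    have eQ : ∀ (p : Pres) (s : ℕ) (L : List Pres),
        Nonempty (PG p ≃* PG (Q (s, L))) ↔ Nonempty (PG p ≃* FLs s L) := by
      intro p m L
      obtain ⟨e⟩ := hQe m L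
      exact ⟨fun ⟨i⟩ => ⟨i.trans e⟩, fun ⟨i⟩ => ⟨i.trans e.symm⟩⟩
    have h1 : Computable fun z : List Fact × Fact => z.2.2.1 :=
      Computable.fst.comp (Computable.snd.comp Computable.snd)
    have h2 : Computable fun z : List Fact × Fact => z.2.2.2 :=
      Computable.snd.comp (Computable.snd.comp Computable.snd)
    have hc : REPred fun z : List Fact × Fact =>
        C z.2.2.1 ∧ C z.2.2.2 ∧ false ∈ f (z.2.2.1, z.2.2.2) :=
      RE.and (RE.comp hC h1) (RE.and (RE.comp hC h2) (NONMATCH.re_mem hf false (h1.pair h2)))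
    refine (RE.or (rule01 1 0 hC hS) (RE.or (rule01 0 1 hC hQ)
      (RE.and (RE.eq (Computable.fst.comp Computable.snd) (Computable.const 2))
        (RE.or hc (RE.or (rule2 1 hS) (rule2 0 hQ)))))).of_eq fun z => ?_
    unfold StepR
    simp only [Prod.exists, eS, eQ]
  · intro l l' e h hst
    rcases hst with ⟨h0, h1, h2⟩ | ⟨h0, h1, h2⟩ | ⟨h0, h2⟩
    · refine Or.inl ⟨h0, h1, ?_⟩
      rcases h2 with h2 | ⟨m, L, a, b, c⟩
      · exact Or.inl h2
      · exact Or.inr ⟨m, L, a, fun k hk => h _ (b k hk), c⟩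
    · refine Or.inr (Or.inl ⟨h0, h1, ?_⟩)
      rcases h2 with h2 | ⟨m, L, a, b, c⟩
      · exact Or.inl h2
      · exact Or.inr ⟨m, L, a, fun k hk => h _ (b k hk), c⟩
    · refine Or.inr (Or.inr ⟨h0, ?_⟩)
      rcases h2 with h2 | ⟨m, L, m', L', a, b, c, d, g⟩ | ⟨m, L, m', L', a, b, c, d, g⟩
      · exact Or.inl h2
      · exact Or.inr (Or.inl ⟨m, L, m', L', fun k hk => h _ (a k hk), fun k hk => h _ (b k hk),
          c, d, g.imp id (lab_mono h)⟩)
      · exact Or.inr (Or.inr ⟨m, L, m', L', fun k hk => h _ (a k hk), fun k hk => h _ (b k hk),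
          c, d, g.imp id (lab_mono h)⟩)

end Pool.Agent.Q32.DP.STEPRE
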