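import Pool.Agent.Q223.IS.RE

set_option autoImplicit false

/-!
# Direct products and the isomorphism problem: definitions and parts

Hand-in `MP_32d917_al.DirectProducts` (helper32). Finite presentations are coded by pairs
`(n, list of relators)`, see `Pool.Agent.Q223.IS.Code`; `PG a` is the group of the code `a`,
`Wd = List (ℕ × Bool)` are the words. `iso_re` (in `Pool.Agent.Q223.IS.RE`) says that isomorphism of
two codes is recursively enumerable.
-/

namespace Pool.Agent.Q32.DP

open Pool.Agent.Q223.IS

/-- Codes of finite presentations. -/
abbrev Pres : Type := ℕ × List Wd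

/-- The direct product of the groups of a list of presentations. -/
abbrev PL (L : List Pres) : Type := (i : Fin L.length) → PG (L.get i)

/-- Trivial centre. -/
def Centerless (G : Type) [Group G] : Prop := ∀ z : G, (∀ g : G, z * g = g * z) → z = 1

/-- Nontrivial and not a direct product of two nontrivial groups. -/
def Indecomposable (G : Type) [Group G] : Prop :=
  (∃ g : G, g ≠ 1) ∧ ∀ (A B : Type) [Group A] [Group B], Nonempty (G ≃* A × B) →
    (∀ a : A, a = 1) ∨ (∀ b : B, b = 1)

/-- The isomorphism problem is solvable on the class `C` of presentations (a promise problem). -/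
def Solvable (C : Pres → Prop) : Prop :=
  ∃ f : Pres × Pres →. Bool, Partrec f ∧ ∀ a b, C a → C b →
    (Nonempty (PG a ≃* PG b) → true ∈ f (a, b)) ∧ (¬ Nonempty (PG a ≃* PG b) → false ∈ f (a, b))

/-- The presentations of the groups `A × K 1 × ... × K r` with `A` in the class `CA` and all `K i` in
the class `CK` (`r = 0` allowed). -/
def Prods (CA CK : Pres → Prop) (p : Pres) : Prop :=
  ∃ (a : Pres) (L : List Pres), CA a ∧ (∀ k ∈ L, CK k) ∧ Nonempty (PG p ≃* PG a × PL L)

/-- PROD2: the presentation of the direct product of two presentations.

Proof: for codes `a = (n, R)`, `b = (m, S)` take `n + m` generators, the relators of `a` with the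
letters `(i, ε)`, `i ≥ n` removed (they are deleted in `relSet`, but would be alive in the larger
code), the relators of `b` with the letters `i ≥ m` removed and the others shifted by `n`, and the
commutators `cmw [(i, true)] [(n + j, true)]` for `i < n`, `j < m` (`cmw` is in `IS.Code`).
`PG_lift` of `IS.Asm`/`IS.Code` gives the homomorphism to `PG a × PG b`
(generators `i < n` to `(gen a i, 1)`, `n + j` to `(1, gen b j)`), and homomorphisms
`PG a → PG c`, `PG b → PG c` with commuting images, hence `PG a × PG b → PG c`
(`MonoidHom.noncommCoprod`); they are inverse to each other on the generators. Primitive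
recursiveness: `List.filter`/`flatMap`/`map`/`range` of primitive recursive functions. -/
def S_PROD2 : Prop := ∃ P2 : Pres → Pres → Pres, Primrec₂ P2 ∧
  ∀ a b : Pres, Nonempty (PG (P2 a b) ≃* PG a × PG b)

/-- PRODL: the same for lists.

Proof: `PLc L = L.foldr P2 (0, [])` (`Primrec.list_foldr`); `PG (0, [])` is trivial; induction on `L`
with `PL (k :: L) ≃* PG k × PL L` (`Fin.consEquiv`, `MulEquiv.mk'`) and `PL [] ≃* PUnit`. -/
def S_PRODL : Prop := ∃ P : Pres × List Pres → Pres, Primrec P ∧
  ∀ (a : Pres) (L : List Pres), Nonempty (PG (P (a, L)) ≃* PG a × PL L)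

/-- KS: unique decomposition (Krull, Remak, Schmidt) for an abelian factor and centreless
directly indecomposable factors. -/
def S_KS : Prop := ∀ (A A' : Type) [Group A] [Group A'] (m n : ℕ) (K : Fin m → Type) (L : Fin n → Type)
  [∀ i, Group (K i)] [∀ j, Group (L j)],
  (∀ x y : A, x * y = y * x) → (∀ x y : A', x * y = y * x) →
  (∀ i, Centerless (K i)) → (∀ i, Indecomposable (K i)) →
  (∀ j, Centerless (L j)) → (∀ j, Indecomposable (L j)) →
  Nonempty (A × (∀ i, K i) ≃* A' × (∀ j, L j)) →
  Nonempty (A ≃* A') ∧ ∃ σ : Fin m ≃ Fin n, ∀ i, Nonempty (K i ≃* L (σ i))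

/-- CANC: centreless directly indecomposable groups can be cancelled in direct products. -/
def S_CANC : Prop := ∀ (G H K : Type) [Group G] [Group H] [Group K],
  Centerless K → Indecomposable K → Nonempty (G × K ≃* H × K) → Nonempty (G ≃* H)

/-- NONMATCH: the complement of the matching relation is recursively enumerable (given a solution `f`
of the isomorphism problem on `CK`): for lists `L`, `L'` with all members in `CK` the relation
`Q (L, L')` holds iff there is no bijection matching isomorphic members.

Proof: `Q (L, L')` := there are lists of labels `u v : List ℕ`, `u.length = L.length`,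
`v.length = L'.length`, and for the list `W = (L.zip u) ++ (L'.zip v)`: for all `x, y ∈ W`
with `x.2 = y.2` one has `true ∈ f (x.1, y.1)`, for all `x, y ∈ W` with `x.2 ≠ y.2` one has
`false ∈ f (x.1, y.1)`, and `¬ u.Perm v` (decidable; e.g. some `c ∈ u ++ v` with
`u.count c ≠ v.count c`). If the members are in `CK` then equal labels mean isomorphic members, so a
matching of `L` and `L'` gives `u.Perm v`; conversely without a matching choose the labels by a
representative of the isomorphism class (for instance the least index in `L ++ L'` of an isomorphic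
member); `u.Perm v` would give a matching. Recursively enumerable: the closure lemmas for
`REPred` (for example in `Pool.Agent.Helper926.RK.RELib`, `∀ b ∈ l a, p a b`), `∃`, `∧`, and
`true ∈ f z` for partial recursive `f`. -/
def S_NONMATCH : Prop := ∀ (CK : Pres → Prop) (f : Pres × Pres →. Bool), Partrec f →
  (∀ a b, CK a → CK b →
    (Nonempty (PG a ≃* PG b) → true ∈ f (a, b)) ∧ (¬ Nonempty (PG a ≃* PG b) → false ∈ f (a, b))) →
  ∃ Q : List Pres × List Pres → Prop, REPred Q ∧ ∀ L L' : List Pres,
    (∀ k ∈ L, CK k) → (∀ k ∈ L', CK k) →
    (Q (L, L') ↔ ¬ ∃ σ : Fin L.length ≃ Fin L'.length, ∀ i, Nonempty (PG (L.get i) ≃* PG (L'.get (σ i))))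

/-- ALG: the isomorphism problem on the products.

Proof: let `fA`, `fK` be the solutions on `CA`, `CK`. Isomorphism of `(p, p')` is r.e. (`iso_re`).
Non-isomorphism of two codes satisfying the promise `Prods CA CK` is given by the r.e. relation
`N (p, p')`: there are `a, L, a', L'` with `CA a`, `CA a'`, all members of `L` and `L'` in `CK`
(r.e. by hypothesis), `PG p ≃* PG (P (a, L))`, `PG p' ≃* PG (P (a', L'))` (`iso_re`, with `P` from
`S_PRODL`), and (`false ∈ fA (a, a')` or `Q (L, L')`). By `S_KS` the relation `N (p, p')` excludes an
isomorphism; conversely if `p`, `p'` satisfy the promise and are not isomorphic then `N (p, p')`: take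
the decompositions; if `PG a ≃* PG a'` and the lists were matched then `p`, `p'` would be isomorphic.
Finally `f` searches for a certificate of one of the two r.e. relations (`Partrec.merge'` or
`REPred`/`rfindOpt`; the two relations exclude each other). -/
def S_ALG : Prop := ∀ CA CK : Pres → Prop, REPred CA → REPred CK →
  (∀ a, CA a → ∀ x y : PG a, x * y = y * x) →
  (∀ k, CK k → Centerless (PG k) ∧ Indecomposable (PG k)) →
  Solvable CA → Solvable CK → Solvable (Prods CA CK)

end Pool.Agent.Q32.DP
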