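import Pool.Agent.Q32.DP.Stm

set_option autoImplicit false

/-!
# Direct and free products and the isomorphism problem: second part

Hand-in `MP_32d917_al` (helper32): groups built from a class with solvable isomorphism problem by
direct and free products. Notation as in `Pool.Agent.Q32.DP.Stm`.
-/

namespace Pool.Agent.Q32.DP

open Pool.Agent.Q223.IS

/-- Torsion-free. -/
def TFree (G : Type) [Group G] : Prop := ∀ g : G, g ≠ 1 → ∀ n : ℕ, n ≠ 0 → g ^ n ≠ 1

/-- Nontrivial and not a free product of two nontrivial groups. -/
def FreelyIndec (G : Type) [Group G] : Prop :=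
  (∃ g : G, g ≠ 1) ∧ ∀ (A B : Type) [Group A] [Group B], Nonempty (G ≃* Monoid.Coprod A B) →
    (∀ a : A, a = 1) ∨ (∀ b : B, b = 1)

/-- Cyclic (possibly trivial). -/
def Cyclic (G : Type) [Group G] : Prop := ∃ g : G, ∀ x : G, ∃ n : ℤ, x = g ^ n

/-- Free abelian groups. -/
abbrev FreeAb (m : ℕ) : Type := Multiplicative (Fin m → ℤ)

/-- The free product of the groups of a list of presentations and a free group of rank `s`. -/
abbrev FLs (s : ℕ) (L : List Pres) : Type :=
  Monoid.Coprod (Monoid.CoprodI (fun i : Fin L.length => PG (L.get i))) (FreeGroup (Fin s))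

/-- The presentations of the groups `K 1 * ... * K r * F s` with all `K i` in the class `C`. -/
def FreeProds (C : Pres → Prop) (p : Pres) : Prop :=
  ∃ (s : ℕ) (L : List Pres), (∀ k ∈ L, C k) ∧ Nonempty (PG p ≃* FLs s L)

/-- The presentations of free abelian groups. -/
def ZN (p : Pres) : Prop := ∃ m : ℕ, Nonempty (PG p ≃* FreeAb m)

/-- FPROD: presentations of free products, primitive recursive.

Proof: binary case as `PROD2` without the commutator relators (see `Pool.Agent.Q32.DP.PROD2`, the
functions there can be reused): `P2 a b` with `PG (P2 a b) ≃* Monoid.Coprod (PG a) (PG b)` by the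
universal properties (`PG_lift`, `Monoid.Coprod.lift`). Start from `(s, [])` (free group of rank `s`)
and fold over the list; `CoprodI` over `Fin (L.length + 1)` is the free product of the first group and
the rest (universal properties, `Monoid.CoprodI.lift`). -/
def S_FPROD : Prop := ∃ P : ℕ × List Pres → Pres, Primrec P ∧
  ∀ (s : ℕ) (L : List Pres), Nonempty (PG (P (s, L)) ≃* FLs s L)

/-- KSF: uniqueness of free decompositions (torsion-free case).

Proof: `Pool.Agent.Q281.KG.kurosh` (module `Pool.Agent.Q281.KG.Kurosh`): a torsion-free, freely
indecomposable, noncyclic subgroup of `Coprod C D` lies in a conjugate of one of the factors. By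
induction on the number of factors (split off one factor at a time; a free group of finite rank is
an iterated free product of infinite cyclic groups, and a noncyclic group does not embed in a cyclic
group) every such subgroup of `CoprodI L * F s'` lies in a conjugate of one `L j`. Identify the two
groups. `K i` lies in a conjugate of `L (σ i)`, `L j` in a conjugate of `K (τ j)`; so `K i` lies in a
conjugate of `K (τ (σ i))`. Retract on `K i` (killing all other factors): if `τ (σ i) ≠ i` the
image of `K i` would be trivial; so `τ (σ i) = i`, and if `g K i g⁻¹` contains `K i` then it equals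
`K i` (the retraction `ρ` on `K i`: for `x` in `K i`, `x = g y g⁻¹` with `y` in `K i`,
`x = ρ g y (ρ g)⁻¹`; hence the inclusion `K i ≤ g K i g⁻¹` and `K i → K i`, `x ↦ y` is conjugation by
`(ρ g)⁻¹`, surjective; so equality holds). So `K i` is equal to a conjugate of `L (σ i)`:
`K i ≤ g L (σ i) g⁻¹ ≤ g h K i h⁻¹ g⁻¹` with equality between the ends. Hence `K i ≃* L (σ i)` and `σ`
is a bijection with inverse `τ`. The normal closures of all the `K i` and of all the `L j`
coincide, the quotients are free of ranks `s` and `s'`; so `s = s'` (abelianisation). -/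
def S_KSF : Prop := ∀ (s s' m n : ℕ) (K : Fin m → Type) (L : Fin n → Type)
  [∀ i, Group (K i)] [∀ j, Group (L j)],
  (∀ i, TFree (K i) ∧ FreelyIndec (K i) ∧ ¬ Cyclic (K i)) →
  (∀ j, TFree (L j) ∧ FreelyIndec (L j) ∧ ¬ Cyclic (L j)) →
  Nonempty (Monoid.Coprod (Monoid.CoprodI K) (FreeGroup (Fin s)) ≃*
    Monoid.Coprod (Monoid.CoprodI L) (FreeGroup (Fin s'))) →
  s = s' ∧ ∃ σ : Fin m ≃ Fin n, ∀ i, Nonempty (K i ≃* L (σ i))

/-- ALGF: the isomorphism problem on free products. Proof: as `S_ALG` (see
`Pool.Agent.Q32.DP.ALG`), with the number `s` in place of the abelian group. -/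
def S_ALGF : Prop := ∀ C : Pres → Prop, REPred C →
  (∀ k, C k → TFree (PG k) ∧ FreelyIndec (PG k) ∧ ¬ Cyclic (PG k)) →
  Solvable C → Solvable (FreeProds C)

/-- FREE: nontrivial free products of torsion-free groups.

Proof: torsion-free: an element of finite order of a free product is conjugate to an element of a
factor (or: the map to `A × B` has a free kernel: Kurosh; or reduced words). Commuting elements: if
`1 ≠ x = inl a` commutes with `y` then `y` is in `inl A` (reduced words). So the centre is trivial and
the group is not cyclic. Directly indecomposable: let `Coprod A B = U × V`, `U, V` nontrivial; let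
`1 ≠ a`, `inl a = (u, v)`; the centraliser of `inl a` is contained in `inl A` and contains `(u, 1)` and
`(1, v)`, one of them nontrivial, say `(u, 1) ∈ inl A`; its centraliser contains `V`, so
`V ≤ inl A`; the centraliser of an element `≠ 1` of `V` contains `U`, so `U ≤ inl A`; hence
everything is in `inl A`, a contradiction. -/
def S_FREE : Prop := ∀ (A B : Type) [Group A] [Group B], TFree A → TFree B →
  (∃ a : A, a ≠ 1) → (∃ b : B, b ≠ 1) →
  TFree (Monoid.Coprod A B) ∧ Centerless (Monoid.Coprod A B) ∧ Indecomposable (Monoid.Coprod A B) ∧
    ¬ Cyclic (Monoid.Coprod A B)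

/-- DIR: nontrivial direct products of torsion-free groups.

Proof: noncyclic: if `(a, 1)` and `(1, b)` are powers of `(c, d)` then, both exponents being nonzero,
`d = 1` and `c = 1` by torsion-freeness. Freely indecomposable: let `A × B = Coprod C D`, `C, D`
nontrivial (torsion-free, being subgroups); by `S_FREE` the free product is directly
indecomposable. -/
def S_DIR : Prop := ∀ (A B : Type) [Group A] [Group B], TFree A → TFree B →
  (∃ a : A, a ≠ 1) → (∃ b : B, b ≠ 1) →
  TFree (A × B) ∧ FreelyIndec (A × B) ∧ ¬ Cyclic (A × B)

/-- ZNS: free abelian groups.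

Proof: `Z m = (m, all commutators of two generators)` is a primitive recursive presentation of
`FreeAb m`; so `ZN` is r.e. (`iso_re`); `FreeAb m ≃* FreeAb n` only for `m = n`
(`Module.finrank`); the algorithm searches for `m`, `n` with `PG p ≃* PG (Z m)`, `PG q ≃* PG (Z n)`
and compares them. -/
def S_ZNS : Prop := REPred ZN ∧ Solvable ZN

mutual
/-- The presentations of groups in `C`, or direct products with at least two factors which are
infinite cyclic or free products of the level below. -/
def DD (C : Pres → Prop) : ℕ → Pres → Prop
  | 0, p => C p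
  | n + 1, p => C p ∨ ∃ (m : ℕ) (L : List Pres), (∀ k ∈ L, FF C n k) ∧ 2 ≤ m + L.length ∧
      Nonempty (PG p ≃* FreeAb m × PL L)

/-- The presentations of groups in `C`, or free products with at least two factors which are
infinite cyclic or direct products of the level below. -/
def FF (C : Pres → Prop) : ℕ → Pres → Prop
  | 0, p => C p
  | n + 1, p => C p ∨ ∃ (s : ℕ) (L : List Pres), (∀ k ∈ L, DD C n k) ∧ 2 ≤ s + L.length ∧
      Nonempty (PG p ≃* FLs s L)
end

/-- REDD: all these classes are r.e. if `C` is (closure lemmas of `REPred`; `iso_re` and the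
primitive recursive presentations of the products). -/
def S_REDD : Prop := ∀ C : Pres → Prop, REPred C → ∀ n, REPred (DD C n) ∧ REPred (FF C n)

end Pool.Agent.Q32.DP
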