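import Pool.Agent.Q32.DP.Stm2

set_option autoImplicit false

/-!
# Groups built by direct and free products: uniform algorithm

Hand-in `MP_32d917_al.BuiltByProducts` (helper32). Notation as in `Stm` and `Stm2`. Proved parts:
`KS.t`, `KSF.t`, `PRODL.t`, `FPROD.t`, `ZNS.Z_iso`, `REDD`, and `ASM.members` (the members of `DD C n` are
torsion-free, freely indecomposable and noncyclic, those of `FF C n` torsion-free, centreless and
directly indecomposable).
-/

namespace Pool.Agent.Q32.DP

open Pool.Agent.Q223.IS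

/-- The presentations of the groups which are built from the groups in `C` and infinite cyclic groups
by finitely many direct products and free products of two groups. -/
inductive Built (C : Pres → Prop) : Pres → Prop
  | base {p : Pres} : C p → Built C p
  | int {p : Pres} : Nonempty (PG p ≃* Multiplicative ℤ) → Built C p
  | direct {a b p : Pres} : Built C a → Built C b → Nonempty (PG p ≃* PG a × PG b) → Built C p
  | free {a b p : Pres} : Built C a → Built C b →
      Nonempty (PG p ≃* Monoid.Coprod (PG a) (PG b)) → Built C p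

/-- The hypotheses on the members of the base class. -/
def Base (p : Pres) : Prop :=
  TFree (PG p) ∧ Centerless (PG p) ∧ Indecomposable (PG p) ∧ FreelyIndec (PG p)

/-- Direct normal form of level `n`: `PG p ≃* ℤ^m × k 1 × ... × k r`, all `k i` in `FF C n`. -/
def DForm (C : Pres → Prop) (n : ℕ) (p : Pres) : Prop :=
  ∃ (m : ℕ) (L : List Pres), (∀ k ∈ L, FF C n k) ∧ Nonempty (PG p ≃* FreeAb m × PL L)

/-- NF: normal forms.

Proof: write `D p := ∃ n, DForm C n p` and `F p := ∃ n s L, (∀ k ∈ L, DD C n k) ∧ PG p ≃* FLs s L`. The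
classes `DD C n`, `FF C n` increase with `n` (induction; `C ≤ DD C n`, `C ≤ FF C n`). `D p → F p`: if
`m + L.length ≥ 2` then `p` is in `DD C (n + 1)` and `PG p ≃* FLs 0 [p]`; `m = 1`, `L = []`: `FLs 1 []`;
`m = 0`, `L = [k]`: `k` is in `C` (then `FLs 0 [k]`) or in `FF C n`, `n = n' + 1`, a free product
of members of `DD C n'`; `m = 0`, `L = []`: `FLs 0 []`. In the same way `F p → D p`. Direct product: append
the lists of the forms `D a`, `D b` (levels: take the maximum); free product: the same with `F`.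
Base: `m = 0`, `L = [p]`. Useful: `Pool.Agent.Q32.DP.Struct` (`consFLs`, `FLs_nil`, `freeAbSucc`,
`Red.consE`). -/
def S_NF : Prop := ∀ C : Pres → Prop, (∀ k, C k → Base k) → ∀ p, Built C p → ∃ n, DForm C n p

/-- GEN: inductive definitions with r.e. rules are r.e.

Proof: `Der e` iff there is a list `D` (a derivation) such that `e ∈ D` and every decomposition
`D = D₁ ++ x :: D₂` satisfies `S (D₂, x)`. R.e.: for instance `∀ i ∈ List.range D.length`,
`S (D.drop (i + 1), D[i])`; closure lemmas of `Pool.Agent.Helper926.RK.RELib`. Closure: if all `x ∈ l`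
are derivable, append the derivations to one list `D'` (each of them stays a derivation by
monotonicity) containing `l`; then `e :: D'` is a derivation by monotonicity. Induction: on the length
of the derivation. -/
def S_GEN : Prop := ∀ (E : Type) [Primcodable E] (S : List E × E → Prop), REPred S →
  (∀ l l' e, (∀ x ∈ l, x ∈ l') → S (l, e) → S (l', e)) →
  ∃ Der : E → Prop, REPred Der ∧ (∀ l e, (∀ x ∈ l, Der x) → S (l, e) → Der e) ∧
    ∀ P : E → Prop, (∀ l e, (∀ x ∈ l, P x) → S (l, e) → P e) → ∀ e, Der e → P e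

/-- The facts: `(0, p, p)`: `p` is in some `DD C n`; `(1, p, p)`: `p` is in some `FF C n`; `(2, p, q)`:
the groups are not isomorphic. -/
abbrev Fact : Type := ℕ × Pres × Pres

/-- The labels `u`, `v` show that the lists `L`, `L'` do not match: equal labels mean isomorphic
groups, different labels mean a known non-isomorphism. -/
def Lab (l : List Fact) (L L' : List Pres) : Prop :=
  ∃ u v : List ℕ, u.length = L.length ∧ v.length = L'.length ∧ ¬ u.Perm v ∧
    ∀ x ∈ L.zip u ++ L'.zip v, ∀ y ∈ L.zip u ++ L'.zip v,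
      (x.2 = y.2 → Nonempty (PG x.1 ≃* PG y.1)) ∧ (x.2 ≠ y.2 → ((2, x.1, y.1) : Fact) ∈ l)

/-- The rules. -/
def StepR (C : Pres → Prop) (f : Pres × Pres →. Bool) (z : List Fact × Fact) : Prop :=
  (z.2.1 = 0 ∧ z.2.2.1 = z.2.2.2 ∧ (C z.2.2.1 ∨ ∃ (m : ℕ) (L : List Pres), 2 ≤ m + L.length ∧
    (∀ k ∈ L, ((1, k, k) : Fact) ∈ z.1) ∧ Nonempty (PG z.2.2.1 ≃* FreeAb m × PL L))) ∨
  (z.2.1 = 1 ∧ z.2.2.1 = z.2.2.2 ∧ (C z.2.2.1 ∨ ∃ (s : ℕ) (L : List Pres), 2 ≤ s + L.length ∧
    (∀ k ∈ L, ((0, k, k) : Fact) ∈ z.1) ∧ Nonempty (PG z.2.2.1 ≃* FLs s L))) ∨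
  (z.2.1 = 2 ∧ ((C z.2.2.1 ∧ C z.2.2.2 ∧ false ∈ f (z.2.2.1, z.2.2.2)) ∨
    (∃ (m : ℕ) (L : List Pres) (m' : ℕ) (L' : List Pres), (∀ k ∈ L, ((1, k, k) : Fact) ∈ z.1) ∧
      (∀ k ∈ L', ((1, k, k) : Fact) ∈ z.1) ∧ Nonempty (PG z.2.2.1 ≃* FreeAb m × PL L) ∧
      Nonempty (PG z.2.2.2 ≃* FreeAb m' × PL L') ∧ (m ≠ m' ∨ Lab z.1 L L')) ∨
    (∃ (s : ℕ) (L : List Pres) (s' : ℕ) (L' : List Pres), (∀ k ∈ L, ((0, k, k) : Fact) ∈ z.1) ∧
      (∀ k ∈ L', ((0, k, k) : Fact) ∈ z.1) ∧ Nonempty (PG z.2.2.1 ≃* FLs s L) ∧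
      Nonempty (PG z.2.2.2 ≃* FLs s' L') ∧ (s ≠ s' ∨ Lab z.1 L L'))))

/-- STEPRE: the rules are r.e. and monotone.

Proof: `FreeAb m × PL L` and `FLs s L` have primitive recursive (or computable) presentations
(`ZNS.Z`, `PRODL.t PROD2.t`, `FPROD.t`), isomorphism is r.e. (`iso_re`), closure lemmas of
`Pool.Agent.Helper926.RK.RELib`; see `NONMATCH`, `ALG`, `ALGF`, `REDD` for similar proofs. -/
def S_STEPRE : Prop := ∀ (C : Pres → Prop) (f : Pres × Pres →. Bool), REPred C → Partrec f →
  REPred (StepR C f) ∧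
  ∀ l l' e, (∀ x ∈ l, x ∈ l') → StepR C f (l, e) → StepR C f (l', e)

/-- The meaning of the facts. -/
def Mean (C : Pres → Prop) (e : Fact) : Prop :=
  (e.1 = 0 → ∃ n, DD C n e.2.1) ∧ (e.1 = 1 → ∃ n, FF C n e.2.1) ∧
    (e.1 = 2 → ¬ Nonempty (PG e.2.1 ≃* PG e.2.2))

/-- SOUND: the rules preserve the meaning.

Proof: levels: `DD C n`, `FF C n` increase with `n` (for finitely many `k` take the maximum). Rule
`(2, p, q)` with direct forms: if `PG p ≃* PG q` then `S_KS` (members of `FF C n` are centreless and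
directly indecomposable by `ASM.members`; `FreeAb m ≃* FreeAb m'` gives `m = m'`, `ZNS.rank_eq`) gives
a matching of `L` and `L'`; matched members have equal labels, because different labels mean
non-isomorphic groups; so `u.Perm v` (both are functions of the members along the matching). Free
forms: the same with `S_KSF`. -/
def S_SOUND : Prop := ∀ (C : Pres → Prop) (f : Pres × Pres →. Bool), (∀ k, C k → Base k) →
  (∀ a b, C a → C b → (Nonempty (PG a ≃* PG b) → true ∈ f (a, b)) ∧
    (¬ Nonempty (PG a ≃* PG b) → false ∈ f (a, b))) →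
  ∀ l e, (∀ x ∈ l, Mean C x) → StepR C f (l, e) → Mean C e

/-- COMPL: completeness. `Der` is any set of facts closed under the rules.

Proof: by induction on `n`: (a) `DD C n p → Der (0, p, p)`, `FF C n p → Der (1, p, p)`; (b) for
non-isomorphic `p`, `q`, both in `DD C n` or both in `FF C n`: `Der (2, p, q)`. For (b) at `n + 1`: a member
`p` of `DD C (n + 1)` has a direct form `(m, L)` with members in `FF C n` (`(0, [p])` if `p` is in `C`);
since `PG p`, `PG q` are not isomorphic, `m ≠ m'` or `L`, `L'` do not match; in the second case label each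
member of `L ++ L'` by the least index of an isomorphic member; different labels mean non-isomorphic
members of `FF C n`, so `Der (2, x, y)` by (b); the label lists are not permutations of each other,
otherwise `L`, `L'` would match (`NONMATCH` contains this argument) and `PG p ≃* PG q`
(`ALG.pl_congr`). The list `l` of the rule consists of the finitely many facts which are needed. Free
forms: the same (`ALGF.coprodI_congr`). The statement for `DForm C n` is the same argument once more. -/
def S_COMPL : Prop := ∀ (C : Pres → Prop) (f : Pres × Pres →. Bool),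
  (∀ a b, C a → C b → (Nonempty (PG a ≃* PG b) → true ∈ f (a, b)) ∧
    (¬ Nonempty (PG a ≃* PG b) → false ∈ f (a, b))) →
  ∀ Der : Fact → Prop, (∀ l e, (∀ x ∈ l, Der x) → StepR C f (l, e) → Der e) →
  ∀ n p q, DForm C n p → DForm C n q → ¬ Nonempty (PG p ≃* PG q) → Der (2, p, q)

end Pool.Agent.Q32.DP
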